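import Pool.Agent.W2helper41.X.Loc

/-!
# Local images: the conditions on an integer
-/

set_option autoImplicit false

namespace Pool.Agent.W2helper41.X

/-- the condition at `p` on the class of `n` -/
def Cnd (p : ℕ) [Fact p.Prime] (a c n : ℤ) : Prop :=
  ∃ z m : ℚ_[p], z ≠ 0 ∧ (n : ℚ_[p]) * z ^ 2 = m ∧
    (m = 1 ∨ m = c ∨ (m ≠ 0 ∧ ∃ y : ℚ_[p], y ^ 2 = m * (m ^ 2 + a * m + c)))

variable {p : ℕ} [hp : Fact p.Prime]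

theorem intCast_unit {n : ℤ} (hn : (n : ZMod p) ≠ 0) : ∃ w : ℤ_[p]ˣ, (w : ℤ_[p]) = n ∧ rs w = n := by
  have h1 : PadicInt.toZMod (n : ℤ_[p]) ≠ 0 := by rwa [map_intCast]
  obtain ⟨w, hw⟩ := isUnit_of h1
  refine ⟨w, hw, ?_⟩
  unfold rs
  rw [hw, map_intCast]

/-- the exponent and the residue of a number prime to `p` -/
theorem unit_mul {n : ℤ} (hn : (n : ZMod p) ≠ 0) {i : ℤ} {z : ℚ_[p]} (hz : z ≠ 0) {k : ℤ}
    {u : ℤ_[p]ˣ} (h : (p : ℚ_[p]) ^ i * n * z ^ 2 = (p : ℚ_[p]) ^ k * ((u : ℤ_[p]) : ℚ_[p])) :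
    ∃ j : ℤ, k = i + 2 * j ∧ ∃ t : ZMod p, t ≠ 0 ∧ rs u = n * t ^ 2 := by
  have hp0 : (p : ℚ_[p]) ≠ 0 := by exact_mod_cast hp.out.ne_zero
  obtain ⟨w, hw, hrw⟩ := intCast_unit hn
  obtain ⟨j, s, hs⟩ := dec z hz
  have h1 : (p : ℚ_[p]) ^ (i + 2 * j) * (((w * s ^ 2 : ℤ_[p]ˣ) : ℤ_[p]) : ℚ_[p]) =
      (p : ℚ_[p]) ^ k * ((u : ℤ_[p]) : ℚ_[p]) := by
    rw [← h, hs, Units.val_mul, hw, zpow_add₀ hp0, mul_comm 2 j, zpow_mul]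
    push_cast
    rw [show (2 : ℤ) = ((2 : ℕ) : ℤ) by norm_num, zpow_natCast]
    ring
  obtain ⟨h2, h3⟩ := exp_eq h1
  refine ⟨j, h2.symm, rs s, rs_ne s, ?_⟩
  rw [← h3, rs_mul, hrw, pow_two, rs_mul, pow_two]

theorem one_dec : (1 : ℚ_[p]) = (p : ℚ_[p]) ^ (0 : ℤ) * (((1 : ℤ_[p]ˣ) : ℤ_[p]) : ℚ_[p]) := by
  rw [zpow_zero, Units.val_one, one_mul]
  rfl

/-- the condition at a prime which divides `D` -/
theorem cnd_main {a c D' : ℤ} (hc : (c : ZMod p) ≠ 0) (hD : (D' : ZMod p) ≠ 0) {n : ℤ}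
    (h : Cnd p (a * (p * D')) (c * (p * D') ^ 2) n) :
    ∃ (k : ℤ) (u : ℤ_[p]ˣ) (z : ℚ_[p]), z ≠ 0 ∧ (n : ℚ_[p]) * z ^ 2 =
      (p : ℚ_[p]) ^ k * ((u : ℤ_[p]) : ℚ_[p]) ∧
    (((∃ j : ℤ, k = 2 * j) ∧ (IsSquare (rs u * c) ∨ IsSquare (rs u))) ∨
      (k = 1 ∧ ∃ ρ : ZMod p, ρ ^ 2 + a * ρ + c = 0 ∧ rs u = D' * ρ)) := by
  have hp0 : (p : ℚ_[p]) ≠ 0 := by exact_mod_cast hp.out.ne_zero
  obtain ⟨z, m, hz, hzm, h1⟩ := h
  rcases h1 with h1 | h1 | ⟨h1, y, hy⟩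
  · refine ⟨0, 1, z, hz, ?_, Or.inl ⟨⟨0, by norm_num⟩, Or.inr ⟨1, ?_⟩⟩⟩
    · rw [hzm, h1]; exact one_dec
    · unfold rs; rw [Units.val_one, map_one, mul_one]
  · obtain ⟨w, hw, hrw⟩ := intCast_unit (p := p) (n := c * D' ^ 2) (by
      push_cast
      exact mul_ne_zero hc (pow_ne_zero 2 hD))
    refine ⟨2, w, z, hz, ?_, Or.inl ⟨⟨1, by norm_num⟩, Or.inl ⟨c * D', ?_⟩⟩⟩
    · rw [hzm, h1, hw]
      push_cast
      rw [show (2 : ℤ) = ((2 : ℕ) : ℤ) by norm_num, zpow_natCast]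
      ring
    · rw [hrw]; push_cast; ring
  · obtain ⟨k, u, hu⟩ := dec m h1
    refine ⟨k, u, z, hz, by rw [hzm, hu], ?_⟩
    refine loc_main hc hD (y := y) ?_
    rw [hy, hu]
    push_cast
    ring

/-- a square class at a split prime, `n` prime to `p` -/
theorem cnd_split {a c D' : ℤ} (hc : (c : ZMod p) ≠ 0) (hcs : IsSquare (c : ZMod p))
    (hD : (D' : ZMod p) ≠ 0) {n : ℤ} (hn : (n : ZMod p) ≠ 0)
    (h : Cnd p (a * (p * D')) (c * (p * D') ^ 2) n) : IsSquare (n : ZMod p) := by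
  obtain ⟨k, u, z, hz, hzk, h1⟩ := cnd_main hc hD h
  have hzk' : (p : ℚ_[p]) ^ (0 : ℤ) * (n : ℚ_[p]) * z ^ 2 =
      (p : ℚ_[p]) ^ k * ((u : ℤ_[p]) : ℚ_[p]) := by rw [zpow_zero, one_mul, hzk]
  obtain ⟨j, hj, t, ht0, ht⟩ := unit_mul hn hz hzk'
  rcases h1 with ⟨-, h2⟩ | ⟨h2, -⟩
  · have h3 : IsSquare (rs u) := by
      rcases h2 with h2 | h2
      · obtain ⟨x, hx⟩ := h2
        obtain ⟨y, hy⟩ := hcs
        have hy0 : y ≠ 0 := by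
          rintro rfl
          apply hc
          rw [hy, mul_zero]
        refine ⟨x / y, ?_⟩
        field_simp
        rw [pow_two, ← hy]
        linear_combination hx
      · exact h2
    obtain ⟨x, hx⟩ := h3
    refine ⟨x / t, ?_⟩
    field_simp
    linear_combination hx - ht
  · omega

/-- a square class at a split prime, `n` divisible by `p` -/
theorem cnd_split' {a c D' : ℤ} (hc : (c : ZMod p) ≠ 0)
    (hD : (D' : ZMod p) ≠ 0) {n : ℤ} (hn : (n : ZMod p) ≠ 0)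
    (h : Cnd p (a * (p * D')) (c * (p * D') ^ 2) (p * n)) :
    ∃ ρ : ZMod p, ρ ^ 2 + a * ρ + c = 0 ∧ IsSquare ((n : ZMod p) * D' * ρ) := by
  obtain ⟨k, u, z, hz, hzk, h1⟩ := cnd_main hc hD h
  have hzk' : (p : ℚ_[p]) ^ (1 : ℤ) * (n : ℚ_[p]) * z ^ 2 =
      (p : ℚ_[p]) ^ k * ((u : ℤ_[p]) : ℚ_[p]) := by
    rw [zpow_one, ← hzk]
    push_cast
    ring
  obtain ⟨j, hj, t, ht0, ht⟩ := unit_mul hn hz hzk'
  rcases h1 with ⟨⟨j', h2⟩, -⟩ | ⟨h2, ρ, hρ, hu⟩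
  · omega
  · refine ⟨ρ, hρ, n * t, ?_⟩
    rw [ht] at hu
    linear_combination (-(n : ZMod p)) * hu

/-- the condition at an inert prime -/
theorem cnd_inert {a c D' : ℤ} (hc : (c : ZMod p) ≠ 0)
    (hD : (D' : ZMod p) ≠ 0) (hno : ∀ ρ : ZMod p, ρ ^ 2 + a * ρ + c ≠ 0) {n : ℤ}
    (hn : Squarefree n) (h : Cnd p (a * (p * D')) (c * (p * D') ^ 2) n) : ¬ (p : ℤ) ∣ n := by
  rintro ⟨n', rfl⟩
  have hn' : (n' : ZMod p) ≠ 0 := by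
    intro h0
    rw [ZMod.intCast_zmod_eq_zero_iff_dvd] at h0
    have h1 := hn (p : ℤ) (mul_dvd_mul_left _ h0)
    exact (Nat.prime_iff_prime_int.1 hp.out).not_isUnit h1
  obtain ⟨ρ, hρ, -⟩ := cnd_split' hc hD hn' h
  exact hno ρ hρ

/-- the condition at a prime which does not divide the last coefficient -/
theorem cnd_good {a c : ℤ} (hc : (c : ZMod p) ≠ 0) {n : ℤ}
    (hn : Squarefree n) (h : Cnd p a c n) : ¬ (p : ℤ) ∣ n := by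
  rintro ⟨n', rfl⟩
  have hn' : (n' : ZMod p) ≠ 0 := by
    intro h0
    rw [ZMod.intCast_zmod_eq_zero_iff_dvd] at h0
    have h1 := hn (p : ℤ) (mul_dvd_mul_left _ h0)
    exact (Nat.prime_iff_prime_int.1 hp.out).not_isUnit h1
  obtain ⟨z, m, hz, hzm, h1⟩ := h
  obtain ⟨k, u, hu, hk⟩ : ∃ (k : ℤ) (u : ℤ_[p]ˣ), m = (p : ℚ_[p]) ^ k * ((u : ℤ_[p]) : ℚ_[p]) ∧
      ∃ j : ℤ, k = 2 * j := by
    rcases h1 with h1 | h1 | ⟨h1, y, hy⟩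
    · exact ⟨0, 1, by rw [h1]; exact one_dec, 0, by norm_num⟩
    · obtain ⟨w, hw, -⟩ := intCast_unit (p := p) hc
      refine ⟨0, w, ?_, 0, by norm_num⟩
      rw [h1, hw, zpow_zero, one_mul]
      push_cast
      rfl
    · obtain ⟨k, u, hu⟩ := dec m h1
      refine ⟨k, u, hu, loc_even (a := a) (u := u) hc (y := y) ?_⟩
      rw [hy, hu]
  have hzk' : (p : ℚ_[p]) ^ (1 : ℤ) * (n' : ℚ_[p]) * z ^ 2 =
      (p : ℚ_[p]) ^ k * ((u : ℤ_[p]) : ℚ_[p]) := by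
    rw [zpow_one, ← hu, ← hzm]
    push_cast
    ring
  obtain ⟨j, hj, -⟩ := unit_mul hn' hz hzk'
  obtain ⟨j', hj'⟩ := hk
  omega

end Pool.Agent.W2helper41.X
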