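import Mathlib
import Pool.Agent.W2helper41.X.Loc2

/-!
# Squarefree representatives and the places of `ℚ`
-/

set_option autoImplicit false

open NumberField IsDedekindDomain

namespace Pool.Agent.W2helper41.X

/-- a squarefree representative -/
theorem exists_sqf (x : ℚ) (hx : x ≠ 0) : ∃ (n : ℤ) (z : ℚ), Squarefree n ∧ z ≠ 0 ∧
    x = n * z ^ 2 := by
  have hnum : x.num ≠ 0 := Rat.num_ne_zero.2 hx
  have hden : (x.den : ℤ) ≠ 0 := by exact_mod_cast x.den_nz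
  set m : ℤ := x.num * x.den with hm
  have hm0 : m ≠ 0 := mul_ne_zero hnum hden
  obtain ⟨a, b, hab, ha⟩ := Nat.sq_mul_squarefree m.natAbs
  have hb0 : b ≠ 0 := by
    rintro rfl
    rw [zero_pow two_ne_zero, zero_mul, eq_comm, Int.natAbs_eq_zero] at hab
    exact hm0 hab
  have hx' : x = (m : ℚ) / (x.den : ℚ) ^ 2 := by
    have h1 : (x.den : ℚ) ≠ 0 := by exact_mod_cast x.den_nz
    rw [hm]
    push_cast
    field_simp
    exact_mod_cast Rat.mul_den_eq_num x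
  have h2 : ((b : ℚ) / x.den) ≠ 0 := div_ne_zero (by exact_mod_cast hb0)
    (by exact_mod_cast x.den_nz)
  rcases Int.natAbs_eq m with h | h
  · refine ⟨a, b / x.den, ?_, h2, ?_⟩
    · exact Int.squarefree_natAbs.1 (by rw [Int.natAbs_natCast]; exact ha)
    · refine hx'.trans ?_
      rw [h, ← hab]
      push_cast
      ring
  · refine ⟨-a, b / x.den, ?_, h2, ?_⟩
    · exact Int.squarefree_natAbs.1 (by rw [Int.natAbs_neg, Int.natAbs_natCast]; exact ha)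
    · refine hx'.trans ?_
      rw [h, ← hab]
      push_cast
      ring

/-- the completion at `p` -/
theorem exists_hom (p : ℕ) [hp : Fact p.Prime] : ∃ v : HeightOneSpectrum (𝓞 ℚ),
    Nonempty (v.adicCompletion ℚ →+* ℚ_[p]) :=
  ⟨_, ⟨((Padic.adicCompletionEquiv (𝓞 ℚ) ⟨p, hp.out⟩).symm.toRingEquiv :
    ((Rat.HeightOneSpectrum.primesEquiv (R := 𝓞 ℚ)).symm ⟨p, hp.out⟩).adicCompletion ℚ ≃+*
      ℚ_[p]).toRingHom⟩⟩

/-- the condition at `p` -/
theorem cnd_of {p : ℕ} [hp : Fact p.Prime] {A C : ℤ} {F : Type} [Field F] [Algebra ℚ F]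
    (φ : F →+* ℚ_[p]) {x : ℚ} {n : ℤ} {w : ℚ} (hw : w ≠ 0) (hx : x = n * w ^ 2) {z m : F}
    (hz : z ≠ 0) (h1 : algebraMap ℚ F x * z ^ 2 = m)
    (h2 : m = 1 ∨ m = algebraMap ℚ F C ∨
      (m ≠ 0 ∧ ∃ y : F, y ^ 2 = m * (m ^ 2 + algebraMap ℚ F A * m + algebraMap ℚ F C))) :
    Cnd p A C n := by
  have hφ : ∀ q : ℚ, φ (algebraMap ℚ F q) = (q : ℚ_[p]) := fun q =>
    eq_ratCast (φ.comp (algebraMap ℚ F)) q
  have hw' : (w : ℚ_[p]) ≠ 0 := by exact_mod_cast hw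
  refine ⟨w * φ z, φ m, mul_ne_zero hw' ((map_ne_zero φ).2 hz), ?_, ?_⟩
  · rw [← h1, map_mul, map_pow, hφ, hx]
    push_cast
    ring
  · rcases h2 with h2 | h2 | ⟨h2, y, hy⟩
    · left; rw [h2, map_one]
    · right; left; rw [h2, hφ]; norm_num
    · right; right
      refine ⟨(map_ne_zero φ).2 h2, φ y, ?_⟩
      have h3 := congrArg φ hy
      rw [map_pow, map_mul, map_add, map_add, map_mul, map_pow, hφ, hφ] at h3
      rw [h3]
      norm_num

theorem den_odd {v : HeightOneSpectrum (𝓞 ℚ)} (h2 : ((2 : ℕ) : 𝓞 ℚ) ∈ v.asIdeal) {x : ℚ}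
    (h : v.valuation ℚ x ≤ 1) : x.den % 2 = 1 := by
  rw [Rat.valuation_le_one_iff_den] at h
  by_contra h3
  apply h
  obtain ⟨k, hk⟩ : ∃ k : ℕ, x.den = k * 2 := ⟨x.den / 2, by omega⟩
  rw [hk, Nat.cast_mul]
  exact Ideal.mul_mem_left _ _ h2

theorem z4_sq : ∀ x : ZMod 4, (x = 1 ∨ x = 3) → x ^ 2 = 1 := by decide

theorem z4_odd {x : ℤ} (h : x % 2 = 1) : (x : ZMod 4) = 1 ∨ (x : ZMod 4) = 3 := by
  have h1 : x % 4 = 1 ∨ x % 4 = 3 := by omega
  have h2 : (x : ZMod 4) = ((x % 4 : ℤ) : ZMod 4) := by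
    rw [ZMod.intCast_eq_intCast_iff]
    exact (Int.mod_modEq x 4).symm
  rcases h1 with h1 | h1
  · left; rw [h2, h1]; rfl
  · right; rw [h2, h1]; rfl

/-- an unramified class at `2` -/
theorem unr_int {v : HeightOneSpectrum (𝓞 ℚ)} (h2 : ((2 : ℕ) : 𝓞 ℚ) ∈ v.asIdeal) {n : ℤ}
    (hn : Squarefree n) (h : ∃ t s u : ℚ, t ≠ 0 ∧ (n : ℚ) * t ^ 2 = s ^ 2 + 4 * u ∧
      v.valuation ℚ ((n : ℚ) * t ^ 2) = 1 ∧ v.valuation ℚ s ≤ 1 ∧ v.valuation ℚ u ≤ 1) :
    n % 4 = 1 := by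
  obtain ⟨t, s, u, ht, e, e1, hs, hu⟩ := h
  set y : ℚ := (n : ℚ) * t ^ 2 with hy
  have hyd := den_odd h2 e1.le
  have hy0 : y ≠ 0 := by
    intro h0
    rw [h0, map_zero] at e1
    exact zero_ne_one e1
  have hyn : y.num % 2 = 1 := by
    have h3 := den_odd (x := y⁻¹) h2 (by rw [map_inv₀, e1, inv_one])
    have h4 : (y.num : ℚ) * (y⁻¹).num = y.den * (y⁻¹).den := by
      have h5 := Rat.mul_den_eq_num y
      have h6 := Rat.mul_den_eq_num y⁻¹
      rw [← h5, ← h6]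
      field_simp
    have h5 : y.num * (y⁻¹).num = y.den * (y⁻¹).den := by exact_mod_cast h4
    have h6 : (y.num * (y⁻¹).num) % 2 = 1 := by
      rw [h5, Int.mul_emod]
      have h7 : ((y.den : ℤ)) % 2 = 1 := by omega
      have h8 : (((y⁻¹).den : ℤ)) % 2 = 1 := by omega
      rw [h7, h8]
      norm_num
    rcases Int.emod_two_eq_zero_or_one y.num with h7 | h7
    · rw [Int.mul_emod, h7, zero_mul] at h6
      norm_num at h6
    · exact h7
  have hsd := den_odd h2 hs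
  have hud := den_odd h2 hu
  -- the equation `n p² d = c q²`
  have htq := Rat.mul_den_eq_num t
  have hyq := Rat.mul_den_eq_num y
  have hsq := Rat.mul_den_eq_num s
  have huq := Rat.mul_den_eq_num u
  have E1 : n * t.num ^ 2 * y.den = y.num * (t.den : ℤ) ^ 2 := by
    have : (n : ℚ) * (t.num : ℚ) ^ 2 * y.den = y.num * (t.den : ℚ) ^ 2 := by
      rw [← htq, ← hyq, hy]
      ring
    exact_mod_cast this
  have E2 : n * t.num ^ 2 * (s.den : ℤ) ^ 2 * u.den =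
      (t.den : ℤ) ^ 2 * (s.num ^ 2 * u.den + 4 * u.num * (s.den : ℤ) ^ 2) := by
    have : (n : ℚ) * (t.num : ℚ) ^ 2 * (s.den : ℚ) ^ 2 * u.den =
        (t.den : ℚ) ^ 2 * ((s.num : ℚ) ^ 2 * u.den + 4 * u.num * (s.den : ℚ) ^ 2) := by
      rw [← htq, ← hsq, ← huq]
      linear_combination (t.den : ℚ) ^ 2 * (s.den : ℚ) ^ 2 * u.den * e
    exact_mod_cast this
  have c1 := congrArg (Int.cast : ℤ → ZMod 4) E1
  have c2 := congrArg (Int.cast : ℤ → ZMod 4) E2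
  push_cast at c1 c2
  have f1 := z4_odd (x := (y.den : ℤ)) (by omega)
  have f2 := z4_odd hyn
  have f3 := z4_odd (x := (s.den : ℤ)) (by omega)
  have f4 := z4_odd (x := (u.den : ℤ)) (by omega)
  rw [Int.cast_natCast] at f1 f3 f4
  have htd : (t.den : ℤ) % 2 = 1 := by
    by_contra hc
    have hcop := t.reduced
    have hp : t.num % 2 = 1 := by
      by_contra hc'
      have h5 : 2 ∣ t.num.natAbs := by omega
      have h6 : 2 ∣ t.den := by omega
      have h7 := Nat.dvd_gcd h5 h6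
      rw [Nat.coprime_iff_gcd_eq_one.1 hcop] at h7
      omega
    obtain ⟨k, hk⟩ : ∃ k : ℤ, (t.den : ℤ) = 2 * k := ⟨(t.den : ℤ) / 2, by omega⟩
    have h5 : ((t.den : ℤ) : ZMod 4) ^ 2 = 0 := by
      rw [hk]
      push_cast
      have : ((2 : ZMod 4) * (k : ZMod 4)) ^ 2 = 4 * (k : ZMod 4) ^ 2 := by ring
      rw [this]
      have h4 : (4 : ZMod 4) = 0 := rfl
      rw [h4, zero_mul]
    rw [Int.cast_natCast] at h5
    rw [h5, mul_zero, z4_sq _ (z4_odd hp), mul_one] at c1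
    have h6 : ∀ a b : ZMod 4, (b = 1 ∨ b = 3) → a * b = 0 → a = 0 := by decide
    have h7 := h6 _ _ f1 c1
    rw [ZMod.intCast_zmod_eq_zero_iff_dvd] at h7
    have h8 := hn 2 (by exact_mod_cast h7)
    have h9 := Int.isUnit_iff.1 h8
    omega
  have f5 := z4_odd htd
  rw [Int.cast_natCast] at f5
  rw [z4_sq _ f5] at c1 c2
  rw [z4_sq _ f3] at c2
  have key : ∀ n p d c f a e : ZMod 4, (d = 1 ∨ d = 3) → (c = 1 ∨ c = 3) → (f = 1 ∨ f = 3) →
      n * p ^ 2 * d = c * 1 → n * p ^ 2 * 1 * f = 1 * (a ^ 2 * f + 4 * e * 1) → n = 1 := by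
    decide
  have h10 := key _ _ _ _ _ _ _ f1 f2 f4 c1 c2
  have h11 : (n : ZMod 4) = ((1 : ℤ) : ZMod 4) := by rw [h10]; norm_num
  rw [ZMod.intCast_eq_intCast_iff] at h11
  have h12 : n % 4 = 1 % 4 := h11
  omega

end Pool.Agent.W2helper41.X
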