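import Mathlib

/-!
# The matrix of the quadratic residue symbols
-/

set_option autoImplicit false

open Finset

open scoped Classical

namespace Pool.Agent.W2helper41.X

/-- `0` for squares, `1` for the other elements -/
noncomputable def ns {F : Type} [Mul F] (x : F) : ZMod 2 := if IsSquare x then 0 else 1

theorem ns_eq_zero {F : Type} [Mul F] {x : F} : ns x = 0 ↔ IsSquare x := by
  unfold ns
  split_ifs with h
  · simp [h]
  · simp [h]

section

variable {p : ℕ} [hp : Fact p.Prime]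

theorem ns_mul {x y : ZMod p} (hx : x ≠ 0) (hy : y ≠ 0) :
    ns (x * y) = ns x + ns y := by
  have key : ∀ z : ZMod p, z ≠ 0 → (quadraticChar (ZMod p) z = 1 ↔ IsSquare z) := fun z hz =>
    quadraticChar_one_iff_isSquare hz
  have h1 := key x hx
  have h2 := key y hy
  have h3 := key (x * y) (mul_ne_zero hx hy)
  rw [map_mul] at h3
  have d1 := quadraticChar_dichotomy hx
  have d2 := quadraticChar_dichotomy hy
  unfold ns
  by_cases a : IsSquare x <;> by_cases b : IsSquare y
  · rw [if_pos a, if_pos b, if_pos (h3.1 (by rw [h1.2 a, h2.2 b, one_mul]))]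
    rfl
  · have e2 := d2.resolve_left fun h => b (h2.1 h)
    rw [if_pos a, if_neg b, if_neg fun h => by
      have := h3.2 h
      rw [h1.2 a, e2] at this
      norm_num at this]
    rfl
  · have e1 := d1.resolve_left fun h => a (h1.1 h)
    rw [if_neg a, if_pos b, if_neg fun h => by
      have := h3.2 h
      rw [e1, h2.2 b] at this
      norm_num at this]
    rfl
  · have e1 := d1.resolve_left fun h => a (h1.1 h)
    have e2 := d2.resolve_left fun h => b (h2.1 h)
    rw [if_neg a, if_neg b, if_pos (h3.1 (by rw [e1, e2]; norm_num))]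
    rfl

theorem ns_prod {ι : Type} (I : Finset ι) (f : ι → ZMod p) (h : ∀ i ∈ I, f i ≠ 0) :
    ns (∏ i ∈ I, f i) = ∑ i ∈ I, ns (f i) := by
  induction I using Finset.induction_on with
  | empty =>
    rw [prod_empty, sum_empty, ns_eq_zero]
    exact ⟨1, by ring⟩
  | insert a I ha ih =>
    rw [prod_insert ha, sum_insert ha, ns_mul (h a (mem_insert_self _ _))
      (prod_ne_zero_iff.2 fun i hi => h i (mem_insert_of_mem hi)),
      ih fun i hi => h i (mem_insert_of_mem hi)]

theorem two_eq (x : ZMod 2) : x + x = 0 := by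
  revert x
  decide

end

/-- the condition of one split prime: `0` if `y⁴ + 13 m y² + 128 m²` has a root modulo `p` -/
noncomputable def nr (m p : ℕ) : ZMod 2 :=
  if ∃ y : ZMod p, y ^ 4 + 13 * m * y ^ 2 + 128 * m ^ 2 = 0 then 0 else 1

/-- the matrix of the residue symbols of the primes of `P` -/
noncomputable def mat (P : Finset ℕ) (m : ℕ) : Matrix P P (ZMod 2) := Matrix.of fun j i =>
  if i = j then nr m j + ∑ l ∈ P.erase j, ns ((l : ℕ) : ZMod (j : ℕ)) else ns ((i : ℕ) : ZMod (j : ℕ))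

/-- the system on a subset -/
def Ker (P : Finset ℕ) (m : ℕ) (I : Finset ℕ) : Prop :=
  ∀ j ∈ P, (j ∉ I → ∑ i ∈ I, ns ((i : ℕ) : ZMod j) = 0) ∧
    (j ∈ I → nr m j + ∑ l ∈ P.erase j, ns ((l : ℕ) : ZMod j) +
      ∑ i ∈ I.erase j, ns ((i : ℕ) : ZMod j) = 0)

theorem ker_mulVec {P I : Finset ℕ} (hI : I ⊆ P) (m : ℕ) :
    Ker P m I ↔ (mat P m).mulVec (fun i => if (i : ℕ) ∈ I then 1 else 0) = 0 := by
  have key : ∀ j : P, (mat P m).mulVec (fun i => if (i : ℕ) ∈ I then 1 else 0) j =
      (if (j : ℕ) ∈ I then nr m j + ∑ l ∈ P.erase j, ns ((l : ℕ) : ZMod (j : ℕ)) else 0) +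
        ∑ i ∈ I.erase j, ns ((i : ℕ) : ZMod (j : ℕ)) := by
    intro j
    unfold Matrix.mulVec dotProduct
    have e1 : ∀ i : P, (mat P m) j i * (if (i : ℕ) ∈ I then 1 else 0) =
        (fun i : ℕ => if i ∈ I then (if i = j then nr m j + ∑ l ∈ P.erase j,
          ns ((l : ℕ) : ZMod (j : ℕ)) else ns ((i : ℕ) : ZMod (j : ℕ))) else 0) (i : ℕ) := by
      intro i
      unfold mat
      simp only [Matrix.of_apply, Subtype.ext_iff]
      split_ifs <;> simp
    rw [sum_congr rfl fun i _ => e1 i, sum_coe_sort P (fun i : ℕ => if i ∈ I then (if i = (j : ℕ) then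
      nr m j + ∑ l ∈ P.erase j, ns ((l : ℕ) : ZMod (j : ℕ)) else ns ((i : ℕ) : ZMod (j : ℕ))) else 0),
      ← sum_filter]
    have e2 : P.filter (fun i => i ∈ I) = I := by
      ext i
      rw [mem_filter]
      exact ⟨fun h => h.2, fun h => ⟨hI h, h⟩⟩
    rw [e2]
    by_cases hj : (j : ℕ) ∈ I
    · rw [if_pos hj, ← add_sum_erase I _ hj, if_pos rfl]
      congr 1
      refine sum_congr rfl fun i hi => ?_
      rw [if_neg (ne_of_mem_erase hi)]
    · rw [if_neg hj, zero_add, erase_eq_of_notMem hj]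
      refine sum_congr rfl fun i hi => ?_
      have hne : i ≠ (j : ℕ) := fun h => hj (h ▸ hi)
      rw [if_neg hne]
  constructor
  · intro h
    funext j
    rw [key j, Pi.zero_apply]
    obtain ⟨h1, h2⟩ := h j j.2
    by_cases hj : (j : ℕ) ∈ I
    · rw [if_pos hj]
      exact h2 hj
    · rw [if_neg hj, zero_add, erase_eq_of_notMem hj]
      exact h1 hj
  · intro h j hj
    have h1 := congrFun h ⟨j, hj⟩
    rw [key ⟨j, hj⟩, Pi.zero_apply] at h1
    constructor
    · intro hn
      rwa [if_neg hn, zero_add, erase_eq_of_notMem hn] at h1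
    · intro hn
      rwa [if_pos hn] at h1

/-- a nonsingular matrix has no kernel -/
theorem ker_empty {P I : Finset ℕ} (hI : I ⊆ P) {m : ℕ} (hdet : (mat P m).det ≠ 0)
    (h : Ker P m I) : I = ∅ := by
  have h1 := Matrix.eq_zero_of_mulVec_eq_zero hdet ((ker_mulVec hI m).1 h)
  rw [eq_empty_iff_forall_notMem]
  intro i hi
  have h2 := congrFun h1 ⟨i, hI hi⟩
  simp [hi] at h2

/-- a singular matrix has a kernel -/
theorem exists_ker {P : Finset ℕ} {m : ℕ} (hdet : (mat P m).det = 0) :
    ∃ I ⊆ P, I.Nonempty ∧ Ker P m I := by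
  obtain ⟨v, hv0, hv⟩ := Matrix.exists_mulVec_eq_zero_iff.2 hdet
  have hz2 : ∀ x : ZMod 2, x ≠ 0 → x = 1 := by decide
  refine ⟨(univ.filter fun i : P => v i ≠ 0).map (Function.Embedding.subtype _), ?_, ?_, ?_⟩
  · intro i hi
    rw [mem_map] at hi
    obtain ⟨a, -, rfl⟩ := hi
    exact a.2
  · obtain ⟨i, hi⟩ := Function.ne_iff.1 hv0
    exact ⟨i, mem_map.2 ⟨i, mem_filter.2 ⟨mem_univ _, hi⟩, rfl⟩⟩
  · rw [ker_mulVec]
    · convert hv using 2
      funext i
      by_cases h : v i = 0
      · rw [if_neg, h]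
        simp [h]
      · rw [if_pos, hz2 _ h]
        simp [h]
    · intro i hi
      rw [mem_map] at hi
      obtain ⟨a, -, rfl⟩ := hi
      exact a.2

end Pool.Agent.W2helper41.X
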