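import Pool.Agent.W2helper41.X.Loc2
import Pool.Agent.W2helper41.X.Mat

/-!
# The Selmer classes
-/

set_option autoImplicit false

open Finset

open scoped Classical

namespace Pool.Agent.W2helper41.X

/-- the split primes -/
def Spl (p : ℕ) : Prop := p.Prime ∧ p % 8 = 1 ∧ (p % 7 = 1 ∨ p % 7 = 2 ∨ p % 7 = 4)

/-- the inert primes -/
def Ine (q : ℕ) : Prop := q.Prime ∧ q % 8 = 5 ∧ (q % 7 = 3 ∨ q % 7 = 5 ∨ q % 7 = 6)

theorem cast_ne {p : ℕ} (hp : p.Prime) (l : ℕ) (hl : l.Prime) (h : p ≠ l) :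
    (l : ZMod p) ≠ 0 := by
  intro h0
  rw [ZMod.natCast_eq_zero_iff] at h0
  exact h ((Nat.prime_dvd_prime_iff_eq hp hl).1 h0)

theorem sq7 : ∀ r : ℕ, r < 7 → r ≠ 0 →
    (IsSquare ((r : ℕ) : ZMod 7) ↔ (r = 1 ∨ r = 2 ∨ r = 4)) := by
  decide

theorem sq_seven (p : ℕ) [Fact p.Prime] (h4 : p % 4 = 1) (h7 : p ≠ 7) :
    IsSquare (-7 : ZMod p) ↔ (p % 7 = 1 ∨ p % 7 = 2 ∨ p % 7 = 4) := by
  have : Fact (Nat.Prime 7) := ⟨by norm_num⟩
  have hp : p.Prime := Fact.out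
  obtain ⟨i, hi⟩ := (ZMod.exists_sq_eq_neg_one_iff (p := p)).2 (by omega)
  have h1 : IsSquare (-7 : ZMod p) ↔ IsSquare (7 : ZMod p) := by
    constructor
    · rintro ⟨r, hr⟩
      exact ⟨i * r, by linear_combination (i * i) * hr + (-7 : ZMod p) * hi⟩
    · rintro ⟨r, hr⟩
      exact ⟨i * r, by linear_combination (i * i) * hr + (7 : ZMod p) * hi⟩
  rw [h1]
  have h2 : IsSquare ((7 : ℕ) : ZMod p) ↔ IsSquare ((p : ℕ) : ZMod 7) :=
    ZMod.exists_sq_eq_prime_iff_of_mod_four_eq_one (p := p) (q := 7) h4 (by norm_num)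
  have h3 : IsSquare (7 : ZMod p) ↔ IsSquare ((p : ℕ) : ZMod 7) := by
    rw [← h2]; norm_num
  rw [h3]
  have h4' : ((p : ℕ) : ZMod 7) = ((p % 7 : ℕ) : ZMod 7) := by rw [ZMod.natCast_mod]
  have h5 : p % 7 ≠ 0 := by
    intro h0
    exact h7 ((Nat.prime_dvd_prime_iff_eq (by norm_num) hp).1 (Nat.dvd_of_mod_eq_zero h0)).symm
  rw [h4']
  exact sq7 (p % 7) (Nat.mod_lt _ (by norm_num)) h5

section split

variable {p : ℕ} [hpf : Fact p.Prime]

theorem Spl.seven (h : Spl p) : IsSquare (-7 : ZMod p) := by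
  have h8 := h.2.1
  refine (sq_seven p (by omega) ?_).2 h.2.2
  rintro rfl
  omega

theorem Spl.two (h : Spl p) : IsSquare (2 : ZMod p) := by
  have h8 := h.2.1
  exact (ZMod.exists_sq_eq_two_iff (by rintro rfl; omega)).2 (Or.inl h8)

theorem Spl.two_ne (h : Spl p) : (2 : ZMod p) ≠ 0 := by
  have h8 := h.2.1
  exact_mod_cast cast_ne h.1 2 Nat.prime_two (by rintro rfl; omega)

theorem Spl.seven_ne (h : Spl p) : (7 : ZMod p) ≠ 0 := by
  have h8 := h.2.1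
  exact_mod_cast cast_ne h.1 7 (by norm_num) (by rintro rfl; omega)

theorem Spl.neg_one (h : Spl p) : IsSquare (-1 : ZMod p) := by
  have h8 := h.2.1
  exact (ZMod.exists_sq_eq_neg_one_iff (p := p)).2 (by omega)

theorem ns_pm {x y : ZMod p} (hx : x ≠ 0) (hy : y ≠ 0) (h : IsSquare (x * y)) : ns x = ns y := by
  have h1 := ns_mul hx hy
  rw [ns_eq_zero.2 h] at h1
  have h2 : ∀ a b : ZMod 2, 0 = a + b → a = b := by decide
  exact h2 _ _ h1

/-- the roots of the first quadratic polynomial -/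
theorem root_one (h : Spl p) {m : ℕ} (hm : (m : ZMod p) ≠ 0) {ρ : ZMod p}
    (hρ : ρ ^ 2 + 13 * ρ + 128 = 0) : ρ ≠ 0 ∧ ns ((m : ZMod p) * ρ) = nr m p := by
  have h2 := h.two_ne
  have hρ0 : ρ ≠ 0 := by
    rintro rfl
    have h3 : (2 : ZMod p) ^ 7 = 0 := by linear_combination hρ
    exact pow_ne_zero 7 h2 h3
  have hne : (m : ZMod p) * ρ ≠ 0 := mul_ne_zero hm hρ0
  refine ⟨hρ0, ?_⟩
  unfold nr
  split_ifs with hy
  · rw [ns_eq_zero]
    obtain ⟨y, hy⟩ := hy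
    have h3 : (y ^ 2 - m * ρ) * (y ^ 2 - m * (-13 - ρ)) = 0 := by
      linear_combination hy - (m : ZMod p) ^ 2 * hρ
    rcases mul_eq_zero.1 h3 with h4 | h4
    · exact ⟨y, by linear_combination -h4⟩
    · have hρ' : -13 - ρ ≠ 0 := by
        intro h5
        have h6 : (2 : ZMod p) ^ 7 = 0 := by linear_combination hρ + ρ * h5
        exact pow_ne_zero 7 h2 h6
      have h5 : ns ((m : ZMod p) * ρ) = ns ((m : ZMod p) * (-13 - ρ)) := by
        apply ns_pm hne (mul_ne_zero hm hρ')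
        obtain ⟨s, hs⟩ := h.two
        exact ⟨8 * m * s, by linear_combination (-(m : ZMod p) ^ 2) * hρ + 64 * (m : ZMod p) ^ 2 * hs⟩
      rw [← ns_eq_zero, h5, ns_eq_zero]
      exact ⟨y, by linear_combination -h4⟩
  · unfold ns
    rw [if_neg]
    rintro ⟨y, hy'⟩
    apply hy
    refine ⟨y, ?_⟩
    have h3 : y ^ 4 + 13 * m * y ^ 2 + 128 * m ^ 2 = (y * y) ^ 2 + 13 * m * (y * y) + 128 * m ^ 2 := by
      ring
    rw [h3, ← hy']
    linear_combination (m : ZMod p) ^ 2 * hρ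

/-- the roots of the second quadratic polynomial -/
theorem root_two (h : Spl p) {m : ℕ} (hm : (m : ZMod p) ≠ 0) {σ : ZMod p}
    (hσ : σ ^ 2 - 26 * σ - 343 = 0) : σ ≠ 0 ∧ ns ((m : ZMod p) * σ) = nr m p := by
  have h2 := h.two_ne
  have h7 := h.seven_ne
  have hσ0 : σ ≠ 0 := by
    rintro rfl
    have h3 : (7 : ZMod p) ^ 3 = 0 := by linear_combination -hσ
    exact pow_ne_zero 3 h7 h3
  refine ⟨hσ0, ?_⟩
  obtain ⟨w, hw⟩ := h.seven
  obtain ⟨ρ, hρ⟩ : ∃ ρ : ZMod p, ρ ^ 2 + 13 * ρ + 128 = 0 := by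
    refine ⟨(-13 + 7 * w) / 2, ?_⟩
    field_simp
    linear_combination (-49 : ZMod p) * hw
  obtain ⟨hρ0, hr⟩ := root_one h hm hρ
  rw [← hr]
  apply ns_pm (mul_ne_zero hm hσ0) (mul_ne_zero hm hρ0)
  obtain ⟨i, hi⟩ := h.neg_one
  obtain ⟨g, hg⟩ : ∃ g : ZMod p, σ = 13 + 2 * g := ⟨(σ - 13) / 2, by field_simp; ring⟩
  have hg2 : g ^ 2 = 128 := by
    have h3 : (2 : ZMod p) ^ 2 * (g ^ 2 - 128) = 0 := by
      rw [hg] at hσ
      linear_combination hσ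
    rcases mul_eq_zero.1 h3 with h4 | h4
    · exact absurd h4 (pow_ne_zero 2 h2)
    · linear_combination h4
  refine ⟨i * m * (ρ - g), ?_⟩
  rw [hg]
  linear_combination (m : ZMod p) ^ 2 * (ρ - g) ^ 2 * hi + (m : ZMod p) ^ 2 * hρ +
    (m : ZMod p) ^ 2 * hg2

end split

section inert

variable {p : ℕ} [hpf : Fact p.Prime]

theorem Ine.two_ne (h : Ine p) : (2 : ZMod p) ≠ 0 := by
  have h8 := h.2.1
  exact_mod_cast cast_ne h.1 2 Nat.prime_two (by rintro rfl; omega)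

theorem Ine.seven_ne (h : Ine p) : (7 : ZMod p) ≠ 0 := by
  have h8 := h.2.1
  exact_mod_cast cast_ne h.1 7 (by norm_num) (by rintro rfl; omega)

theorem Ine.no_one (h : Ine p) (ρ : ZMod p) : ρ ^ 2 + 13 * ρ + 128 ≠ 0 := by
  intro hρ
  have h8 := h.2.1
  have h7 := h.seven_ne
  have h3 : IsSquare (-7 : ZMod p) := by
    refine ⟨(2 * ρ + 13) / 7, ?_⟩
    field_simp
    linear_combination -4 * hρ
  rw [sq_seven p (by omega) (by rintro rfl; omega)] at h3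
  have := h.2.2
  omega

theorem Ine.no_two (h : Ine p) (σ : ZMod p) : σ ^ 2 + (-26) * σ + (-343) ≠ 0 := by
  intro hσ
  have h8 := h.2.1
  have h2 := h.two_ne
  have h3 : IsSquare (2 : ZMod p) := by
    refine ⟨(σ - 13) / 16, ?_⟩
    have h16 : (16 : ZMod p) ≠ 0 := by
      have : (16 : ZMod p) = 2 ^ 4 := by norm_num
      rw [this]
      exact pow_ne_zero 4 h2
    field_simp
    linear_combination -hσ
  rw [ZMod.exists_sq_eq_two_iff (by rintro rfl; omega)] at h3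
  omega

end inert

/-- the decomposition of `n` -/
theorem split_n {P : Finset ℕ} (hPp : ∀ p ∈ P, p.Prime) {n : ℤ} (hn : Squarefree n) {q : ℕ}
    (hq : q.Prime) (h : ∀ l : ℕ, l.Prime → (l : ℤ) ∣ n → l = q ∨ l ∈ P) :
    ∃ e : ℤ, n = e * ∏ i ∈ P.filter (fun p : ℕ => (p : ℤ) ∣ n), (i : ℤ) ∧
      (e.natAbs = 1 ∨ e.natAbs = q) := by
  set I := P.filter (fun p : ℕ => (p : ℤ) ∣ n) with hI
  have hIp : ∀ i ∈ I, Prime (i : ℤ) := fun i hi =>
    Nat.prime_iff_prime_int.1 (hPp i (mem_filter.1 hi).1)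
  have hdvd : ∏ i ∈ I, (i : ℤ) ∣ n := by
    refine Finset.prod_dvd_of_coprime ?_ fun i hi => (mem_filter.1 hi).2
    intro i hi j hj hij
    rw [Function.onFun, Nat.isCoprime_iff_coprime, Nat.coprime_primes
      (hPp i (mem_filter.1 (mem_coe.1 hi)).1) (hPp j (mem_filter.1 (mem_coe.1 hj)).1)]
    exact hij
  obtain ⟨e, he⟩ := hdvd
  refine ⟨e, by rw [he]; ring, ?_⟩
  have hesq : Squarefree e := by
    rw [he] at hn
    exact hn.squarefree_of_dvd (Dvd.intro_left _ rfl)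
  have hea : Squarefree e.natAbs := Int.squarefree_natAbs.2 hesq
  have hpf : e.natAbs.primeFactors ⊆ {q} := by
    intro l hl
    rw [mem_singleton]
    have hlp := Nat.prime_of_mem_primeFactors hl
    have hle : (l : ℤ) ∣ e := Int.natCast_dvd.2 (Nat.dvd_of_mem_primeFactors hl)
    have hln : (l : ℤ) ∣ n := by rw [he]; exact dvd_mul_of_dvd_right hle _
    rcases h l hlp hln with h1 | h1
    · exact h1
    · exfalso
      have h2 : l ∈ I := mem_filter.2 ⟨h1, hln⟩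
      have h3 : (l : ℤ) ∣ ∏ i ∈ I, (i : ℤ) := dvd_prod_of_mem (fun i : ℕ => (i : ℤ)) h2
      have h4 : (l : ℤ) * l ∣ n := by rw [he]; exact mul_dvd_mul h3 hle
      exact (Nat.prime_iff_prime_int.1 hlp).not_isUnit (hn _ h4)
  have h5 := Nat.prod_primeFactors_of_squarefree hea
  rcases subset_singleton_iff.1 hpf with h6 | h6
  · left
    rw [← h5, h6, prod_empty]
  · right
    rw [← h5, h6, prod_singleton]

/-- the kernel condition for a Selmer class -/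
theorem sel_gen {P : Finset ℕ} (hP : ∀ p ∈ P, Spl p) {m : ℕ} (hm : ∀ p ∈ P, ¬ p ∣ m) {a c n e : ℤ}
    {I : Finset ℕ} (hI : I ⊆ P) (hne : n = e * ∏ i ∈ I, (i : ℤ))
    (he : ∀ p ∈ P, IsSquare (e : ZMod p) ∧ (e : ZMod p) ≠ 0)
    (hc : ∀ p ∈ P, IsSquare (c : ZMod p) ∧ (c : ZMod p) ≠ 0)
    (hroot : ∀ p ∈ P, ∀ ρ : ZMod p, ρ ^ 2 + a * ρ + c = 0 → ρ ≠ 0 ∧ ns ((m : ZMod p) * ρ) = nr m p)
    (h : ∀ p ∈ P, ∀ _ : Fact p.Prime, Cnd p (a * ((m * ∏ i ∈ P, i : ℕ) : ℤ))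
      (c * ((m * ∏ i ∈ P, i : ℕ) : ℤ) ^ 2) n) : Ker P m I := by
  have hPp : ∀ p ∈ P, p.Prime := fun p hp => (hP p hp).1
  have hcast : ∀ j ∈ P, ∀ U ⊆ P, j ∉ U → ∀ i ∈ U, ((i : ℕ) : ZMod j) ≠ 0 := by
    intro j hj U hU hjU i hi h0
    have hji : j ≠ i := by
      rintro rfl
      exact hjU hi
    exact cast_ne (hPp j hj) i (hPp i (hU hi)) hji h0
  intro j hj
  have hjf : Fact j.Prime := ⟨hPp j hj⟩
  obtain ⟨he1, he2⟩ := he j hj
  obtain ⟨hc1, hc2⟩ := hc j hj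
  have hcj := h j hj hjf
  have hmj : (m : ZMod j) ≠ 0 := by
    rw [Ne, ZMod.natCast_eq_zero_iff]
    exact hm j hj
  -- `D = j D'`
  obtain ⟨D', hD'⟩ : ∃ D' : ℤ, D' = ((m * ∏ i ∈ P.erase j, i : ℕ) : ℤ) := ⟨_, rfl⟩
  have hD : ((m * ∏ i ∈ P, i : ℕ) : ℤ) = j * D' := by
    rw [hD', ← mul_prod_erase P _ hj]
    push_cast
    ring
  have hprod0 : ∏ i ∈ P.erase j, ((i : ℕ) : ZMod j) ≠ 0 :=
    prod_ne_zero_iff.2 (hcast j hj _ (erase_subset _ _) (notMem_erase _ _))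
  have hD'z : (D' : ZMod j) = m * ∏ i ∈ P.erase j, ((i : ℕ) : ZMod j) := by
    rw [hD']
    push_cast
    rfl
  have hD'0 : (D' : ZMod j) ≠ 0 := by
    rw [hD'z]
    exact mul_ne_zero hmj hprod0
  rw [hD] at hcj
  constructor
  · intro hjI
    have hI0 : ∀ i ∈ I, ((i : ℕ) : ZMod j) ≠ 0 := hcast j hj I hI hjI
    have hnz : (n : ZMod j) = e * ∏ i ∈ I, ((i : ℕ) : ZMod j) := by
      rw [hne]
      push_cast
      rfl
    have hn0 : (n : ZMod j) ≠ 0 := by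
      rw [hnz]
      exact mul_ne_zero he2 (prod_ne_zero_iff.2 hI0)
    have h1 := ns_eq_zero.2 (cnd_split hc2 hc1 hD'0 hn0 hcj)
    rw [hnz, ns_mul he2 (prod_ne_zero_iff.2 hI0), ns_eq_zero.2 he1, zero_add, ns_prod _ _ hI0] at h1
    exact h1
  · intro hjI
    obtain ⟨n', hn'⟩ : ∃ n' : ℤ, n' = e * ∏ i ∈ I.erase j, (i : ℤ) := ⟨_, rfl⟩
    have hnn : n = j * n' := by
      rw [hne, hn', ← mul_prod_erase I _ hjI]
      ring
    have hI0 : ∀ i ∈ I.erase j, ((i : ℕ) : ZMod j) ≠ 0 :=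
      hcast j hj _ ((erase_subset _ _).trans hI) (notMem_erase _ _)
    have hn'z : (n' : ZMod j) = e * ∏ i ∈ I.erase j, ((i : ℕ) : ZMod j) := by
      rw [hn']
      push_cast
      rfl
    have hn0 : (n' : ZMod j) ≠ 0 := by
      rw [hn'z]
      exact mul_ne_zero he2 (prod_ne_zero_iff.2 hI0)
    rw [hnn] at hcj
    obtain ⟨ρ, hρ, hs⟩ := cnd_split' hc2 hD'0 hn0 hcj
    obtain ⟨hρ0, hr⟩ := hroot j hj ρ hρ
    have h1 := ns_eq_zero.2 hs
    have e1 : (n' : ZMod j) * D' * ρ = (n' : ZMod j) * ((m * ρ) * ∏ i ∈ P.erase j, ((i : ℕ) : ZMod j)) := by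
      rw [hD'z]
      ring
    have hmρ : (m : ZMod j) * ρ ≠ 0 := mul_ne_zero hmj hρ0
    rw [e1, ns_mul hn0 (mul_ne_zero hmρ hprod0), ns_mul hmρ hprod0, hr,
      ns_prod _ _ (hcast j hj _ (erase_subset _ _) (notMem_erase _ _)), hn'z,
      ns_mul he2 (prod_ne_zero_iff.2 hI0), ns_eq_zero.2 he1, zero_add, ns_prod _ _ hI0] at h1
    rw [add_comm]
    exact h1

section classes

variable {P T : Finset ℕ} (hP : ∀ p ∈ P, Spl p) (hT : ∀ q ∈ T, Ine q)

include hP hT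

theorem disj_PT : ∀ p ∈ P, ¬ p ∣ ∏ q ∈ T, q := by
  intro p hp h
  obtain ⟨q, hq, hpq⟩ := (Prime.dvd_finsetProd_iff (hP p hp).1.prime _).1 h
  have := (Nat.prime_dvd_prime_iff_eq (hP p hp).1 (hT q hq).1).1 hpq
  have h1 := (hP p hp).2.1
  have h2 := (hT q hq).2.1
  omega

theorem inert_dec {q : ℕ} (hq : q ∈ T) : ∃ D' : ℤ, ((((∏ q ∈ T, q) * ∏ i ∈ P, i : ℕ)) : ℤ) = q * D' ∧
    ∀ _ : Fact q.Prime, (D' : ZMod q) ≠ 0 := by
  refine ⟨(((∏ l ∈ T.erase q, l) * ∏ i ∈ P, i : ℕ) : ℤ), ?_, ?_⟩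
  · rw [← mul_prod_erase T _ hq]
    push_cast
    ring
  · intro hf
    push_cast
    refine mul_ne_zero (prod_ne_zero_iff.2 fun l hl => ?_) (prod_ne_zero_iff.2 fun i hi => ?_)
    · rw [mem_erase] at hl
      exact cast_ne (hT q hq).1 l (hT l hl.2).1 (Ne.symm hl.1)
    · refine cast_ne (hT q hq).1 i (hP i hi).1 ?_
      rintro rfl
      have h1 := (hP q hi).2.1
      have h2 := (hT q hq).2.1
      omega

theorem good_ndvd {l : ℕ} (hl : l.Prime) (h1 : l ∉ T) (h2 : l ∉ P) :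
    ((((∏ q ∈ T, q) * ∏ i ∈ P, i : ℕ) : ℤ) : ZMod l) ≠ 0 := by
  have hf : Fact l.Prime := ⟨hl⟩
  push_cast
  refine mul_ne_zero (prod_ne_zero_iff.2 fun q hq => ?_) (prod_ne_zero_iff.2 fun i hi => ?_)
  · exact cast_ne hl q (hT q hq).1 fun h => h1 (h ▸ hq)
  · exact cast_ne hl i (hP i hi).1 fun h => h2 (h ▸ hi)

/-- **the first Selmer group** -/
theorem sel_one {n : ℤ} (hn : Squarefree n) (hpos : 0 < n)
    (h : ∀ (p : ℕ) (_ : Fact p.Prime), Cnd p (13 * (((∏ q ∈ T, q) * ∏ i ∈ P, i : ℕ) : ℤ))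
      (128 * (((∏ q ∈ T, q) * ∏ i ∈ P, i : ℕ) : ℤ) ^ 2) n) :
    ∃ I ⊆ P, Ker P (∏ q ∈ T, q) I ∧ (n = ∏ i ∈ I, (i : ℤ) ∨ n = 2 * ∏ i ∈ I, (i : ℤ)) := by
  have hlp : ∀ l : ℕ, l.Prime → (l : ℤ) ∣ n → l = 2 ∨ l ∈ P := by
    intro l hl hln
    by_contra hne
    rw [not_or] at hne
    have hf : Fact l.Prime := ⟨hl⟩
    have h2 : (2 : ZMod l) ≠ 0 := by exact_mod_cast cast_ne hl 2 Nat.prime_two hne.1
    have h128 : ((128 : ℤ) : ZMod l) ≠ 0 := by
      have : ((128 : ℤ) : ZMod l) = 2 ^ 7 := by norm_num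
      rw [this]
      exact pow_ne_zero 7 h2
    by_cases hlT : l ∈ T
    · obtain ⟨D', hD', hD0⟩ := inert_dec hP hT hlT
      have h3 := h l hf
      rw [hD'] at h3
      exact cnd_inert h128 (hD0 hf) (fun ρ hρ => (hT l hlT).no_one ρ (by exact_mod_cast hρ)) hn h3 hln
    · refine cnd_good ?_ hn (h l hf) hln
      rw [Int.cast_mul, Int.cast_pow]
      exact mul_ne_zero h128 (pow_ne_zero 2 (good_ndvd hP hT hl hlT hne.2))
  obtain ⟨e, he, he2⟩ := split_n (fun p hp => (hP p hp).1) hn Nat.prime_two hlp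
  set I := P.filter (fun p : ℕ => (p : ℤ) ∣ n) with hI
  have hIpos : 0 < ∏ i ∈ I, (i : ℤ) := prod_pos fun i hi => by
    exact_mod_cast (hP i (mem_filter.1 hi).1).1.pos
  have hepos : 0 < e := by
    rw [he] at hpos
    by_contra hc
    nlinarith
  have he12 : e = 1 ∨ e = 2 := by
    rcases he2 with h1 | h1 <;> [left; right] <;> omega
  refine ⟨I, filter_subset _ _, ?_, ?_⟩
  · refine sel_gen hP (disj_PT hP hT) (filter_subset _ _) he ?_ (c := 128) (a := 13) ?_ ?_ ?_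
    · intro p hp
      have hf : Fact p.Prime := ⟨(hP p hp).1⟩
      rcases he12 with rfl | rfl
      · push_cast
        exact ⟨⟨1, by ring⟩, one_ne_zero⟩
      · push_cast
        exact ⟨(hP p hp).two, (hP p hp).two_ne⟩
    · intro p hp
      have hf : Fact p.Prime := ⟨(hP p hp).1⟩
      push_cast
      refine ⟨?_, ?_⟩
      · obtain ⟨s, hs⟩ := (hP p hp).two
        exact ⟨8 * s, by linear_combination 64 * hs⟩
      · have : (128 : ZMod p) = 2 ^ 7 := by norm_num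
        rw [this]
        exact pow_ne_zero 7 (hP p hp).two_ne
    · intro p hp ρ hρ
      have hf : Fact p.Prime := ⟨(hP p hp).1⟩
      refine root_one (hP p hp) ?_ (by exact_mod_cast hρ)
      rw [Ne, ZMod.natCast_eq_zero_iff]
      exact disj_PT hP hT p hp
    · intro p hp hf
      exact h p hf
  · rcases he12 with rfl | rfl
    · left; rw [← one_mul (∏ i ∈ I, (i : ℤ))]; exact he
    · right; exact he

/-- **the second Selmer group** -/
theorem sel_two {n : ℤ} (hn : Squarefree n) (h4 : n % 4 = 1)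
    (h : ∀ (p : ℕ) (_ : Fact p.Prime), Cnd p (-26 * (((∏ q ∈ T, q) * ∏ i ∈ P, i : ℕ) : ℤ))
      (-343 * (((∏ q ∈ T, q) * ∏ i ∈ P, i : ℕ) : ℤ) ^ 2) n) :
    ∃ I ⊆ P, Ker P (∏ q ∈ T, q) I ∧ (n = ∏ i ∈ I, (i : ℤ) ∨ n = -7 * ∏ i ∈ I, (i : ℤ)) := by
  have h343 : ∀ l : ℕ, l.Prime → l ≠ 7 → ((-343 : ℤ) : ZMod l) ≠ 0 := by
    intro l hl h7
    have hf : Fact l.Prime := ⟨hl⟩
    have h7' : (7 : ZMod l) ≠ 0 := by exact_mod_cast cast_ne hl 7 (by norm_num) h7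
    have : ((-343 : ℤ) : ZMod l) = -(7 ^ 3) := by norm_num
    rw [this]
    exact neg_ne_zero.2 (pow_ne_zero 3 h7')
  have hlp : ∀ l : ℕ, l.Prime → (l : ℤ) ∣ n → l = 7 ∨ l ∈ P := by
    intro l hl hln
    by_contra hne
    rw [not_or] at hne
    have hf : Fact l.Prime := ⟨hl⟩
    by_cases hlT : l ∈ T
    · obtain ⟨D', hD', hD0⟩ := inert_dec hP hT hlT
      have h3 := h l hf
      rw [hD'] at h3
      exact cnd_inert (h343 l hl hne.1) (hD0 hf)
        (fun ρ hρ => (hT l hlT).no_two ρ (by exact_mod_cast hρ)) hn h3 hln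
    · refine cnd_good ?_ hn (h l hf) hln
      rw [Int.cast_mul, Int.cast_pow]
      exact mul_ne_zero (h343 l hl hne.1) (pow_ne_zero 2 (good_ndvd hP hT hl hlT hne.2))
  obtain ⟨e, he, he2⟩ := split_n (fun p hp => (hP p hp).1) hn (by norm_num : Nat.Prime 7) hlp
  set I := P.filter (fun p : ℕ => (p : ℤ) ∣ n) with hI
  have hI4 : (∏ i ∈ I, (i : ℤ)) % 4 = 1 := by
    refine Finset.prod_induction _ (fun x : ℤ => x % 4 = 1) ?_ (by norm_num) ?_
    · intro a b ha hb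
      rw [Int.mul_emod, ha, hb]
      norm_num
    · intro i hi
      have := (hP i (mem_filter.1 hi).1).2.1
      omega
  have he4 : e % 4 = 1 := by
    rw [he, Int.mul_emod, hI4, mul_one, Int.emod_emod_of_dvd _ (dvd_refl 4)] at h4
    exact h4
  have he17 : e = 1 ∨ e = -7 := by
    rcases he2 with h1 | h1
    · left; omega
    · right; omega
  refine ⟨I, filter_subset _ _, ?_, ?_⟩
  · refine sel_gen hP (disj_PT hP hT) (filter_subset _ _) he ?_ (c := -343) (a := -26) ?_ ?_ ?_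
    · intro p hp
      have hf : Fact p.Prime := ⟨(hP p hp).1⟩
      rcases he17 with rfl | rfl
      · push_cast
        exact ⟨⟨1, by ring⟩, one_ne_zero⟩
      · push_cast
        exact ⟨(hP p hp).seven, neg_ne_zero.2 (hP p hp).seven_ne⟩
    · intro p hp
      have hf : Fact p.Prime := ⟨(hP p hp).1⟩
      refine ⟨?_, h343 p (hP p hp).1 ?_⟩
      · push_cast
        obtain ⟨s, hs⟩ := (hP p hp).seven
        exact ⟨7 * s, by linear_combination 49 * hs⟩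
      · rintro rfl
        have := (hP 7 hp).2.1
        omega
    · intro p hp ρ hρ
      have hf : Fact p.Prime := ⟨(hP p hp).1⟩
      refine root_two (hP p hp) ?_ ?_
      · rw [Ne, ZMod.natCast_eq_zero_iff]
        exact disj_PT hP hT p hp
      · push_cast at hρ
        linear_combination hρ
    · intro p hp hf
      exact h p hf
  · rcases he17 with rfl | rfl
    · left; rw [← one_mul (∏ i ∈ I, (i : ℤ))]; exact he
    · right; exact he

end classes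

end Pool.Agent.W2helper41.X
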