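import Mathlib
import Pool.Agent.W2helper41.X.Sel
import Pool.Agent.W2helper41.X.Rat
import Pool.Agent.Y682.ZS
import Pool.Agent.Y31.XF.Inz

/-!
# The rank and the elements of order two of the Tate-Shafarevich group
-/

set_option autoImplicit false

open NumberField IsDedekindDomain

namespace Pool.Agent.W2helper41.X

open Pool.Agent.Y682
open Pool.Agent.TH841.NF.D (rk Sha)
open Pool.Agent.Y700 (WM)

open scoped Classical

theorem val_int (v : HeightOneSpectrum (𝓞 ℚ)) (n : ℤ) : v.valuation ℚ (n : ℚ) ≤ 1 := by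
  have h : (n : ℚ) = algebraMap (𝓞 ℚ) ℚ n := (map_intCast _ n).symm
  rw [h]
  exact v.valuation_le_one _

theorem val_int_one {v : HeightOneSpectrum (𝓞 ℚ)} {p : ℕ} (hp : p.Prime)
    (hv : ((p : ℕ) : 𝓞 ℚ) ∈ v.asIdeal) {n : ℤ} (hn : ¬ (p : ℤ) ∣ n) :
    v.valuation ℚ (n : ℚ) = 1 := by
  have h : (n : ℚ) = algebraMap (𝓞 ℚ) ℚ n := (map_intCast _ n).symm
  rw [h, HeightOneSpectrum.valuation_eq_one_iff_notMem]
  exact fun hm => hn (Y500.XD.dvd_of_mem hp hv hm)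

variable {P T : Finset ℕ}

theorem prod_four (hP : ∀ p ∈ P, Spl p) (hT : ∀ q ∈ T, Ine q) :
    ((∏ q ∈ T, q) * ∏ i ∈ P, i) % 4 = 1 := by
  have h1 : (∏ q ∈ T, q) % 4 = 1 := by
    refine Finset.prod_induction _ (fun x : ℕ => x % 4 = 1) ?_ (by norm_num) ?_
    · intro a b ha hb
      rw [Nat.mul_mod, ha, hb]
    · intro q hq
      have := (hT q hq).2.1
      omega
  have h2 : (∏ q ∈ P, q) % 4 = 1 := by
    refine Finset.prod_induction _ (fun x : ℕ => x % 4 = 1) ?_ (by norm_num) ?_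
    · intro a b ha hb
      rw [Nat.mul_mod, ha, hb]
    · intro q hq
      have := (hP q hq).2.1
      omega
  rw [Nat.mul_mod, h1, h2]

/-- the class of a rational number -/
theorem cls_eq {b c : ℚˣ} {n : ℤ} {w : ℚ} (hw : w ≠ 0) (hx : (b : ℚ) = n * w ^ 2)
    (hc : (c : ℚ) = n) : (b : ℚˣ ⧸ Sq ℚ) = (c : ℚˣ ⧸ Sq ℚ) := by
  symm
  rw [quot_eq]
  refine ⟨Units.mk0 w hw, Units.ext ?_⟩
  rw [Units.val_mul, Units.val_pow_eq_pow_val, Units.val_mk0, hx, hc]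

/-- the bound -/
theorem zero_sha (hP : ∀ p ∈ P, Spl p) (hT : ∀ q ∈ T, Ine q)
    (hdet : (mat P (∏ q ∈ T, q)).det ≠ 0) :
    rk (Y682.wc (13 * (((∏ q ∈ T, q) * ∏ i ∈ P, i : ℕ) : ℚ))
      (128 * (((∏ q ∈ T, q) * ∏ i ∈ P, i : ℕ) : ℚ) ^ 2)) = 0 ∧
    ∀ y : Sha (Y682.wc (13 * (((∏ q ∈ T, q) * ∏ i ∈ P, i : ℕ) : ℚ))
      (128 * (((∏ q ∈ T, q) * ∏ i ∈ P, i : ℕ) : ℚ) ^ 2)), 2 • y = 0 → y = 0 := by
  have hmod := prod_four hP hT
  set D : ℕ := (∏ q ∈ T, q) * ∏ i ∈ P, i with hDd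
  have hD0 : D ≠ 0 := by omega
  have hDQ : (D : ℚ) ≠ 0 := by exact_mod_cast hD0
  obtain ⟨k, hk⟩ : ∃ k : ℤ, (D : ℤ) = 4 * k + 1 := ⟨(D : ℤ) / 4, by omega⟩
  have eA : (13 * (D : ℚ)) = ((13 * (D : ℤ) : ℤ) : ℚ) := by push_cast; ring
  have eB : (128 * (D : ℚ) ^ 2) = ((128 * (D : ℤ) ^ 2 : ℤ) : ℚ) := by push_cast; ring
  have hIs : IsT (Y682.wc (13 * (D : ℚ)) (128 * (D : ℚ) ^ 2)) (13 * (D : ℚ))
      (128 * (D : ℚ) ^ 2) := by
    refine wc_isT (mul_ne_zero (by norm_num) (pow_ne_zero 2 hDQ)) ?_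
    have h1 : (13 * (D : ℚ)) ^ 2 - 4 * (128 * (D : ℚ) ^ 2) = -343 * (D : ℚ) ^ 2 := by ring
    rw [h1]
    exact mul_ne_zero (by norm_num) (pow_ne_zero 2 hDQ)
  let u2 : ℚˣ := Units.mk0 2 two_ne_zero
  let u7 : ℚˣ := Units.mk0 (-7) (by norm_num)
  set U : Set (ℚˣ ⧸ Sq ℚ) := {((1 : ℚˣ) : ℚˣ ⧸ Sq ℚ), (u2 : ℚˣ ⧸ Sq ℚ)} with hU
  set V : Set (ℚˣ ⧸ Sq ℚ) := {((1 : ℚˣ) : ℚˣ ⧸ Sq ℚ), (u7 : ℚˣ ⧸ Sq ℚ)} with hV
  have hcard : ∀ a b : ℚˣ ⧸ Sq ℚ, Nat.card ({a, b} : Set (ℚˣ ⧸ Sq ℚ)) ≤ 2 := by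
    intro a b
    rw [Nat.card_coe_set_eq]
    refine (Set.ncard_insert_le a {b}).trans ?_
    rw [Set.ncard_singleton]
  have hfU : Finite U := Set.Finite.to_subtype (Set.toFinite _)
  have hfV : Finite V := Set.Finite.to_subtype (Set.toFinite _)
  have H1 : ∀ b : ℚˣ, LL1 (13 * (D : ℚ)) (128 * (D : ℚ) ^ 2) (b : ℚ) → (b : ℚˣ ⧸ Sq ℚ) ∈ U := by
    intro b hb
    obtain ⟨n, w, hn, hw, hx⟩ := exists_sqf b b.ne_zero
    have hpos : 0 < n := by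
      have h1 := pos_b1 hb.2 (algebraMap ℚ ℝ) (by
        rw [map_mul, map_pow]
        have h2 : (0 : ℝ) < algebraMap ℚ ℝ (D : ℚ) := by
          rw [map_natCast]
          exact_mod_cast Nat.pos_of_ne_zero hD0
        have h3 : (0 : ℝ) < algebraMap ℚ ℝ 128 := by rw [map_ofNat]; norm_num
        positivity) (Or.inr (by
        rw [map_mul, map_mul, map_pow, map_ofNat, map_ofNat, map_natCast]
        have h2 : (0 : ℝ) < (D : ℝ) ^ 2 := by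
          have : (0 : ℝ) < (D : ℝ) := by exact_mod_cast Nat.pos_of_ne_zero hD0
          positivity
        nlinarith))
      have h2 : (0 : ℝ) < ((b : ℚ) : ℝ) := h1
      have h3 : (0 : ℚ) < (b : ℚ) := by exact_mod_cast h2
      rw [hx] at h3
      have h4 : (0 : ℚ) < w ^ 2 := by positivity
      have h5 : (0 : ℚ) < (n : ℚ) := by
        by_contra hc
        nlinarith
      exact_mod_cast h5
    obtain ⟨I, hI, hK, hnI⟩ := sel_one hP hT hn hpos (fun p hp => by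
      obtain ⟨v, ⟨φ⟩⟩ := exists_hom p
      obtain ⟨z, m, hz, hzm, hm⟩ := hb.1 v
      refine cnd_of φ hw hx hz hzm ?_
      rw [← hDd, ← eA, ← eB]
      exact hm)
    have hI0 := ker_empty hI hdet hK
    rw [hI0, Finset.prod_empty, mul_one] at hnI
    rcases hnI with h | h
    · left
      exact cls_eq hw hx (by rw [h]; norm_num)
    · right
      exact cls_eq hw hx (by rw [h]; norm_num [u2])
  have H2 : ∀ b : ℚˣ, LL2 (13 * (D : ℚ)) (128 * (D : ℚ) ^ 2) (b : ℚ) → (b : ℚˣ ⧸ Sq ℚ) ∈ V := by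
    intro b hb
    obtain ⟨n, w, hn, hw, hx⟩ := exists_sqf b b.ne_zero
    obtain ⟨v2, hv2⟩ := Y500.XD.place 2 Nat.prime_two
    have hv2m : ((2 : ℕ) : 𝓞 ℚ) ∈ v2.asIdeal := (hv2 v2).2 rfl
    have hn4 : n % 4 = 1 := by
      have h1 : UnrC (v2.valuation ℚ) (b : ℚ) := by
        refine unr_b2 v2 (hb.1 v2) (C := ((8 * (D : ℤ) ^ 2 : ℤ) : ℚ)) (s := ((1 : ℤ) : ℚ))
          (u := ((13 * k + 3 : ℤ) : ℚ)) ?_ (val_int v2 _) (val_int v2 _) ?_ (val_int v2 _) ?_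
        · have h2 : ((D : ℕ) : ℚ) = 4 * (k : ℚ) + 1 := by exact_mod_cast hk
          rw [h2]
          push_cast
          ring
        · push_cast
          ring
        · have h2 : (13 * (D : ℚ)) ^ 2 - 4 * (128 * (D : ℚ) ^ 2) =
              ((-343 * (D : ℤ) ^ 2 : ℤ) : ℚ) := by push_cast; ring
          rw [h2]
          refine val_int_one Nat.prime_two hv2m ?_
          rw [hk]
          intro h3
          have h4 : (-343 * (4 * k + 1) ^ 2 : ℤ) = 2 * (-343 * (8 * k ^ 2 + 4 * k) - 172) + 1 := by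
            ring
          rw [h4] at h3
          omega
      obtain ⟨t, s, u, ht, e, e1, hs, hu⟩ := h1
      refine unr_int hv2m hn ⟨w * t, s, u, mul_ne_zero hw ht, ?_, ?_, hs, hu⟩
      · rw [← e, hx]; ring
      · rw [← e1, hx]
        congr 1
        ring
    obtain ⟨I, hI, hK, hnI⟩ := sel_two hP hT hn hn4 (fun p hp => by
      obtain ⟨v, ⟨φ⟩⟩ := exists_hom p
      obtain ⟨z, m, hz, hzm, hm⟩ := hb.1 v
      refine cnd_of φ hw hx hz hzm ?_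
      rw [← hDd]
      have e1 : (((-26 * (D : ℤ) : ℤ)) : ℚ) = -2 * (13 * (D : ℚ)) := by push_cast; ring
      have e2 : (((-343 * (D : ℤ) ^ 2 : ℤ)) : ℚ) = (13 * (D : ℚ)) ^ 2 - 4 * (128 * (D : ℚ) ^ 2) := by
        push_cast; ring
      rw [e1, e2]
      rcases hm with hm | hm | ⟨hm, y, hy⟩
      · exact Or.inl hm
      · right; left
        rw [hm, map_sub, map_pow, map_mul (algebraMap ℚ _) 4, map_ofNat]
      · right; right
        refine ⟨hm, y, ?_⟩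
        rw [hy, map_sub, map_pow, map_mul (algebraMap ℚ _) 4, map_mul (algebraMap ℚ _) (-2),
          map_ofNat, map_neg, map_ofNat]
        ring)
    have hI0 := ker_empty hI hdet hK
    rw [hI0, Finset.prod_empty, mul_one] at hnI
    rcases hnI with h | h
    · left
      exact cls_eq hw hx (by rw [h]; norm_num)
    · right
      exact cls_eq hw hx (by rw [h]; norm_num [u7])
  obtain ⟨hf, hc⟩ := Zc_card hIs (U := U) (V := V) (Or.inl rfl) H1 H2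
  obtain ⟨hf', hl⟩ := Zc_lower hIs
  have hUV : Nat.card U * Nat.card V ≤ 2 * 2 := Nat.mul_le_mul (hcard _ _) (hcard _ _)
  set X := Nat.card {x : Pool.Agent.TH841.NF.D.Sha (Y682.wc (13 * (D : ℚ)) (128 * (D : ℚ) ^ 2)) //
    2 • x = 0} with hX
  have hX0 : 0 < X := Nat.card_pos_iff.2 ⟨⟨⟨0, smul_zero 2⟩⟩, hf'⟩
  set r := Module.finrank ℤ (MP (Y682.wc (13 * (D : ℚ)) (128 * (D : ℚ) ^ 2))) with hr
  have hb' : 2 ^ r * X ≤ 1 := by
    have : 4 * (2 ^ r * X) ≤ 4 * 1 := by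
      calc 4 * (2 ^ r * X) = 4 * 2 ^ r * X := by ring
        _ ≤ 4 * 1 := hl.trans (hc.trans hUV)
    omega
  have h2r : 0 < 2 ^ r := by positivity
  have hX1 : X = 1 := by nlinarith
  constructor
  · change r = 0
    by_contra h0
    have : 2 ≤ 2 ^ r := by
      calc 2 = 2 ^ 1 := by norm_num
        _ ≤ 2 ^ r := Nat.pow_le_pow_right (by norm_num) (by omega)
    nlinarith
  · intro y hy
    have h4 := (Nat.card_eq_one_iff_unique.1 hX1).1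
    exact congrArg Subtype.val (h4.elim ⟨y, hy⟩ ⟨0, smul_zero 2⟩)

/-- **the curve over `ℤ`** -/
theorem inz (hP : ∀ p ∈ P, Spl p) (hT : ∀ q ∈ T, Ine q)
    (hdet : (mat P (∏ q ∈ T, q)).det ≠ 0) :
    Y682.XF.rank ℚ (WM (((∏ q ∈ T, q) * ∏ i ∈ P, i : ℕ) : ℤ)) = 0 ∧
    ∀ x : Sha (Y682.XF.base (WM (((∏ q ∈ T, q) * ∏ i ∈ P, i : ℕ) : ℤ)) ℚ), 2 • x = 0 → x = 0 := by
  obtain ⟨hr0, hsha⟩ := zero_sha hP hT hdet
  have hDmod := prod_four hP hT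
  set D : ℕ := (∏ q ∈ T, q) * ∏ i ∈ P, i with hDd
  obtain ⟨k, hk⟩ : ∃ k : ℤ, ((D : ℕ) : ℤ) = 4 * k + 1 := ⟨((D / 4 : ℕ) : ℤ), by omega⟩
  have hkq : ((D : ℕ) : ℚ) = 4 * (k : ℚ) + 1 := by exact_mod_cast hk
  rw [hkq] at hr0 hsha
  rw [Y31.XF.wm_eq hk]
  obtain ⟨⟨e1⟩, ⟨e2⟩⟩ := Pool.Agent.Y655.XT.s_shavc ℚ _ _ (Y31.XF.CV k) (Y31.XF.disc_ne k)
    (Y31.XF.cv_eq k)
  constructor
  · exact (Y31.XF.fin_eq _ _ e1).trans hr0
  · intro x hx
    have h4 := hsha (e2 x) (by rw [← map_nsmul, hx, map_zero])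
    exact (map_eq_zero_iff e2 e2.injective).1 h4

end Pool.Agent.W2helper41.X
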