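import Mathlib
import Pool.Agent.W2helper41.X.Loc2

/-!
# Squares in the `p`-adic integers and sums of characters
-/

set_option autoImplicit false

open Finset Polynomial

namespace Pool.Agent.W2helper41.X

section padic

variable {p : ℕ} [hp : Fact p.Prime]

theorem norm_eq_of_zmod {x : ℤ_[p]} (h : PadicInt.toZMod x ≠ 0) : ‖x‖ = 1 :=
  PadicInt.isUnit_iff.1 (isUnit_of h)

theorem norm_lt_of_zmod {x : ℤ_[p]} (h : PadicInt.toZMod x = 0) : ‖x‖ < 1 := by
  by_contra hx
  have h1 : IsUnit x :=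
    PadicInt.isUnit_iff.2 (le_antisymm (PadicInt.norm_le_one x) (not_lt.1 hx))
  exact (h1.map (PadicInt.toZMod (p := p))).ne_zero h

theorem zmod_of_norm_lt {x : ℤ_[p]} (h : ‖x‖ < 1) : PadicInt.toZMod x = 0 := by
  by_contra hx
  rw [norm_eq_of_zmod hx] at h
  exact lt_irrefl _ h

/-- Hensel's lemma for a quadratic polynomial -/
theorem hensel_quad {b c t : ℤ_[p]} (h : PadicInt.toZMod (t ^ 2 + b * t + c) = 0)
    (h' : PadicInt.toZMod (2 * t + b) ≠ 0) :
    ∃ z : ℤ_[p], z ^ 2 + b * z + c = 0 ∧ PadicInt.toZMod z = PadicInt.toZMod t := by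
  have e1 : ∀ x : ℤ_[p], (X ^ 2 + C b * X + C c : ℤ_[p][X]).aeval x = x ^ 2 + b * x + c := by
    intro x; simp
  have e2 : (X ^ 2 + C b * X + C c : ℤ_[p][X]).derivative.aeval t = 2 * t + b := by
    simp
    left
    norm_num
  have hn : ‖(X ^ 2 + C b * X + C c : ℤ_[p][X]).aeval t‖ <
      ‖(X ^ 2 + C b * X + C c : ℤ_[p][X]).derivative.aeval t‖ ^ 2 := by
    rw [e1, e2, norm_eq_of_zmod h', one_pow]
    exact norm_lt_of_zmod h
  obtain ⟨z, hz1, hz2, -, -⟩ := hensels_lemma hn
  rw [e1] at hz1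
  rw [e2, norm_eq_of_zmod h'] at hz2
  refine ⟨z, hz1, ?_⟩
  have h3 := zmod_of_norm_lt hz2
  rw [map_sub] at h3
  exact sub_eq_zero.1 h3

/-- a unit whose residue is a square is a square -/
theorem sqrt_unit (h2 : p ≠ 2) {u : ℤ_[p]} (h0 : PadicInt.toZMod u ≠ 0)
    (hs : IsSquare (PadicInt.toZMod u)) : ∃ z : ℤ_[p], z ^ 2 = u ∧ PadicInt.toZMod z ≠ 0 := by
  obtain ⟨r, hr⟩ := hs
  have h2' : (2 : ZMod p) ≠ 0 := by
    intro h
    have h3 : ((2 : ℕ) : ZMod p) = 0 := by exact_mod_cast h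
    rw [ZMod.natCast_eq_zero_iff] at h3
    exact h2 ((Nat.prime_dvd_prime_iff_eq hp.out Nat.prime_two).1 h3)
  have hr0 : r ≠ 0 := by
    rintro rfl
    exact h0 (by rw [hr, mul_zero])
  have hrt : PadicInt.toZMod ((r.val : ℕ) : ℤ_[p]) = r := by
    rw [map_natCast, ZMod.natCast_zmod_val]
  obtain ⟨z, hz, hz'⟩ := hensel_quad (b := 0) (c := -u) (t := ((r.val : ℕ) : ℤ_[p])) (by
    rw [zero_mul, add_zero, map_add, map_pow, hrt, map_neg, hr]; ring) (by
    rw [add_zero, map_mul, hrt, map_ofNat]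
    exact mul_ne_zero h2' hr0)
  refine ⟨z, by linear_combination hz, ?_⟩
  rw [hz', hrt]
  exact hr0

/-- integers which are squares modulo `p` -/
theorem sqrt_int (h2 : p ≠ 2) {n : ℤ} (h0 : (n : ZMod p) ≠ 0) (hs : IsSquare (n : ZMod p)) :
    ∃ z : ℤ_[p], z ^ 2 = n ∧ PadicInt.toZMod z ≠ 0 := by
  refine sqrt_unit h2 ?_ ?_
  · rwa [map_intCast]
  · rwa [map_intCast]

/-- the dyadic case -/
theorem sqrt_two {n : ℤ} (h : n % 8 = 1) : ∃ z : ℤ_[2], z ^ 2 = n ∧ z ≠ 0 := by
  obtain ⟨k, hk⟩ : ∃ k : ℤ, n = 1 + 8 * k := ⟨n / 8, by omega⟩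
  have e1 : ∀ x : ℤ_[2], (X ^ 2 - C (n : ℤ_[2]) : ℤ_[2][X]).aeval x = x ^ 2 - n := by
    intro x; simp
  have e2 : (X ^ 2 - C (n : ℤ_[2]) : ℤ_[2][X]).derivative.aeval (1 : ℤ_[2]) = 2 := by
    simp
    norm_num
  have n2 : ‖(2 : ℤ_[2])‖ = 2⁻¹ := by
    have := PadicInt.norm_p (p := 2)
    exact_mod_cast this
  have hn : ‖(X ^ 2 - C (n : ℤ_[2]) : ℤ_[2][X]).aeval (1 : ℤ_[2])‖ <
      ‖(X ^ 2 - C (n : ℤ_[2]) : ℤ_[2][X]).derivative.aeval (1 : ℤ_[2])‖ ^ 2 := by
    rw [e1, e2, n2]
    have e3 : (1 : ℤ_[2]) ^ 2 - (n : ℤ_[2]) = 2 ^ 3 * (-(k : ℤ_[2])) := by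
      rw [hk]; push_cast; ring
    rw [e3, norm_mul, norm_pow, n2]
    have h3 := PadicInt.norm_le_one (-(k : ℤ_[2]))
    nlinarith
  obtain ⟨z, hz1, -⟩ := hensels_lemma hn
  rw [e1] at hz1
  refine ⟨z, sub_eq_zero.1 hz1, ?_⟩
  rintro rfl
  have h3 : (n : ℤ_[2]) = 0 := by linear_combination -hz1
  have h4 : n = 0 := by exact_mod_cast h3
  omega

end padic

section chars

variable {F : Type} [Field F] [Fintype F] [DecidableEq F]

theorem quad_sum (hF : ringChar F ≠ 2) (e : F)
    (he : e ≠ 0) : ∑ u : F, quadraticChar F (u ^ 2 - e) = -1 := by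
  have h2 : (2 : F) ≠ 0 := Ring.two_ne_zero hF
  have h1 : ∀ u : F, quadraticChar F (u ^ 2 - e) =
      ((univ.filter (fun v : F => v ^ 2 = u ^ 2 - e)).card : ℤ) - 1 := by
    intro u
    have h := quadraticChar_card_sqrts hF (u ^ 2 - e)
    rw [eq_sub_iff_add_eq, ← h, Set.toFinset_ofPred]
  have h3 : (univ.filter (fun p : F × F => p.2 ^ 2 = p.1 ^ 2 - e)).card =
      (univ.filter (fun s : F => s ≠ 0)).card := by
    refine Finset.card_nbij' (fun p => p.1 - p.2) (fun s => ((s + e / s) / 2, (e / s - s) / 2))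
      ?_ ?_ ?_ ?_
    · intro p hp
      rw [mem_coe, mem_filter] at hp ⊢
      refine ⟨mem_univ _, fun h => he ?_⟩
      have h4 : e = (p.1 - p.2) * (p.1 + p.2) := by linear_combination hp.2
      have h' : p.1 - p.2 = 0 := h
      rw [h4, h', zero_mul]
    · intro s hs
      rw [mem_coe, mem_filter] at hs ⊢
      refine ⟨mem_univ _, ?_⟩
      have := hs.2
      field_simp
      ring
    · intro p hp
      rw [mem_coe, mem_filter] at hp
      have h4 : e = (p.1 - p.2) * (p.1 + p.2) := by linear_combination hp.2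
      have h5 : p.1 - p.2 ≠ 0 := fun h => he (by rw [h4, h, zero_mul])
      have h6 : e / (p.1 - p.2) = p.1 + p.2 := by
        rw [div_eq_iff h5, h4]; ring
      refine Prod.ext ?_ ?_
      · show (p.1 - p.2 + e / (p.1 - p.2)) / 2 = p.1
        rw [h6]; field_simp; ring
      · show (e / (p.1 - p.2) - (p.1 - p.2)) / 2 = p.2
        rw [h6]; field_simp; ring
    · intro s hs
      show (s + e / s) / 2 - (e / s - s) / 2 = s
      rw [mem_coe, mem_filter] at hs
      have := hs.2
      field_simp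
      ring
  have h4 : ∑ u : F, ((univ.filter (fun v : F => v ^ 2 = u ^ 2 - e)).card : ℤ) =
      ((univ.filter (fun p : F × F => p.2 ^ 2 = p.1 ^ 2 - e)).card : ℤ) := by
    rw [Finset.card_filter]
    push_cast
    rw [← Finset.univ_product_univ, Finset.sum_product]
    refine sum_congr rfl fun u _ => ?_
    rw [Finset.card_filter]
    push_cast
    rfl
  have h5 : ((univ.filter (fun s : F => s ≠ 0)).card : ℤ) = Fintype.card F - 1 := by
    have := Finset.card_filter_add_card_filter_not (s := (univ : Finset F)) (fun s : F => s = 0)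
    rw [Finset.filter_eq' univ (0 : F), if_pos (mem_univ _), card_singleton, card_univ] at this
    rw [← this]
    push_cast
    ring
  rw [sum_congr rfl fun u _ => h1 u, sum_sub_distrib, h4, h3, h5, sum_const, card_univ, nsmul_eq_mul]
  ring

theorem quad_sum' (hF : ringChar F ≠ 2) (b c : F)
    (he : b ^ 2 - 4 * c ≠ 0) : ∑ u : F, quadraticChar F (u ^ 2 + b * u + c) = -1 := by
  have h2 : (2 : F) ≠ 0 := Ring.two_ne_zero hF
  have h4 : (4 : F) ≠ 0 := by
    have : (4 : F) = 2 * 2 := by norm_num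
    rw [this]; exact mul_ne_zero h2 h2
  have h := quad_sum hF ((b ^ 2 - 4 * c) / 4) (div_ne_zero he h4)
  rw [← h]
  refine Fintype.sum_equiv (Equiv.addRight (b / 2)) _ _ fun u => ?_
  congr 1
  show u ^ 2 + b * u + c = (u + b / 2) ^ 2 - (b ^ 2 - 4 * c) / 4
  field_simp
  ring

/-- a value of a quadratic polynomial at a square which is not a nonzero square -/
theorem exists_val (hF : ringChar F ≠ 2) {b c : F} (hc : c ≠ 0) (hcs : IsSquare c)
    (he : b ^ 2 - 4 * c ≠ 0) :
    ∃ r : F, r ≠ 0 ∧ quadraticChar F ((r ^ 2) ^ 2 + b * r ^ 2 + c) ≠ 1 := by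
  by_contra hno
  push Not at hno
  have h2 : (2 : F) ≠ 0 := Ring.two_ne_zero hF
  have hs := quad_sum' hF b c he
  -- the sum over the squares
  have h1 : ∀ u : F, 1 + quadraticChar F u ≤
      (1 + quadraticChar F u) * quadraticChar F (u ^ 2 + b * u + c) := by
    intro u
    by_cases hu : u = 0
    · subst hu
      have h3 : quadraticChar F c = 1 := (quadraticChar_one_iff_isSquare hc).2 hcs
      have h4 : (0 : F) ^ 2 + b * 0 + c = c := by ring
      rw [h4, h3, mul_one]
    · rcases quadraticChar_dichotomy hu with h | h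
      · obtain ⟨r, hr⟩ := (quadraticChar_one_iff_isSquare hu).1 h
        have hr0 : r ≠ 0 := by
          rintro rfl
          exact hu (by rw [hr, mul_zero])
        have h3 := hno r hr0
        have h4 : r ^ 2 = u := by rw [hr]; ring
        rw [h4] at h3
        rw [h3, mul_one]
      · rw [h]; norm_num
  have h3 : ∑ u : F, (1 + quadraticChar F u) ≤
      ∑ u : F, (1 + quadraticChar F u) * quadraticChar F (u ^ 2 + b * u + c) :=
    sum_le_sum fun u _ => h1 u
  have h4 : ∑ u : F, (1 + quadraticChar F u) = Fintype.card F := by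
    rw [sum_add_distrib, quadraticChar_sum_zero hF, sum_const, card_univ, nsmul_eq_mul]
    push_cast; ring
  have h5 : ∑ u : F, (1 - quadraticChar F u) * quadraticChar F (u ^ 2 + b * u + c) ≥
      ∑ u : F, -(1 - quadraticChar F u) + 2 := by
    have h6 : ∀ u : F, -(1 - quadraticChar F u) + (if u = 0 then 2 else 0) ≤
        (1 - quadraticChar F u) * quadraticChar F (u ^ 2 + b * u + c) := by
      intro u
      by_cases hu : u = 0
      · subst hu
        have h3 : quadraticChar F c = 1 := (quadraticChar_one_iff_isSquare hc).2 hcs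
        have h4 : (0 : F) ^ 2 + b * 0 + c = c := by ring
        rw [h4, h3, mul_one, quadraticChar_zero, if_pos rfl]
        norm_num
      · rw [if_neg hu, add_zero]
        rcases quadraticChar_dichotomy hu with h | h
        · rw [h]; norm_num
        · rw [h]
          have h7 : -1 ≤ quadraticChar F (u ^ 2 + b * u + c) := by
            by_cases h8 : u ^ 2 + b * u + c = 0
            · rw [h8, quadraticChar_zero]; norm_num
            · rcases quadraticChar_dichotomy h8 with h9 | h9 <;> rw [h9] <;> norm_num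
          linarith
    have h7 := sum_le_sum fun u (_ : u ∈ (univ : Finset F)) => h6 u
    rw [sum_add_distrib, sum_ite_eq' univ (0 : F), if_pos (mem_univ _)] at h7
    exact h7
  have h6 : ∑ u : F, -(1 - quadraticChar F u) = -(Fintype.card F : ℤ) := by
    rw [sum_neg_distrib, sum_sub_distrib, quadraticChar_sum_zero hF, sum_const, card_univ,
      nsmul_eq_mul]
    push_cast; ring
  rw [h6] at h5
  rw [h4] at h3
  have h7 : ∑ u : F, (1 + quadraticChar F u) * quadraticChar F (u ^ 2 + b * u + c) +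
      ∑ u : F, (1 - quadraticChar F u) * quadraticChar F (u ^ 2 + b * u + c) =
      2 * ∑ u : F, quadraticChar F (u ^ 2 + b * u + c) := by
    rw [← sum_add_distrib, mul_sum]
    refine sum_congr rfl fun u _ => ?_
    ring
  rw [hs] at h7
  linarith

end chars

end Pool.Agent.W2helper41.X
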