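import Mathlib
import Pool.Agent.W2helper41.X.Sel
import Pool.Agent.W2helper41.X.Sqr

/-!
# Local solubility
-/

set_option autoImplicit false

open Finset

open scoped Classical

namespace Pool.Agent.W2helper41.X

theorem sq7' : ∀ r : ℕ, (r = 1 ∨ r = 2 ∨ r = 4) →
    IsSquare ((r : ℕ) : ZMod 7) ∧ ((r : ℕ) : ZMod 7) ≠ 0 := by
  rintro r (rfl | rfl | rfl)
  · decide
  · decide
  · decide

/-- the class of `n` comes from a local point -/
def Sol (p : ℕ) [Fact p.Prime] (D n : ℤ) : Prop :=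
  ∃ z m : ℚ_[p], z ≠ 0 ∧ (n : ℚ_[p]) * z ^ 2 = m ∧
    (m = 1 ∨ m = -343 * (D : ℚ_[p]) ^ 2 ∨
      (m ≠ 0 ∧ ∃ y : ℚ_[p], y ^ 2 = m * ((m - 13 * D) ^ 2 - 512 * (D : ℚ_[p]) ^ 2)))

section one

variable {p : ℕ} [hp : Fact p.Prime]

theorem coe_ne {z : ℤ_[p]} (h : z ≠ 0) : (z : ℚ_[p]) ≠ 0 := by
  intro h0
  apply h
  apply PadicInt.ext
  rw [h0]
  rfl

theorem zmod_ne {z : ℤ_[p]} (h : PadicInt.toZMod z ≠ 0) : z ≠ 0 := by
  rintro rfl
  exact h (map_zero _)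

theorem sol_sq {D n : ℤ} {w : ℤ_[p]} (hw : w ^ 2 = n) (hw0 : w ≠ 0) : Sol p D n := by
  have h0 := coe_ne hw0
  have h1 : (w : ℚ_[p]) ^ 2 = n := by exact_mod_cast congrArg (fun x : ℤ_[p] => (x : ℚ_[p])) hw
  refine ⟨(w : ℚ_[p])⁻¹, 1, inv_ne_zero h0, ?_, Or.inl rfl⟩
  rw [← h1, inv_pow]
  exact mul_inv_cancel₀ (pow_ne_zero 2 h0)

theorem sol_disc {D n : ℤ} (hD : D ≠ 0) {w : ℤ_[p]} (hw : w ^ 2 = (-343 * n : ℤ)) (hw0 : w ≠ 0) :
    Sol p D n := by
  have h0 := coe_ne hw0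
  have h1 : (w : ℚ_[p]) ^ 2 = -343 * n := by
    have := congrArg (fun x : ℤ_[p] => (x : ℚ_[p])) hw
    push_cast at this
    exact_mod_cast this
  have hn0 : (n : ℚ_[p]) ≠ 0 := by
    intro h
    rw [h, mul_zero] at h1
    exact pow_ne_zero 2 h0 h1
  have hD0 : (D : ℚ_[p]) ≠ 0 := by exact_mod_cast hD
  refine ⟨w * D / n, -343 * (D : ℚ_[p]) ^ 2, div_ne_zero (mul_ne_zero h0 hD0) hn0, ?_,
    Or.inr (Or.inl rfl)⟩
  field_simp
  linear_combination h1

/-- a prime which does not divide `n` -/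
theorem sol_good (h2 : p ≠ 2) (h7 : p ≠ 7) {D n n' : ℤ} (hD : D = n * n') (hD0 : D ≠ 0)
    (hn : (n : ZMod p) ≠ 0)
    (h : (n' : ZMod p) ≠ 0 ∨ ¬ IsSquare (-7 : ZMod p)) : Sol p D n := by
  have n2 : (2 : ZMod p) ≠ 0 := by
    exact_mod_cast cast_ne hp.out 2 Nat.prime_two h2
  have n7 : (7 : ZMod p) ≠ 0 := by
    exact_mod_cast cast_ne hp.out 7 (by norm_num) h7
  have hF : ringChar (ZMod p) ≠ 2 := by rw [ZMod.ringChar_zmod_n]; exact h2
  by_cases hs : IsSquare (n : ZMod p)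
  · obtain ⟨w, hw, hw0⟩ := sqrt_int h2 hn hs
    exact sol_sq hw (zmod_ne hw0)
  by_cases hs7 : IsSquare (-7 : ZMod p)
  · -- `-7` is a square
    have hn' := h.resolve_right (not_not.2 hs7)
    have hc0 : (-343 * (n' : ZMod p) ^ 2) ≠ 0 := by
      have : (-343 * (n' : ZMod p) ^ 2) = -(7 ^ 3 * (n' : ZMod p) ^ 2) := by ring
      rw [this]
      exact neg_ne_zero.2 (mul_ne_zero (pow_ne_zero 3 n7) (pow_ne_zero 2 hn'))
    have hcs : IsSquare (-343 * (n' : ZMod p) ^ 2) := by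
      obtain ⟨r, hr⟩ := hs7
      exact ⟨7 * r * n', by linear_combination 49 * (n' : ZMod p) ^ 2 * hr⟩
    have he : (-26 * (n' : ZMod p)) ^ 2 - 4 * (-343 * (n' : ZMod p) ^ 2) ≠ 0 := by
      have : (-26 * (n' : ZMod p)) ^ 2 - 4 * (-343 * (n' : ZMod p) ^ 2) =
          2 ^ 11 * (n' : ZMod p) ^ 2 := by ring
      rw [this]
      exact mul_ne_zero (pow_ne_zero 11 n2) (pow_ne_zero 2 hn')
    obtain ⟨r, hr0, hr⟩ := exists_val hF hc0 hcs he
    set q : ZMod p := (r ^ 2) ^ 2 + -26 * (n' : ZMod p) * r ^ 2 + -343 * (n' : ZMod p) ^ 2 with hq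
    have hrv : ((r.val : ℕ) : ZMod p) = r := ZMod.natCast_zmod_val r
    have hR0 : ((r.val : ℕ) : ℚ_[p]) ≠ 0 := by
      intro h0
      have h1 : r.val = 0 := by exact_mod_cast h0
      rw [h1, Nat.cast_zero] at hrv
      exact hr0 hrv.symm
    have hnQ : (n : ℚ_[p]) ≠ 0 := by
      intro h0
      have h1 : n = 0 := by exact_mod_cast h0
      rw [h1, Int.cast_zero] at hn
      exact hn rfl
    by_cases hq0 : q = 0
    · -- a root
      have hq0' : (r ^ 2) ^ 2 + -26 * (n' : ZMod p) * r ^ 2 + -343 * (n' : ZMod p) ^ 2 = 0 := by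
        rw [← hq]; exact hq0
      obtain ⟨ζ, hζ, hζr⟩ := hensel_quad (p := p) (b := ((-26 * n' : ℤ) : ℤ_[p]))
        (c := ((-343 * n' ^ 2 : ℤ) : ℤ_[p])) (t := ((r.val ^ 2 : ℕ) : ℤ_[p])) (by
          rw [map_add, map_add, map_mul, map_pow, map_intCast, map_intCast, map_natCast]
          push_cast
          rw [hrv]
          exact hq0) (by
          rw [map_add, map_mul, map_natCast, map_intCast, map_ofNat]
          push_cast
          rw [hrv]
          intro h0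
          apply he
          linear_combination (2 * r ^ 2 + -26 * (n' : ZMod p)) * h0 - 4 * hq0')
      have hζ0 : PadicInt.toZMod ζ = r ^ 2 := by
        rw [hζr, map_natCast]
        push_cast
        rw [hrv]
      obtain ⟨w, hw, hw0⟩ := sqrt_unit h2 (u := ζ) (by rw [hζ0]; exact pow_ne_zero 2 hr0)
        ⟨r, by rw [hζ0]; ring⟩
      have hwQ := coe_ne (zmod_ne hw0)
      have h3 : ((w : ℚ_[p]) ^ 2) ^ 2 + -26 * n' * (w : ℚ_[p]) ^ 2 + -343 * (n' : ℚ_[p]) ^ 2 = 0 := by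
        have h4 := congrArg (fun x : ℤ_[p] => (x : ℚ_[p])) hζ
        rw [← hw] at h4
        push_cast at h4
        exact_mod_cast h4
      refine ⟨w, n * (w : ℚ_[p]) ^ 2, hwQ, rfl, Or.inr (Or.inr
        ⟨mul_ne_zero hnQ (pow_ne_zero 2 hwQ), 0, ?_⟩)⟩
      rw [hD]
      push_cast
      linear_combination (-(n : ℚ_[p]) ^ 3 * (w : ℚ_[p]) ^ 2) * h3
    · -- a point with nonzero ordinate
      have hχ : quadraticChar (ZMod p) q = -1 := (quadraticChar_dichotomy hq0).resolve_left hr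
      have hχn : quadraticChar (ZMod p) (n : ZMod p) = -1 := by
        rcases quadraticChar_dichotomy hn with h3 | h3
        · exact absurd ((quadraticChar_one_iff_isSquare hn).1 h3) hs
        · exact h3
      have hsq : IsSquare ((n : ZMod p) * q) := by
        rw [← quadraticChar_one_iff_isSquare (mul_ne_zero hn hq0), map_mul, hχ, hχn]
        norm_num
      have hcast : (((n * ((r.val : ℤ) ^ 4 - 26 * n' * (r.val : ℤ) ^ 2 - 343 * n' ^ 2) : ℤ)) :
          ZMod p) = (n : ZMod p) * q := by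
        push_cast
        rw [hrv, hq]
        ring
      obtain ⟨w, hw, -⟩ := sqrt_int (p := p) h2
        (n := n * ((r.val : ℤ) ^ 4 - 26 * n' * (r.val : ℤ) ^ 2 - 343 * n' ^ 2))
        (by rw [hcast]; exact mul_ne_zero hn hq0) (by rw [hcast]; exact hsq)
      have hwQ : (w : ℚ_[p]) ^ 2 = n * (((r.val : ℕ) : ℚ_[p]) ^ 4 -
          26 * n' * ((r.val : ℕ) : ℚ_[p]) ^ 2 - 343 * (n' : ℚ_[p]) ^ 2) := by
        have h4 := congrArg (fun x : ℤ_[p] => (x : ℚ_[p])) hw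
        simp only [PadicInt.coe_pow, PadicInt.coe_intCast] at h4
        rw [h4]
        push_cast
        ring
      refine ⟨((r.val : ℕ) : ℚ_[p]), n * ((r.val : ℕ) : ℚ_[p]) ^ 2, hR0, rfl, Or.inr (Or.inr
        ⟨mul_ne_zero hnQ (pow_ne_zero 2 hR0), n * ((r.val : ℕ) : ℚ_[p]) * w, ?_⟩)⟩
      rw [hD]
      push_cast
      linear_combination ((n : ℚ_[p]) ^ 2 * ((r.val : ℕ) : ℚ_[p]) ^ 2) * hwQ
  · -- `-7` is not a square
    have h343 : ((-343 * n : ℤ) : ZMod p) = 7 ^ 2 * ((-7) * (n : ZMod p)) := by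
      push_cast; ring
    have n7' : (-7 : ZMod p) ≠ 0 := neg_ne_zero.2 n7
    have hsq : IsSquare ((-343 * n : ℤ) : ZMod p) := by
      have h3 : IsSquare ((-7 : ZMod p) * (n : ZMod p)) := by
        rw [← quadraticChar_one_iff_isSquare (mul_ne_zero n7' hn), map_mul]
        have h4 : quadraticChar (ZMod p) (-7) = -1 := by
          rcases quadraticChar_dichotomy n7' with h3 | h3
          · exact absurd ((quadraticChar_one_iff_isSquare n7').1 h3) hs7
          · exact h3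
        have h5 : quadraticChar (ZMod p) (n : ZMod p) = -1 := by
          rcases quadraticChar_dichotomy hn with h3 | h3
          · exact absurd ((quadraticChar_one_iff_isSquare hn).1 h3) hs
          · exact h3
        rw [h4, h5]; norm_num
      rw [h343]
      obtain ⟨r, hr⟩ := h3
      exact ⟨7 * r, by rw [hr]; ring⟩
    obtain ⟨w, hw, hw0⟩ := sqrt_int (p := p) h2 (n := -343 * n) (by
      rw [h343]
      exact mul_ne_zero (pow_ne_zero 2 n7) (mul_ne_zero n7' hn)) hsq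
    exact sol_disc hD0 hw (zmod_ne hw0)

/-- a split prime which divides `n` -/
theorem sol_ram (h : Spl p) {D n n' : ℤ} (hD : D = n * n') (hn : n ≠ 0)
    (hn' : (n' : ZMod p) ≠ 0)
    (hs : ∀ σ : ZMod p, σ ^ 2 - 26 * σ - 343 = 0 → IsSquare ((n' : ZMod p) * σ)) : Sol p D n := by
  have h2 : p ≠ 2 := by
    rintro rfl
    have := h.2.1
    omega
  obtain ⟨w, hw, -⟩ := sqrt_int (p := p) h2 (n := 2) (by exact_mod_cast h.two_ne)
    (by exact_mod_cast h.two)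
  have hw' : w ^ 2 = 2 := by rw [hw]; norm_num
  set ρ : ℤ_[p] := 13 + 16 * w with hρ
  have hρ2 : ρ ^ 2 - 26 * ρ - 343 = 0 := by
    rw [hρ]; linear_combination 256 * hw'
  set σ := PadicInt.toZMod ρ with hσ
  have hσ2 : σ ^ 2 - 26 * σ - 343 = 0 := by
    have := congrArg (PadicInt.toZMod (p := p)) hρ2
    rw [map_sub, map_sub, map_mul, map_pow, map_ofNat, map_ofNat, map_zero] at this
    exact this
  have hσ0 : σ ≠ 0 := by
    intro h0
    rw [h0] at hσ2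
    have h3 : (7 : ZMod p) ^ 3 = 0 := by linear_combination -hσ2
    exact pow_ne_zero 3 h.seven_ne h3
  obtain ⟨z, hz, hz0⟩ := sqrt_unit h2 (u := (n' : ℤ_[p]) * ρ) (by
    rw [map_mul, map_intCast]
    exact mul_ne_zero hn' hσ0) (by
    rw [map_mul, map_intCast]
    exact hs σ hσ2)
  have hzQ := coe_ne (zmod_ne hz0)
  have hz2 : (z : ℚ_[p]) ^ 2 = n' * (ρ : ℚ_[p]) := by
    have h4 := congrArg (fun x : ℤ_[p] => (x : ℚ_[p])) hz
    push_cast at h4
    exact_mod_cast h4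
  have hρQ : (ρ : ℚ_[p]) ^ 2 - 26 * (ρ : ℚ_[p]) - 343 = 0 := by
    have h4 := congrArg (fun x : ℤ_[p] => (x : ℚ_[p])) hρ2
    push_cast at h4
    exact_mod_cast h4
  have hnQ : (n : ℚ_[p]) ≠ 0 := by exact_mod_cast hn
  refine ⟨z, n * (z : ℚ_[p]) ^ 2, hzQ, rfl, Or.inr (Or.inr
    ⟨mul_ne_zero hnQ (pow_ne_zero 2 hzQ), 0, ?_⟩)⟩
  rw [hD, hz2]
  push_cast
  linear_combination (-(n : ℚ_[p]) ^ 3 * (n' : ℚ_[p]) ^ 3 * (ρ : ℚ_[p])) * hρQ

end one

variable {P T : Finset ℕ}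

/-- **local solubility** -/
theorem sol_all (hP : ∀ p ∈ P, Spl p) (hT : ∀ q ∈ T, Ine q) {I : Finset ℕ} (hI : I ⊆ P)
    (hK : Ker P (∏ q ∈ T, q) I) (p : ℕ) [hp : Fact p.Prime] :
    Sol p (((∏ q ∈ T, q) * ∏ i ∈ P, i : ℕ) : ℤ) ((∏ i ∈ I, i : ℕ) : ℤ) := by
  obtain ⟨n, hn⟩ : ∃ n : ℤ, n = ((∏ i ∈ I, i : ℕ) : ℤ) := ⟨_, rfl⟩
  obtain ⟨n', hn'⟩ : ∃ n' : ℤ, n' = (((∏ q ∈ T, q) * ∏ i ∈ P \ I, i : ℕ) : ℤ) := ⟨_, rfl⟩
  obtain ⟨D, hDd⟩ : ∃ D : ℤ, D = (((∏ q ∈ T, q) * ∏ i ∈ P, i : ℕ) : ℤ) := ⟨_, rfl⟩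
  rw [← hn, ← hDd]
  have hPp : ∀ i ∈ P, i.Prime := fun i hi => (hP i hi).1
  have hD : D = n * n' := by
    rw [hDd, hn, hn', ← prod_sdiff hI]
    push_cast
    ring
  have hIp : 0 < ∏ i ∈ I, i := prod_pos fun i hi => (hPp i (hI hi)).pos
  have hTp : 0 < ∏ q ∈ T, q := prod_pos fun i hi => (hT i hi).1.pos
  have hSp : 0 < ∏ i ∈ P \ I, i := prod_pos fun i hi => (hPp i (mem_sdiff.1 hi).1).pos
  have hn0 : n ≠ 0 := by rw [hn]; exact_mod_cast hIp.ne'
  have hn0' : n' ≠ 0 := by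
    rw [hn']
    exact_mod_cast (Nat.mul_pos hTp hSp).ne'
  have hD0 : D ≠ 0 := by rw [hD]; exact mul_ne_zero hn0 hn0'
  have hcast : ∀ U ⊆ P, p ∉ U → ∀ i ∈ U, ((i : ℕ) : ZMod p) ≠ 0 := by
    intro U hU hjU i hi
    refine cast_ne hp.out i (hPp i (hU hi)) ?_
    rintro rfl
    exact hjU hi
  have hnz : (n : ZMod p) = ∏ i ∈ I, ((i : ℕ) : ZMod p) := by
    rw [hn]; push_cast; rfl
  by_cases h2 : p = 2
  · subst h2
    have h8 : n % 8 = 1 := by
      rw [hn]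
      have h8' : (∏ i ∈ I, i) % 8 = 1 := by
        refine Finset.prod_induction _ (fun x : ℕ => x % 8 = 1) ?_ (by norm_num) ?_
        · intro a b ha hb
          rw [Nat.mul_mod, ha, hb]
        · intro q hq
          exact (hP q (hI hq)).2.1
      omega
    obtain ⟨w, hw, hw0⟩ := sqrt_two h8
    exact sol_sq hw hw0
  by_cases h7 : p = 7
  · subst h7
    have h7' : ∀ i ∈ I, IsSquare ((i : ℕ) : ZMod 7) ∧ ((i : ℕ) : ZMod 7) ≠ 0 := by
      intro i hi
      have h3 := (hP i (hI hi)).2.2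
      have h4 : ((i : ℕ) : ZMod 7) = ((i % 7 : ℕ) : ZMod 7) := by rw [ZMod.natCast_mod]
      rw [h4]
      exact sq7' _ h3
    obtain ⟨w, hw, hw0⟩ := sqrt_int (p := 7) (by norm_num) (n := n) (by
      rw [hnz]
      exact prod_ne_zero_iff.2 fun i hi => (h7' i hi).2) (by
      rw [hnz]
      refine Finset.prod_induction _ (fun x : ZMod 7 => IsSquare x) ?_ ⟨1, by ring⟩ ?_
      · intro a b ha hb; exact ha.mul hb
      · intro i hi; exact (h7' i hi).1)
    exact sol_sq hw (zmod_ne hw0)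
  by_cases hpI : p ∈ I
  · -- ramified
    have hpP := hI hpI
    have hspl := hP p hpP
    have hm : (((∏ q ∈ T, q : ℕ)) : ZMod p) ≠ 0 := by
      rw [Ne, ZMod.natCast_eq_zero_iff]
      exact disj_PT hP hT p hpP
    have hnot : p ∉ P \ I := fun h => (mem_sdiff.1 h).2 hpI
    have hS0 := hcast (P \ I) sdiff_subset hnot
    have hn'z : (n' : ZMod p) = ((∏ q ∈ T, q : ℕ) : ZMod p) * ∏ i ∈ P \ I, ((i : ℕ) : ZMod p) := by
      rw [hn']; push_cast; rfl
    have hn'0 : (n' : ZMod p) ≠ 0 := by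
      rw [hn'z]
      exact mul_ne_zero hm (prod_ne_zero_iff.2 hS0)
    refine sol_ram hspl hD hn0 hn'0 fun σ hσ => ?_
    obtain ⟨hσ0, hr⟩ := root_two hspl hm hσ
    have hk := (hK p hpP).2 hpI
    have e1 : (n' : ZMod p) * σ = (((∏ q ∈ T, q : ℕ) : ZMod p) * σ) *
        ∏ i ∈ P \ I, ((i : ℕ) : ZMod p) := by rw [hn'z]; ring
    rw [e1, ← ns_eq_zero, ns_mul (mul_ne_zero hm hσ0) (prod_ne_zero_iff.2 hS0), hr,
      ns_prod _ _ hS0]
    have e2 : P.erase p = (P \ I) ∪ I.erase p := by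
      ext i
      simp only [mem_erase, mem_union, mem_sdiff]
      constructor
      · rintro ⟨h3, h4⟩
        by_cases h5 : i ∈ I
        · exact Or.inr ⟨h3, h5⟩
        · exact Or.inl ⟨h4, h5⟩
      · rintro (⟨h3, h4⟩ | ⟨h3, h4⟩)
        · exact ⟨fun h5 => h4 (h5 ▸ hpI), h3⟩
        · exact ⟨h3, hI h4⟩
    have e3 : Disjoint (P \ I) (I.erase p) := by
      rw [Finset.disjoint_left]
      intro i hi h3
      exact (mem_sdiff.1 hi).2 (mem_of_mem_erase h3)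
    rw [e2, sum_union e3] at hk
    have key : ∀ a b c : ZMod 2, a + (b + c) + c = 0 → a + b = 0 := by decide
    exact key _ _ _ hk
  · have hI0 := hcast I hI hpI
    have hnp : (n : ZMod p) ≠ 0 := by
      rw [hnz]
      exact prod_ne_zero_iff.2 hI0
    by_cases hpP : p ∈ P
    · -- `n` is a square
      have hk := (hK p hpP).1 hpI
      rw [← ns_prod _ _ hI0, ns_eq_zero, ← hnz] at hk
      obtain ⟨w, hw, hw0⟩ := sqrt_int h2 hnp hk
      exact sol_sq hw (zmod_ne hw0)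
    · refine sol_good h2 h7 hD hD0 hnp ?_
      by_cases hpT : p ∈ T
      · right
        have h3 := hT p hpT
        have h8 := h3.2.1
        rw [sq_seven p (by omega) h7]
        have := h3.2.2
        omega
      · left
        have h3 := good_ndvd hP hT hp.out hpT hpP
        rw [← hDd, hD, Int.cast_mul] at h3
        exact right_ne_zero_of_mul h3

end Pool.Agent.W2helper41.X
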