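import Mathlib
import Pool.Agent.Y682.ZS

/-!
# The cocycle of a class of the second kind
-/

set_option autoImplicit false
set_option linter.unusedSectionVars false

attribute [-instance] DivisionRing.toRatAlgebra

open NumberField IsDedekindDomain

namespace Pool.Agent.W2helper41.X

open WeierstrassCurve Pool.Agent.Y682

open Pool.Agent.TH841.SH (IsR IsX gf isX_zero isX_some not_isX)

open Pool.Agent.TH841.SH.D (Pt act Gal Coch IsCoc IsCob LocTriv cob)

section alg

variable {k : Type} [Field k] [CharZero k] {W : WeierstrassCurve k} {A B : k}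

omit [CharZero k] in
lemma nons0 (hT : IsT W A B) : W.toAffine.Nonsingular 0 0 := by
  rw [Affine.nonsingular_iff]
  refine ⟨?_, Or.inl ?_⟩
  · rw [Affine.equation_iff]
    change (0 : k) ^ 2 + W.a₁ * 0 * 0 + W.a₃ * 0 = 0 ^ 3 + W.a₂ * 0 ^ 2 + W.a₄ * 0 + W.a₆
    rw [hT.h6]; ring
  · change W.a₁ * 0 ≠ 3 * 0 ^ 2 + 2 * W.a₂ * 0 + W.a₄
    rw [hT.h4, mul_zero, mul_zero]
    intro h
    exact hT.hB (by linear_combination -h)

/-- the point of order two with abscissa zero -/
noncomputable def T0 (hT : IsT W A B) (L : Type) [Field L] [Algebra k L] : Pt W L :=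
  sm 0 0 (nons0 (hT.base (L := L)))

omit [CharZero k] in
lemma sm_ext {L : Type} [Field L] [Algebra k L] {u v u' v' : L}
    {h : (W.baseChange L).toAffine.Nonsingular u v}
    {h' : (W.baseChange L).toAffine.Nonsingular u' v'} (e : u = u') (e' : v = v') :
    (sm u v h : Pt W L) = sm u' v' h' := by
  subst e
  subst e'
  rfl

lemma act_T0 (hT : IsT W A B) {L L' : Type} [Field L] [Algebra k L] [Field L'] [Algebra k L']
    (φ : L →ₐ[k] L') : act W φ (T0 hT L) = T0 hT L' := by
  unfold T0
  rw [act_sm]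
  exact sm_ext (map_zero φ) (map_zero φ)

lemma T0_ne (hT : IsT W A B) (L : Type) [Field L] [Algebra k L] : T0 hT L ≠ 0 := sm_ne_zero _

lemma T0_two (hT : IsT W A B) (F : Type) [Field F] [CharZero F] [Algebra k F] :
    T0 hT (AlgebraicClosure F) + T0 hT (AlgebraicClosure F) = 0 := by
  obtain ⟨r, s, hR, hrs1, hrs2, hr0, hs0, hrs⟩ := (hT.base (L := AlgebraicClosure F)).roots
  exact (@IsR.add_self _ _ _ _ _ _ (Classical.decEq _) hR two_ne_zero _ _ _).2 rfl

open Classical in
/-- the cocycle -/
noncomputable def fs (hT : IsT W A B) (s : AlgebraicClosure k) : Coch W := fun σ =>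
  if σ s = s then 0 else T0 hT (AlgebraicClosure k)

lemma fs_pos (hT : IsT W A B) {s : AlgebraicClosure k} {σ : Gal k} (h : σ s = s) :
    fs hT s σ = 0 := by
  unfold fs
  rw [if_pos h]

lemma fs_neg (hT : IsT W A B) {s : AlgebraicClosure k} {σ : Gal k} (h : σ s ≠ s) :
    fs hT s σ = T0 hT (AlgebraicClosure k) := by
  unfold fs
  rw [if_neg h]

lemma sgn {n : k} {s : AlgebraicClosure k} (hs : s ^ 2 = algebraMap k _ n) (σ : Gal k) :
    σ s = s ∨ σ s = -s := by
  have h1 : (σ s) ^ 2 = s ^ 2 := by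
    rw [← map_pow, hs, AlgEquiv.commutes]
  exact sq_eq_sq_iff_eq_or_eq_neg.1 h1

lemma neg_ne {n : k} (hn : n ≠ 0) {s : AlgebraicClosure k} (hs : s ^ 2 = algebraMap k _ n) :
    -s ≠ s := by
  intro h
  have h2 : (2 : AlgebraicClosure k) * s = 0 := by linear_combination -h
  have h3 := (mul_eq_zero.1 h2).resolve_left two_ne_zero
  rw [h3, zero_pow two_ne_zero, eq_comm, map_eq_zero] at hs
  exact hn hs

lemma fs_coc (hT : IsT W A B) {n : k} (hn : n ≠ 0) {s : AlgebraicClosure k}
    (hs : s ^ 2 = algebraMap k _ n) : IsCoc W (fs hT s) := by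
  have hne := neg_ne hn hs
  refine Pool.Agent.TH841.NF.coc_of_fin (fun σ τ => ?_) {s} (fun τ hτ => ?_)
  · have hm : (σ * τ) s = σ (τ s) := rfl
    rcases sgn hs σ with h1 | h1 <;> rcases sgn hs τ with h2 | h2
    · have g1 := fs_pos hT h1
      have g2 := fs_pos hT h2
      have g3 : fs hT s (σ * τ) = 0 := fs_pos hT (by rw [hm, h2, h1])
      rw [g1, g2, g3, map_zero, add_zero]
    · have g1 := fs_pos hT h1
      have g2 : fs hT s τ = _ := fs_neg hT (by rw [h2]; exact hne)
      have g3 : fs hT s (σ * τ) = _ := fs_neg hT (by rw [hm, h2, map_neg, h1]; exact hne)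
      rw [g1, g2, g3, act_T0, zero_add]
    · have g1 : fs hT s σ = _ := fs_neg hT (by rw [h1]; exact hne)
      have g2 := fs_pos hT h2
      have g3 : fs hT s (σ * τ) = _ := fs_neg hT (by rw [hm, h2, h1]; exact hne)
      rw [g1, g2, g3, map_zero, add_zero]
    · have g1 : fs hT s σ = _ := fs_neg hT (by rw [h1]; exact hne)
      have g2 : fs hT s τ = _ := fs_neg hT (by rw [h2]; exact hne)
      have g3 : fs hT s (σ * τ) = 0 := fs_pos hT (by rw [hm, h2, map_neg, h1, neg_neg])
      rw [g1, g2, g3, act_T0, T0_two]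
  · exact fs_pos hT (hτ s (by simp))

lemma fs_two (hT : IsT W A B) (s : AlgebraicClosure k) (σ : Gal k) :
    fs hT s σ + fs hT s σ = 0 := by
  by_cases h : σ s = s
  · rw [fs_pos hT h, add_zero]
  · rw [fs_neg hT h, T0_two]

/-- local triviality -/
lemma loc_triv (hT : IsT W A B) {n : k} (hn : n ≠ 0) {s : AlgebraicClosure k}
    (hs : s ^ 2 = algebraMap k _ n) {F : Type} [Field F] [CharZero F] [Algebra k F]
    (h : ∃ z m : F, z ≠ 0 ∧ algebraMap k F n * z ^ 2 = m ∧
      S2 (algebraMap k F A) (algebraMap k F B) m) : LocTriv W F (fs hT s) := by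
  intro ι
  obtain ⟨z, m, hz, hzm, hm⟩ := h
  have hne := neg_ne hn hs
  have hT' := hT.base (L := AlgebraicClosure F)
  obtain ⟨r0, s0, hR0, hrs10, hrs20, hr00, hs00, hrs0'⟩ := hT'.roots
  have hz0 : algebraMap F (AlgebraicClosure F) z ≠ 0 := (map_ne_zero _).2 hz
  set w : AlgebraicClosure F := ι s * algebraMap F _ z with hw
  have hw2 : w ^ 2 = algebraMap F _ m := by
    rw [hw, mul_pow, ← map_pow, hs, AlgHom.commutes, ← hzm, map_mul, map_pow,
      IsScalarTower.algebraMap_apply k F (AlgebraicClosure F)]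
  have hm0 : m ≠ 0 := by
    rw [← hzm]
    exact mul_ne_zero ((map_ne_zero _).2 hn) (pow_ne_zero 2 hz)
  have hw0 : w ≠ 0 := by
    intro h0
    rw [h0, zero_pow two_ne_zero, eq_comm, map_eq_zero] at hw2
    exact hm0 hw2
  have hAτ : ∀ τ : Gal F, τ (algebraMap k (AlgebraicClosure F) A) =
      algebraMap k (AlgebraicClosure F) A := fun τ => (τ.toAlgHom.restrictScalars k).commutes A
  have hBτ : ∀ τ : Gal F, τ (algebraMap k (AlgebraicClosure F) B) =
      algebraMap k (AlgebraicClosure F) B := fun τ => (τ.toAlgHom.restrictScalars k).commutes B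
  have eA : algebraMap F (AlgebraicClosure F) (algebraMap k F A) =
      algebraMap k (AlgebraicClosure F) A :=
    (IsScalarTower.algebraMap_apply k F (AlgebraicClosure F) A).symm
  have eB : algebraMap F (AlgebraicClosure F) (algebraMap k F B) =
      algebraMap k (AlgebraicClosure F) B :=
    (IsScalarTower.algebraMap_apply k F (AlgebraicClosure F) B).symm
  have hB0 : algebraMap k (AlgebraicClosure F) B ≠ 0 := hT'.hB
  -- the action on `w`
  have hτw : ∀ (τ : Gal F) (σ : Gal k), (∀ x, τ (ι x) = ι (σ x)) →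
      (σ s = s → τ w = w) ∧ (σ s ≠ s → τ w = -w) := by
    intro τ σ h
    constructor
    · intro h1
      rw [hw, map_mul, AlgEquiv.commutes, h, h1]
    · intro h1
      have h2 : σ s = -s := (sgn hs σ).resolve_left h1
      rw [hw, map_mul, AlgEquiv.commutes, h, h2, map_neg, neg_mul]
  -- it is enough to find a point
  suffices hQ : ∃ Q : Pt W (AlgebraicClosure F), ∀ τ : Gal F,
      (τ w = w → aT W τ Q = Q) ∧ (τ w = -w → aT W τ Q = Q + T0 hT (AlgebraicClosure F)) by
    obtain ⟨Q, hQ⟩ := hQ
    refine ⟨Q, fun τ σ h => ?_⟩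
    obtain ⟨h1, h2⟩ := hτw τ σ h
    by_cases h3 : σ s = s
    · rw [fs_pos hT h3, map_zero]
      have h4 := (hQ τ).1 (h1 h3)
      exact (sub_eq_zero.2 h4).symm
    · rw [fs_neg hT h3, act_T0]
      have h4 := (hQ τ).2 (h2 h3)
      refine (sub_eq_iff_eq_add.2 ?_).symm
      rw [add_comm]
      exact h4
  have hww : ∀ τ : Gal F, τ w = w → τ w = -w → False := by
    intro τ h1 h2
    rw [h1] at h2
    have h3 : (2 : AlgebraicClosure F) * w = 0 := by linear_combination h2
    exact (mul_ne_zero two_ne_zero hw0) h3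
  rcases hm with hm | hm | ⟨-, y, hy⟩
  · -- the trivial class
    refine ⟨0, fun τ => ⟨fun _ => map_zero _, fun h => ?_⟩⟩
    exfalso
    rw [hm, map_one] at hw2
    have h1 : (w - 1) * (w + 1) = 0 := by linear_combination hw2
    refine hww τ ?_ h
    rcases mul_eq_zero.1 h1 with h2 | h2
    · rw [sub_eq_zero.1 h2, map_one]
    · rw [eq_neg_of_add_eq_zero_left h2, map_neg, map_one]
  · -- the class of the discriminant
    have hw2' : w ^ 2 = algebraMap k (AlgebraicClosure F) A ^ 2 -
        4 * algebraMap k (AlgebraicClosure F) B := by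
      rw [hw2, hm, map_sub, map_pow, map_mul, map_ofNat, eA, eB]
    set r := (-algebraMap k (AlgebraicClosure F) A + w) / 2 with hr
    set r' := (-algebraMap k (AlgebraicClosure F) A - w) / 2 with hr'
    have e1 : r + r' = -algebraMap k (AlgebraicClosure F) A := by rw [hr, hr']; ring
    have e2 : r * r' = algebraMap k (AlgebraicClosure F) B := by
      rw [hr, hr']
      linear_combination (-1 / 4 : AlgebraicClosure F) * hw2'
    have hr0 : r ≠ 0 := by
      intro h0
      rw [h0, zero_mul] at e2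
      exact hB0 e2.symm
    have hr0' : r' ≠ 0 := by
      intro h0
      rw [h0, mul_zero] at e2
      exact hB0 e2.symm
    have hrr : r ≠ r' := by
      intro h0
      have h3 : w = r - r' := by rw [hr, hr']; ring
      exact hw0 (by rw [h3, h0, sub_self])
    have hR : IsR (W.baseChange (AlgebraicClosure F)) 0 r r' :=
      ⟨hT'.h1, by rw [hT'.h2]; linear_combination -e1, hT'.h3,
        by rw [hT'.h4]; linear_combination -e2, by rw [hT'.h6]; ring⟩
    have hn1 := hR.nons two_ne_zero hr0.symm hr0'.symm hrr (x := r) (y := 0) (by ring)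
    have hsum : ∃ hc : (W.baseChange (AlgebraicClosure F)).toAffine.Nonsingular r' 0,
        T0 hT (AlgebraicClosure F) + sm r 0 hn1 = sm r' 0 hc :=
      @IsR.add_two _ _ _ _ _ _ (Classical.decEq _) hR hr0.symm _ hn1
    obtain ⟨hc, hsum⟩ := hsum
    refine ⟨sm r 0 hn1, fun τ => ⟨fun h => ?_, fun h => ?_⟩⟩
    · unfold aT
      rw [act_sm]
      refine sm_ext ?_ (map_zero _)
      change τ r = r
      rw [hr, map_div₀, map_add, map_neg, hAτ, h, map_ofNat]
    · rw [add_comm, hsum]
      unfold aT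
      rw [act_sm]
      refine sm_ext ?_ (map_zero _)
      change τ r = r'
      rw [hr, map_div₀, map_add, map_neg, hAτ, h, map_ofNat, hr']
      ring
  · -- a point
    set a := algebraMap k (AlgebraicClosure F) A with ha
    set b := algebraMap k (AlgebraicClosure F) B with hb
    set μ := algebraMap F (AlgebraicClosure F) m with hμ
    set η := algebraMap F (AlgebraicClosure F) y with hη
    have hy' : η ^ 2 = μ * ((μ - a) ^ 2 - 4 * b) := by
      rw [hη, ← map_pow, hy, map_mul, map_sub, map_pow, map_sub, map_mul, map_ofNat, eA, eB]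
    have hμ0 : μ ≠ 0 := (map_ne_zero _).2 hm0
    set x := (μ - a + η / w) / 2 with hx
    set x' := (μ - a - η / w) / 2 with hx'
    have hηw : (η / w) ^ 2 = (μ - a) ^ 2 - 4 * b := by
      rw [div_pow, hw2, hy', mul_div_cancel_left₀ _ hμ0]
    have e1 : x * x' = b := by
      rw [hx, hx']
      linear_combination (-1 / 4 : AlgebraicClosure F) * hηw
    have e2 : x + x' = μ - a := by rw [hx, hx']; ring
    have hx0 : x ≠ 0 := by
      intro h0
      rw [h0, zero_mul] at e1
      exact hB0 e1.symm
    have hquad : x ^ 2 + a * x + b = μ * x := by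
      linear_combination -e1 + x * e2
    have heq : (x * w) ^ 2 = (x - 0) * (x - r0) * (x - s0) := by
      have h3 : (x - 0) * (x - r0) * (x - s0) = x * (x ^ 2 - (r0 + s0) * x + r0 * s0) := by ring
      rw [h3, hrs10, hrs20, mul_pow, hw2]
      linear_combination (-x) * hquad
    have hn1 := hR0.nons two_ne_zero hr00.symm hs00.symm hrs0' heq
    obtain ⟨X, Y, hn', hadd, -, -, -, hX, hY⟩ := @IsR.trans _ _ _ _ _ _ (Classical.decEq _) hR0
      _ _ hn1 (mul_ne_zero hx0 hw0) (nons0 hT')
    have hadd' : (sm x (x * w) hn1 : Pt W (AlgebraicClosure F)) + T0 hT (AlgebraicClosure F) =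
        sm X Y hn' := hadd
    refine ⟨sm x (x * w) hn1, fun τ => ⟨fun h => ?_, fun h => ?_⟩⟩
    · have h3 : τ x = x := by
        rw [hx, map_div₀, map_add, map_sub, map_div₀, hAτ, h, map_ofNat, hμ, hη,
          AlgEquiv.commutes, AlgEquiv.commutes]
      unfold aT
      rw [act_sm]
      refine sm_ext h3 ?_
      change τ (x * w) = x * w
      rw [map_mul, h3, h]
    · have h3 : τ x = x' := by
        rw [hx, map_div₀, map_add, map_sub, map_div₀, hAτ, h, map_ofNat, hμ, hη,
          AlgEquiv.commutes, AlgEquiv.commutes, hx']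
        ring
      rw [hadd']
      unfold aT
      rw [act_sm]
      have h4 : X = x' := by
        rw [hX, zero_add, zero_sub, zero_sub, sub_zero, neg_mul_neg, hrs20, ← e1,
          mul_div_cancel_left₀ _ hx0]
      have h5 : Y = -(x' * w) := by
        rw [hY, zero_sub, zero_sub, sub_zero, neg_mul_neg, hrs20, ← e1]
        field_simp
      refine sm_ext ?_ ?_
      · change τ x = X
        rw [h3, h4]
      · change τ (x * w) = Y
        rw [map_mul, h3, h, h5]
        ring

end alg

end Pool.Agent.W2helper41.X
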