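import Mathlib
import Pool.Agent.W2helper41.X.Coc

/-!
# A class of the second kind gives a point of infinite order or an element of order two
-/

set_option autoImplicit false
set_option linter.unusedSectionVars false

attribute [-instance] DivisionRing.toRatAlgebra

open NumberField IsDedekindDomain

namespace Pool.Agent.W2helper41.X

open WeierstrassCurve Pool.Agent.Y682

open Pool.Agent.TH841.SH (IsR IsX gf isX_zero isX_some not_isX)

open Pool.Agent.TH841.SH.D (Pt act Gal Coch IsCoc IsCob LocTriv cob)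

section

variable {K : Type} [Field K] [NumberField K] {W : WeierstrassCurve K} {A B : K}

/-- the fixed points killed by two -/
lemma fix_two (hT : IsT W A B) (hDs : ¬ IsSquare (A ^ 2 - 4 * B))
    {P : Pt W (AlgebraicClosure K)} (hP : P + P = 0) (hf : dl P = 0) :
    P = 0 ∨ P = T0 hT (AlgebraicClosure K) := by
  by_cases hX : IsX (W.baseChange (AlgebraicClosure K)) 0 P
  · by_cases h0 : P = 0
    · exact Or.inl h0
    · right
      exact isX_ext hT hP (T0_two hT K) hX (isX_some _) h0 (T0_ne hT _)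
  · exfalso
    obtain ⟨g, hg, hgσ⟩ := tors_g hT hP hX
    have hfix : ∀ σ : Gal K, σ g = g := fun σ => (hgσ σ).1 (by
      have := congrFun hf σ
      rw [dl_apply] at this
      exact sub_eq_zero.1 this)
    obtain ⟨y, hy⟩ := fix_mem g hfix
    apply hDs
    refine ⟨y, ?_⟩
    apply (algebraMap K (AlgebraicClosure K)).injective
    rw [map_mul, hy, ← hg]
    ring

/-- the points of order four above the point `(0, 0)` are not rational -/
lemma no_four (hT : IsT W A B) (hBs : ¬ IsSquare B) {P : Pt W (AlgebraicClosure K)}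
    (hP : P + P = T0 hT (AlgebraicClosure K))
    (hf : ∀ σ : Gal K, dl P σ = 0 ∨ dl P σ = T0 hT (AlgebraicClosure K)) : False := by
  obtain ⟨r, s, hR, hrs1, hrs2, hr0, hs0, hrs⟩ := (hT.base (L := AlgebraicClosure K)).roots
  rcases pt_zero_or P with rfl | ⟨u, v, hn, rfl⟩
  · rw [add_zero] at hP
    exact T0_ne hT _ hP.symm
  · have hv : v ≠ 0 := by
      intro hv
      have h1 := (@IsR.add_self _ _ _ _ _ _ (Classical.decEq _) hR two_ne_zero _ _ hn).2 hv
      have h2 : (sm u v hn : Pt W (AlgebraicClosure K)) + sm u v hn = 0 := h1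
      rw [h2] at hP
      exact T0_ne hT _ hP.symm
    obtain ⟨X, Y, hn', h1, h2⟩ := @IsR.dup _ _ _ _ _ _ (Classical.decEq _) hR two_ne_zero _ _ hn hv
    have h3 : (sm u v hn : Pt W (AlgebraicClosure K)) + sm u v hn = sm X Y hn' := h1
    rw [h3] at hP
    have hX : X = 0 := (sm_inj (W := W) hP).1
    rw [hX, sub_self, eq_comm, sq_eq_zero_iff, div_eq_zero_iff] at h2
    have hu2 : u ^ 2 = algebraMap K (AlgebraicClosure K) B := by
      rcases h2 with h2 | h2
      · rw [← hrs2]; linear_combination h2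
      · exact absurd h2 (mul_ne_zero two_ne_zero hv)
    have hu0 : u ≠ 0 := by
      rintro rfl
      rw [zero_pow two_ne_zero, eq_comm, map_eq_zero] at hu2
      exact hT.hB hu2
    have hfix : ∀ σ : Gal K, σ u = u := by
      intro σ
      rcases hf σ with h | h
      · rw [dl_apply, sub_eq_zero, act_sm] at h
        exact (sm_inj (W := W) h).1
      · rw [dl_apply] at h
        obtain ⟨X', Y', hn'', e1, -, -, -, e2, -⟩ := @IsR.trans _ _ _ _ _ _ (Classical.decEq _) hR
          _ _ hn hv (nons0 hT.base)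
        have h4 : act W σ.toAlgHom (sm u v hn) = sm X' Y' hn'' := by
          have h5 : act W σ.toAlgHom (sm u v hn) = sm u v hn + T0 hT (AlgebraicClosure K) := by
            rw [← h]; abel
          rw [h5]
          exact e1
        rw [act_sm] at h4
        have h5 : σ u = X' := (sm_inj (W := W) h4).1
        rw [h5, e2, zero_add, zero_sub, zero_sub, sub_zero, neg_mul_neg, hrs2, ← hu2]
        field_simp
    obtain ⟨y, hy⟩ := fix_mem u hfix
    apply hBs
    refine ⟨y, ?_⟩
    apply (algebraMap K (AlgebraicClosure K)).injective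
    rw [map_mul, hy, ← hu2]
    ring

/-- the fixed points of two-power order -/
lemma fix_pow (hT : IsT W A B) (hDs : ¬ IsSquare (A ^ 2 - 4 * B)) (hBs : ¬ IsSquare B) (j : ℕ) :
    ∀ P : Pt W (AlgebraicClosure K), dl P = 0 → 2 ^ j • P = 0 →
      P = 0 ∨ P = T0 hT (AlgebraicClosure K) := by
  induction j with
  | zero =>
    intro P _ hP
    rw [pow_zero, one_smul] at hP
    exact Or.inl hP
  | succ j ih =>
    intro P hf hP
    have h1 : dl (P + P) = 0 := by rw [dl_add, hf, add_zero]
    have h2 : 2 ^ j • (P + P) = 0 := by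
      rw [← two_nsmul, ← mul_smul, ← pow_succ]
      exact hP
    rcases ih _ h1 h2 with h3 | h3
    · exact fix_two hT hDs h3 hf
    · exfalso
      exact no_four hT hBs h3 fun σ => Or.inl (congrFun hf σ)

/-- **a class of the second kind** -/
theorem not_trivial (hT : IsT W A B) (hDs : ¬ IsSquare (A ^ 2 - 4 * B)) (hBs : ¬ IsSquare B)
    {n : K} (hn : ¬ IsSquare n) (hnD : ¬ IsSquare (n * (A ^ 2 - 4 * B))) (hL : LL2 A B n)
    (hr : Module.finrank ℤ (MP W) = 0)
    (hs : ∀ x : Pool.Agent.TH841.NF.D.Sha W, 2 • x = 0 → x = 0) : False := by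
  have hn0 : n ≠ 0 := by
    rintro rfl
    exact hn ⟨0, by ring⟩
  obtain ⟨s, hs2⟩ := IsAlgClosed.exists_pow_nat_eq (algebraMap K (AlgebraicClosure K) n) (n := 2)
    (by norm_num)
  have hsha : Pool.Agent.TH841.NF.D.IsShaCoc W (fs hT s) := by
    refine ⟨fs_coc hT hn0 hs2, fun v => ?_, fun v => ?_⟩
    · have := charZero_adic v
      exact loc_triv hT hn0 hs2 (hL.1 v)
    · have := charZero_inf v
      exact loc_triv hT hn0 hs2 (hL.2 v)
  -- it is a coboundary
  have hcob : IsCob W (fs hT s) := by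
    have h1 := hs (QuotientAddGroup.mk (⟨fs hT s, hsha⟩ : Pool.Agent.TH841.NF.D.shaCoc W) :
      Pool.Agent.TH841.NF.D.Sha W) (by
      have h2 : (2 • (⟨fs hT s, hsha⟩ : Pool.Agent.TH841.NF.D.shaCoc W)) = 0 := by
        apply Subtype.ext
        rw [two_nsmul]
        change fs hT s + fs hT s = 0
        funext σ
        exact fs_two hT s σ
      have h3 := congrArg (QuotientAddGroup.mk' ((cob W).addSubgroupOf
        (Pool.Agent.TH841.NF.D.shaCoc W))) h2
      rw [map_nsmul, map_zero] at h3
      exact h3)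
    exact (QuotientAddGroup.eq_zero_iff (⟨fs hT s, hsha⟩ : Pool.Agent.TH841.NF.D.shaCoc W)).1 h1
  obtain ⟨Q, hQ⟩ := isCob_iff.1 hcob
  have hQ2 : dl (Q + Q) = 0 := by
    rw [dl_add, ← hQ]
    funext σ
    exact fs_two hT s σ
  obtain ⟨R, hR⟩ := exists_inc hQ2
  have hfg : Module.Finite ℤ (MP W) := fg_MP hT
  rw [Module.finrank_eq_zero_iff_isTorsion] at hr
  obtain ⟨N, hN⟩ := @hr R
  have hN0 : (N : ℤ) ≠ 0 := nonZeroDivisors.coe_ne_zero N
  have hNR : (N : ℤ).natAbs • R = 0 := by
    have h1 : (N : ℤ) • R = 0 := hN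
    rcases Int.natAbs_eq (N : ℤ) with h | h
    · rw [h, natCast_zsmul] at h1
      exact h1
    · rw [h, neg_smul, natCast_zsmul, neg_eq_zero] at h1
      exact h1
  obtain ⟨j, b, hb, hjb⟩ := Nat.exists_eq_two_pow_mul_odd (n := (N : ℤ).natAbs) (by omega)
  obtain ⟨c, hc⟩ := hb
  have hb2 : 2 ^ j • (b • (Q + Q)) = 0 := by
    rw [← mul_smul, ← hjb, ← hR, ← map_nsmul, hNR, map_zero]
  have hbf : dl (b • (Q + Q)) = 0 := by rw [dl_nsmul, hQ2, smul_zero]
  have hcf : dl (c • (Q + Q)) = 0 := by rw [dl_nsmul, hQ2, smul_zero]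
  -- the modified point
  set Q' := Q + c • (Q + Q) with hQ'
  have hQf : fs hT s = dl Q' := by rw [hQ', dl_add, hcf, add_zero, hQ]
  have hQ'2 : Q' + Q' = b • (Q + Q) := by
    rw [hQ', hc, add_smul, mul_smul, two_nsmul, one_smul]
    abel
  -- the automorphisms which do not fix `s`
  have hmv : ∃ σ : Gal K, σ s ≠ s := by
    by_contra hno
    push Not at hno
    obtain ⟨y, hy⟩ := fix_mem s hno
    apply hn
    refine ⟨y, ?_⟩
    apply (algebraMap K (AlgebraicClosure K)).injective
    rw [map_mul, hy, ← hs2]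
    ring
  obtain ⟨σ0, hσ0⟩ := hmv
  rcases fix_pow hT hDs hBs j _ hbf hb2 with h | h
  · -- `Q'` has order two
    rw [← hQ'2] at h
    have hnf : dl Q' ≠ 0 := by
      intro h0
      rw [← hQf] at h0
      have h1 := congrFun h0 σ0
      rw [fs_neg hT hσ0] at h1
      exact T0_ne hT _ h1
    have hX : ¬ IsX (W.baseChange (AlgebraicClosure K)) 0 Q' := by
      intro hX
      apply hnf
      funext σ
      rw [dl_apply, tors_fix hT h hX, sub_self]
      rfl
    obtain ⟨g, hg, hgσ⟩ := tors_g hT h hX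
    have hfix : ∀ σ : Gal K, σ (g * s) = g * s := by
      intro σ
      have h1 := congrFun hQf σ
      rw [dl_apply] at h1
      by_cases h2 : σ s = s
      · rw [fs_pos hT h2, eq_comm, sub_eq_zero] at h1
        rw [map_mul, (hgσ σ).1 h1, h2]
      · rw [fs_neg hT h2] at h1
        have h3 : act W σ.toAlgHom Q' ≠ Q' := by
          intro h4
          rw [h4, sub_self] at h1
          exact T0_ne hT _ h1
        rw [map_mul, (hgσ σ).2 h3, (sgn hs2 σ).resolve_left h2, neg_mul_neg]
    obtain ⟨y, hy⟩ := fix_mem _ hfix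
    apply hnD
    refine ⟨y, ?_⟩
    apply (algebraMap K (AlgebraicClosure K)).injective
    rw [map_mul, map_mul, hy, ← hs2, ← hg]
    ring
  · -- `Q'` has order four
    rw [← hQ'2] at h
    refine no_four hT hBs h fun σ => ?_
    rw [← hQf]
    by_cases h2 : σ s = s
    · exact Or.inl (fs_pos hT h2)
    · exact Or.inr (fs_neg hT h2)

end

end Pool.Agent.W2helper41.X
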