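import Mathlib
import Pool.Agent.W2helper41.X.Lsol
import Pool.Agent.W2helper41.X.Nt
import Pool.Agent.W2helper41.X.Inz

/-!
# The converse of the criterion
-/

set_option autoImplicit false

open NumberField IsDedekindDomain

namespace Pool.Agent.W2helper41.X

open Pool.Agent.Y682
open Pool.Agent.TH841.NF.D (rk Sha)
open Pool.Agent.Y700 (WM)

open scoped Classical

variable {P T : Finset ℕ}

/-- the local conditions -/
theorem ll2 (hP : ∀ p ∈ P, Spl p) (hT : ∀ q ∈ T, Ine q) {I : Finset ℕ} (hI : I ⊆ P)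
    (hK : Ker P (∏ q ∈ T, q) I) :
    LL2 (13 * (((∏ q ∈ T, q) * ∏ i ∈ P, i : ℕ) : ℚ))
      (128 * (((∏ q ∈ T, q) * ∏ i ∈ P, i : ℕ) : ℚ) ^ 2) ((∏ i ∈ I, i : ℕ) : ℚ) := by
  constructor
  · intro v
    have hpf : Fact (Nat.Prime (Rat.HeightOneSpectrum.primesEquiv v : Nat.Primes)) :=
      ⟨(Rat.HeightOneSpectrum.primesEquiv v).2⟩
    obtain ⟨ψ⟩ : Nonempty (ℚ_[(Rat.HeightOneSpectrum.primesEquiv v : Nat.Primes)] →+*
        v.adicCompletion ℚ) :=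
      ⟨(Rat.HeightOneSpectrum.adicCompletion.padicEquiv v).symm.toRingEquiv.toRingHom⟩
    obtain ⟨z, m, hz, hzm, hm⟩ := sol_all hP hT hI hK
      (Rat.HeightOneSpectrum.primesEquiv v : Nat.Primes)
    set D : ℕ := (∏ q ∈ T, q) * ∏ i ∈ P, i with hD
    set n : ℕ := ∏ i ∈ I, i with hn
    refine ⟨ψ z, ψ m, (map_ne_zero ψ).2 hz, ?_, ?_⟩
    · rw [← hzm, map_mul, map_pow, map_natCast, map_intCast]
      push_cast
      rfl
    · rcases hm with h | h | ⟨h, y, hy⟩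
      · left; rw [h, map_one]
      · right; left
        rw [h, map_mul, map_pow, map_mul (algebraMap ℚ _), map_mul (algebraMap ℚ _),
          map_natCast, map_ofNat, map_ofNat, map_neg, map_ofNat, map_intCast, map_pow, map_natCast]
        push_cast
        ring
      · right; right
        refine ⟨(map_ne_zero ψ).2 h, ψ y, ?_⟩
        rw [← map_pow, hy, map_mul, map_sub, map_pow, map_sub, map_mul, map_mul, map_pow,
          map_mul (algebraMap ℚ _), map_mul (algebraMap ℚ _), map_pow (algebraMap ℚ _),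
          map_natCast, map_ofNat, map_ofNat, map_ofNat, map_ofNat, map_intCast]
        push_cast
        ring
  · intro v
    have hv : v.IsReal := IsTotallyReal.isReal v
    obtain ⟨ψ⟩ : Nonempty (ℝ →+* v.Completion) :=
      ⟨(InfinitePlace.Completion.ringEquivRealOfIsReal hv).symm.toRingHom⟩
    have hn : 0 < ∏ i ∈ I, i := Finset.prod_pos fun i hi => (hP i (hI hi)).1.pos
    set n : ℕ := ∏ i ∈ I, i with hnd
    have hnR : (0 : ℝ) < (n : ℝ) := by exact_mod_cast hn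
    have hs : √(n : ℝ) ≠ 0 := (Real.sqrt_pos.2 hnR).ne'
    refine ⟨ψ (√(n : ℝ))⁻¹, 1, (map_ne_zero ψ).2 (inv_ne_zero hs), ?_, Or.inl rfl⟩
    have h1 : (n : ℝ) * (√(n : ℝ))⁻¹ ^ 2 = 1 := by
      rw [inv_pow, Real.sq_sqrt hnR.le]
      exact mul_inv_cancel₀ hnR.ne'
    have h2 := congrArg ψ h1
    rw [map_mul, map_pow, map_natCast, map_one] at h2
    rw [map_natCast]
    exact h2

theorem not_sq_of_neg {x : ℚ} (h : x < 0) : ¬ IsSquare x := by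
  rintro ⟨y, hy⟩
  nlinarith [mul_self_nonneg y]

theorem not_sq_two {x : ℚ} (h : x ≠ 0) : ¬ IsSquare (2 * x ^ 2 : ℚ) := by
  rintro ⟨y, hy⟩
  have h1 : (2 : ℚ) = (y / x) ^ 2 := by
    field_simp
    linear_combination hy
  have h2 : IsSquare (2 : ℚ) := ⟨y / x, by rw [h1]; ring⟩
  have h3 : IsSquare (2 : ℕ) := by
    have := Rat.isSquare_natCast_iff (n := 2)
    exact this.1 (by exact_mod_cast h2)
  obtain ⟨w, hw⟩ := h3
  rcases Nat.lt_or_ge w 2 with h4 | h4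
  · interval_cases w <;> omega
  · nlinarith

theorem not_sq_prod (hP : ∀ p ∈ P, Spl p) {I : Finset ℕ} (hI : I ⊆ P) (hne : I.Nonempty) :
    ¬ IsSquare ((∏ i ∈ I, i : ℕ) : ℚ) := by
  rw [Rat.isSquare_natCast_iff]
  rintro ⟨y, hy⟩
  obtain ⟨p, hp⟩ := hne
  have hpp := (hP p (hI hp)).1
  have hsq : Squarefree (∏ i ∈ I, i) := by
    refine Finset.squarefree_prod_of_pairwise_isCoprime ?_ fun q hq => (hP q (hI hq)).1.squarefree
    intro q hq r hr hqr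
    exact Nat.coprime_iff_isRelPrime.1
      ((Nat.coprime_primes (hP q (hI hq)).1 (hP r (hI hr)).1).2 hqr)
  have h1 : p ∣ ∏ i ∈ I, i := Finset.dvd_prod_of_mem _ hp
  rw [hy] at h1 hsq
  have h2 : p ∣ y := by
    rcases (hpp.dvd_mul).1 h1 with h | h <;> exact h
  have h3 := hsq p (mul_dvd_mul h2 h2)
  exact hpp.one_lt.ne' (Nat.isUnit_iff.1 h3)

/-- **the converse** -/
theorem not_zero (hP : ∀ p ∈ P, Spl p) (hT : ∀ q ∈ T, Ine q)
    (hdet : (mat P (∏ q ∈ T, q)).det = 0) :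
    ¬ (rk (Y682.wc (13 * (((∏ q ∈ T, q) * ∏ i ∈ P, i : ℕ) : ℚ))
      (128 * (((∏ q ∈ T, q) * ∏ i ∈ P, i : ℕ) : ℚ) ^ 2)) = 0 ∧
    ∀ y : Sha (Y682.wc (13 * (((∏ q ∈ T, q) * ∏ i ∈ P, i : ℕ) : ℚ))
      (128 * (((∏ q ∈ T, q) * ∏ i ∈ P, i : ℕ) : ℚ) ^ 2)), 2 • y = 0 → y = 0) := by
  obtain ⟨I, hI, hne, hK⟩ := exists_ker hdet
  have hLL := ll2 hP hT hI hK
  have hmod := prod_four hP hT
  set D : ℕ := (∏ q ∈ T, q) * ∏ i ∈ P, i with hDd
  have hD0 : D ≠ 0 := by omega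
  have hDQ : (D : ℚ) ≠ 0 := by exact_mod_cast hD0
  have hdisc : (13 * (D : ℚ)) ^ 2 - 4 * (128 * (D : ℚ) ^ 2) = -343 * (D : ℚ) ^ 2 := by ring
  have hIs : IsT (Y682.wc (13 * (D : ℚ)) (128 * (D : ℚ) ^ 2)) (13 * (D : ℚ))
      (128 * (D : ℚ) ^ 2) := by
    refine wc_isT (mul_ne_zero (by norm_num) (pow_ne_zero 2 hDQ)) ?_
    rw [hdisc]
    exact mul_ne_zero (by norm_num) (pow_ne_zero 2 hDQ)
  have hn0 : 0 < ∏ i ∈ I, i := Finset.prod_pos fun i hi => (hP i (hI hi)).1.pos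
  have hnQ : (0 : ℚ) < ((∏ i ∈ I, i : ℕ) : ℚ) := by exact_mod_cast hn0
  have hD2 : (0 : ℚ) < (D : ℚ) ^ 2 := by positivity
  rintro ⟨hr, hs⟩
  refine not_trivial hIs ?_ ?_ (not_sq_prod hP hI hne) ?_ hLL hr hs
  · rw [hdisc]
    exact not_sq_of_neg (by linarith)
  · have h1 : 128 * (D : ℚ) ^ 2 = 2 * (8 * (D : ℚ)) ^ 2 := by ring
    rw [h1]
    exact not_sq_two (mul_ne_zero (by norm_num) hDQ)
  · rw [hdisc]
    exact not_sq_of_neg (by nlinarith)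

/-- **the criterion** -/
theorem crit (hP : ∀ p ∈ P, Spl p) (hT : ∀ q ∈ T, Ine q) :
    (mat P (∏ q ∈ T, q)).det ≠ 0 ↔
    (Y682.XF.rank ℚ (WM (((∏ q ∈ T, q) * ∏ i ∈ P, i : ℕ) : ℤ)) = 0 ∧
    ∀ x : Sha (Y682.XF.base (WM (((∏ q ∈ T, q) * ∏ i ∈ P, i : ℕ) : ℤ)) ℚ),
      2 • x = 0 → x = 0) := by
  refine ⟨fun h => inz hP hT h, ?_⟩
  rintro ⟨h1, h2⟩ hdet
  apply not_zero hP hT hdet
  have hDmod := prod_four hP hT
  set D : ℕ := (∏ q ∈ T, q) * ∏ i ∈ P, i with hDd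
  obtain ⟨k, hk⟩ : ∃ k : ℤ, ((D : ℕ) : ℤ) = 4 * k + 1 := ⟨((D / 4 : ℕ) : ℤ), by omega⟩
  have hkq : ((D : ℕ) : ℚ) = 4 * (k : ℚ) + 1 := by exact_mod_cast hk
  rw [hkq]
  rw [Y31.XF.wm_eq hk] at h1 h2
  obtain ⟨⟨e1⟩, ⟨e2⟩⟩ := Pool.Agent.Y655.XT.s_shavc ℚ _ _ (Y31.XF.CV k) (Y31.XF.disc_ne k)
    (Y31.XF.cv_eq k)
  constructor
  · exact (Y31.XF.fin_eq _ _ e1).symm.trans h1
  · intro x hx
    obtain ⟨y, rfl⟩ := e2.surjective x
    rw [← map_nsmul, map_eq_zero_iff e2 e2.injective] at hx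
    rw [h2 y hx, map_zero]

end Pool.Agent.W2helper41.X
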