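import Mathlib

/-!
# A point of order four when eight divides the number of points
-/

set_option autoImplicit false
set_option linter.style.haveILetI false

namespace Pool.Agent.W2helper41.X

open WeierstrassCurve WeierstrassCurve.Affine

/-- a finite commutative group of order divisible by eight with at most four elements killed by two
has an element of order four -/
theorem ord_four {G : Type*} [AddCommGroup G] [Finite G] (h8 : 8 ∣ Nat.card G)
    (h4 : Nat.card {x : G // 2 • x = 0} ≤ 4) : ∃ x : G, 2 • x ≠ 0 ∧ 4 • x = 0 := by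
  by_contra hno
  push Not at hno
  have hf : Fact (Nat.Prime 2) := ⟨Nat.prime_two⟩
  have key : ∀ x : G, 8 • x = 0 → 2 • x = 0 := by
    intro x hx
    by_contra h2
    have h3 : 4 • (2 • x) = 0 := by rw [← mul_smul]; exact hx
    have h5 : 2 • (2 • x) = 0 := by
      by_contra h6
      exact hno _ h6 h3
    have h7 : 4 • x = 0 := by
      rw [← mul_smul] at h5
      exact h5
    exact hno x h2 h7
  obtain ⟨K, hK⟩ := Sylow.exists_subgroup_card_pow_prime (G := Multiplicative G) 2 (n := 3)
    (by
      have : Nat.card (Multiplicative G) = Nat.card G := rfl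
      rw [this]
      exact h8)
  have hinj : Function.Injective (fun x : K => (⟨Multiplicative.toAdd (x : Multiplicative G), by
      apply key
      have h1 : x ^ 8 = 1 := by
        have := pow_card_eq_one' (x := x)
        rw [hK] at this
        exact this
      have h2 : ((x : Multiplicative G)) ^ 8 = 1 := by
        have := congrArg Subtype.val h1
        exact this
      exact h2⟩ : {x : G // 2 • x = 0})) := by
    intro x y h
    have := congrArg Subtype.val h
    exact Subtype.ext this
  have h1 := Nat.card_le_card_of_injective _ hinj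
  rw [hK] at h1
  omega

/-- **eight divides the number of points only if `y⁴ + a y² + b` has a root** -/
theorem root_of_eight {F : Type} [Field F] [Fintype F] [DecidableEq F] (h2 : (2 : F) ≠ 0)
    {a b i d : F} (hi : i ^ 2 = -1) (hb : b ≠ 0) (hd : d ^ 2 = a ^ 2 - 4 * b) (hd0 : d ≠ 0)
    (h8 : 8 ∣ Nat.card {P : F × F // P.2 ^ 2 = P.1 ^ 3 + a * P.1 ^ 2 + b * P.1} + 1) :
    ∃ y : F, y ^ 4 + a * y ^ 2 + b = 0 := by
  classical
  set W : WeierstrassCurve F := ⟨0, a, 0, b, 0⟩ with hW
  have ha1 : W.a₁ = 0 := rfl
  have ha2 : W.a₂ = a := rfl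
  have ha3 : W.a₃ = 0 := rfl
  have ha4 : W.a₄ = b := rfl
  have ha6 : W.a₆ = 0 := rfl
  have hΔ : W.Δ ≠ 0 := by
    have : W.Δ = 2 ^ 4 * b ^ 2 * d ^ 2 := by
      rw [hd]
      simp only [WeierstrassCurve.Δ, WeierstrassCurve.b₂, WeierstrassCurve.b₄, WeierstrassCurve.b₆,
        WeierstrassCurve.b₈, ha1, ha2, ha3, ha4, ha6]
      ring
    rw [this]
    exact mul_ne_zero (mul_ne_zero (pow_ne_zero _ h2) (pow_ne_zero _ hb)) (pow_ne_zero _ hd0)
  haveI : W.IsElliptic := ⟨isUnit_iff_ne_zero.2 hΔ⟩
  have hcard : Nat.card (WeierstrassCurve.Affine.Point W.toAffine) =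
      Nat.card {P : F × F // P.2 ^ 2 = P.1 ^ 3 + a * P.1 ^ 2 + b * P.1} + 1 := by
    rw [Nat.card_congr (pointEquiv W.toAffine)]
    have h3 : Nat.card {xy : F × F // W.toAffine.Equation xy.fst xy.snd} =
        Nat.card {P : F × F // P.2 ^ 2 = P.1 ^ 3 + a * P.1 ^ 2 + b * P.1} := by
      refine Nat.card_congr (Equiv.subtypeEquivRight fun P => ?_)
      rw [WeierstrassCurve.Affine.equation_iff, ha1, ha2, ha3, ha4, ha6]
      simp
    rw [← h3]
    exact Finite.card_option
  haveI : Finite (WeierstrassCurve.Affine.Point W.toAffine) := by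
    haveI : Finite (WithZero {xy : F × F // W.toAffine.Equation xy.fst xy.snd}) :=
      inferInstanceAs (Finite (Option {xy : F × F // W.toAffine.Equation xy.fst xy.snd}))
    exact Finite.of_equiv _ (pointEquiv W.toAffine).symm
  have heq : ∀ x y : F, W.toAffine.Equation x y ↔ y ^ 2 = x ^ 3 + a * x ^ 2 + b * x := by
    intro x y
    rw [WeierstrassCurve.Affine.equation_iff, ha1, ha2, ha3, ha4, ha6]
    simp
  have hneg : ∀ x y : F, W.toAffine.negY x y = -y := by
    intro x y
    rw [negY, ha1, ha3]; ring
  -- the points killed by two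
  have htwo : ∀ P : W.toAffine.Point, 2 • P = 0 → P = 0 ∨ ∃ x h, P = Point.some x 0 h := by
    intro P hP
    rcases P with _ | ⟨x, y, h⟩
    · exact Or.inl rfl
    · right
      by_cases hy : y = 0
      · subst hy; exact ⟨x, h, rfl⟩
      · exfalso
        have hY : y ≠ W.toAffine.negY x y := by
          rw [hneg]
          intro h3
          have h4 : 2 * y = 0 := by linear_combination h3
          exact mul_ne_zero h2 hy h4
        rw [two_nsmul, Point.add_self_of_Y_ne hY] at hP
        exact Point.some_ne_zero _ hP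
  have hroot : ∀ x : F, W.toAffine.Equation x 0 → x = 0 ∨ x = (-a + d) / 2 ∨ x = (-a - d) / 2 := by
    intro x hx
    rw [heq] at hx
    by_cases h0 : x = 0
    · exact Or.inl h0
    · right
      have h3 : x * (x ^ 2 + a * x + b) = 0 := by linear_combination -hx
      have h4 := (mul_eq_zero.1 h3).resolve_left h0
      have h5 : (2 * x - (-a + d)) * (2 * x - (-a - d)) = 0 := by
        linear_combination 4 * h4 - hd
      rcases mul_eq_zero.1 h5 with h6 | h6
      · left; rw [eq_div_iff h2]; linear_combination h6
      · right; rw [eq_div_iff h2]; linear_combination h6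
  have h4 : Nat.card {P : W.toAffine.Point // 2 • P = 0} ≤ 4 := by
    let S : Finset (Option F) := {none, some 0, some ((-a + d) / 2), some ((-a - d) / 2)}
    let g : {P : W.toAffine.Point // 2 • P = 0} → S := fun P =>
      match P with
      | ⟨0, _⟩ => ⟨none, by simp [S]⟩
      | ⟨Point.some x y h, hP⟩ => ⟨some x, by
        rcases htwo _ hP with h5 | ⟨x', h', h5⟩
        · exact absurd h5 (Point.some_ne_zero _)
        · have h6 := Point.some.inj h5
          have h7 := hroot x (by rw [h6.1, ← h6.1] ; have := h.1; rw [h6.2] at this; exact this)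
          rcases h7 with h7 | h7 | h7 <;> simp [S, h7]⟩
    have hg : Function.Injective g := by
      rintro ⟨P, hP⟩ ⟨Q, hQ⟩ hPQ
      apply Subtype.ext
      rcases P with _ | ⟨x, y, h⟩ <;> rcases Q with _ | ⟨x', y', h'⟩
      · rfl
      · exfalso
        have := congrArg Subtype.val hPQ
        simp [g] at this
      · exfalso
        have := congrArg Subtype.val hPQ
        simp [g] at this
      · have h5 := congrArg Subtype.val hPQ
        simp only [g, Option.some.injEq] at h5
        subst h5
        have e1 : y = 0 := by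
          rcases htwo _ hP with h6 | ⟨x'', h'', h6⟩
          · exact absurd h6 (Point.some_ne_zero _)
          · exact (Point.some.inj h6).2
        have e2 : y' = 0 := by
          rcases htwo _ hQ with h6 | ⟨x'', h'', h6⟩
          · exact absurd h6 (Point.some_ne_zero _)
          · exact (Point.some.inj h6).2
        subst e1
        subst e2
        rfl
    have h5 := Nat.card_le_card_of_injective g hg
    rw [Nat.card_eq_fintype_card (α := S), Fintype.card_coe] at h5
    refine h5.trans ?_
    refine (Finset.card_insert_le _ _).trans ?_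
    have h6 := Finset.card_le_three (a := (some 0 : Option F)) (b := some ((-a + d) / 2))
      (c := some ((-a - d) / 2))
    omega
  rw [← hcard] at h8
  obtain ⟨P, hP2, hP4⟩ := ord_four h8 h4
  rcases P with _ | ⟨x, y, h⟩
  · exact absurd (smul_zero 2) hP2
  have hxy := (heq x y).1 h.1
  have hy : y ≠ 0 := by
    rintro rfl
    apply hP2
    rw [two_nsmul]
    apply Point.add_self_of_Y_eq
    rw [hneg]; ring
  have hY : y ≠ W.toAffine.negY x y := by
    rw [hneg]
    intro h3
    have h4 : 2 * y = 0 := by linear_combination h3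
    exact mul_ne_zero h2 hy h4
  have h2y : 2 * y ≠ 0 := mul_ne_zero h2 hy
  have hsl : W.toAffine.slope x x y y = (3 * x ^ 2 + 2 * a * x + b) / (2 * y) := by
    rw [slope_of_Y_ne rfl hY, ha1, ha2, ha4, hneg]
    have e1 : y - -y = 2 * y := by ring
    rw [e1, zero_mul, sub_zero]
  have hX : W.toAffine.addX x x (W.toAffine.slope x x y y) = ((x ^ 2 - b) / (2 * y)) ^ 2 := by
    rw [hsl, addX, ha1, ha2]
    field_simp
    linear_combination (-4 * (a + 2 * x)) * hxy
  have hd2 : 2 • (Point.some x y h : W.toAffine.Point) = Point.some _ _ (nonsingular_add h h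
      (fun hxy => hY hxy.2)) := by
    rw [two_nsmul, Point.add_self_of_Y_ne hY]
  have h44 : 2 • (2 • (Point.some x y h : W.toAffine.Point)) = 0 := by
    rw [← mul_smul]; exact hP4
  rcases htwo _ h44 with h5 | ⟨x', h', h5⟩
  · exact absurd h5 hP2
  rw [hd2] at h5
  have hx' := (Point.some.inj h5).1
  rw [hX] at hx'
  set w := (x ^ 2 - b) / (2 * y) with hw
  have hx'' := (heq x' 0).1 h'.1
  by_cases hw0 : w = 0
  · -- the double is the point `(0, 0)`
    have hxb : x ^ 2 = b := by
      rw [hw, div_eq_zero_iff] at hw0
      rcases hw0 with h6 | h6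
      · linear_combination h6
      · exact absurd h6 h2y
    have hx0 : x ≠ 0 := by
      rintro rfl
      apply hb
      rw [← hxb]; ring
    set s := y / x with hs
    have hs2 : s ^ 2 = 2 * x + a := by
      rw [hs, div_pow, div_eq_iff (pow_ne_zero 2 hx0)]
      linear_combination hxy - x * hxb
    have hs0 : s ≠ 0 := div_ne_zero hy hx0
    have hi0 : i ≠ 0 := by
      rintro rfl
      norm_num at hi
    have hisn : i * s ≠ 0 := mul_ne_zero hi0 hs0
    set e := d / (i * s) with he
    have he1 : e * (i * s) = d := div_mul_cancel₀ _ hisn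
    have his : (i * s) ^ 2 = -(a + 2 * x) := by
      rw [mul_pow, hi, hs2]; ring
    have he2 : e ^ 2 = 2 * x - a := by
      have h6 : (i * s) ^ 2 * (e ^ 2 - (2 * x - a)) = 0 := by
        have h7 : (i * s) ^ 2 * e ^ 2 = d ^ 2 := by rw [← he1]; ring
        linear_combination h7 + hd - (2 * x - a) * his + 4 * hxb
      have h7 := (mul_eq_zero.1 h6).resolve_left (pow_ne_zero 2 hisn)
      linear_combination h7
    refine ⟨(i * s + e) / 2, ?_⟩
    have h6 : ((i * s + e) / 2) ^ 2 = (-a + d) / 2 := by
      field_simp
      linear_combination his + he2 + 2 * he1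
    have h7 : ((i * s + e) / 2) ^ 4 = ((-a + d) / 2) ^ 2 := by rw [← h6]; ring
    rw [h7, h6]
    field_simp
    linear_combination hd
  · refine ⟨w, ?_⟩
    have h6 : x' * (x' ^ 2 + a * x' + b) = 0 := by linear_combination -hx''
    have hx0 : x' ≠ 0 := by
      rw [← hx']; exact pow_ne_zero 2 hw0
    have h7 := (mul_eq_zero.1 h6).resolve_left hx0
    rw [← hx'] at h7
    linear_combination h7

end Pool.Agent.W2helper41.X
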