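import Pool.Agent.Y687.K2.Main2
import Pool.Agent.Y514.XF.Qval
import Pool.Agent.W2helper41.X.Eight
import Pool.Agent.W2helper41.X.Sel

/-!
# The central values modulo the next power of two
-/

set_option autoImplicit false
set_option linter.style.haveILetI false

open Finset

namespace Pool.Agent.W2helper41.X

open Pool.Agent.W97.MT (E14 ap II II_conj II_add_one)
open Pool.Agent.Y687 (Symb Symb2 SS rr mem_rr L_inert II_facts V isII SP Qc cnt_twist cnt_E14
  cnt_model hyp_facts sum_split2 split_sp)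
open Pool.Agent.Y682.XT (II_re triv_val val_neg_unit)
open Pool.Agent.Y275.XD (sum_units)

theorem z2_eq {x y : ℤ} (h : (2 : ℤ) ∣ x - y) : (x : ZMod 2) = (y : ZMod 2) := by
  have h1 := (ZMod.intCast_zmod_eq_zero_iff_dvd (x - y) 2).2 (by exact_mod_cast h)
  rw [Int.cast_sub] at h1
  exact sub_eq_zero.1 h1

theorem z2_even {x : ℤ} : (x : ZMod 2) = 0 ↔ (2 : ℤ) ∣ x := by
  rw [ZMod.intCast_zmod_eq_zero_iff_dvd]
  norm_num

theorem z2_one {x : ZMod 2} (h : x ≠ 0) : x = 1 := by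
  revert x
  decide

/-- **the parity of `(a_p - 2 (p/m)) / 4`** -/
theorem par {p : ℕ} (hp : Spl p) {m : ℕ} (hm4 : m % 4 = 1) (hpm : ¬ p ∣ m) {x : ℤ}
    (hx : ap E14 p - 2 * jacobiSym p m = 4 * x) : (x : ZMod 2) = nr m p := by
  obtain ⟨hpp, h8, h7⟩ := hp
  haveI : Fact p.Prime := ⟨hpp⟩
  have h1 := cnt_twist 5805 (-285714) m p (by rintro rfl; omega) hm4 hpm
  rw [cnt_E14 p hpp (by rintro rfl; omega) (by rintro rfl; omega)] at h1
  have hj : jacobiSym p m = 1 ∨ jacobiSym p m = -1 := by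
    refine jacobiSym.eq_one_or_neg_one ?_
    rw [Int.gcd_natCast_natCast]
    exact (Nat.Prime.coprime_iff_not_dvd hpp).2 hpm
  have key : 8 ∣ Y687.cnt (5805 * (m : ℤ) ^ 2) (-285714 * (m : ℤ) ^ 3) p + 1 ↔ (2 : ℤ) ∣ x := by
    rcases hj with hj | hj
    · rw [hj] at hx h1
      constructor
      · intro h; zify at h; omega
      · intro h; zify; omega
    · rw [hj] at hx h1
      constructor
      · intro h; zify at h; omega
      · intro h; zify; omega
  have n2 : (2 : ZMod p) ≠ 0 := Y687.two_ne hpp (by rintro rfl; omega)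
  have n7 : (7 : ZMod p) ≠ 0 := Y687.seven_ne hpp (by rintro rfl; omega)
  have nm : (m : ZMod p) ≠ 0 := by
    intro h
    rw [ZMod.natCast_eq_zero_iff] at h
    exact hpm h
  unfold nr
  split_ifs with hy
  · rw [z2_even]
    by_contra hc
    rw [← key] at hc
    obtain ⟨-, h3⟩ := hyp_facts p hpp h8 h7 m hm4 hpm hc
    obtain ⟨y, hy⟩ := hy
    exact h3 (y ^ 2) (by linear_combination hy) ⟨y, by ring⟩
  · apply z2_one
    rw [Ne, z2_even]
    intro hc
    apply hy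
    rw [← key, cnt_model (m : ℤ) p (by rintro rfl; omega)] at hc
    obtain ⟨i, hi⟩ := (ZMod.exists_sq_eq_neg_one_iff (p := p)).2 (by omega)
    obtain ⟨r, hr⟩ := (Y687.sq_seven p (by omega) (by rintro rfl; omega)).2 h7
    have hr0 : r ≠ 0 := by
      rintro rfl
      apply n7
      linear_combination -hr
    push_cast at hc
    obtain ⟨y, hy⟩ := root_of_eight n2 (a := 13 * (m : ZMod p)) (b := 128 * (m : ZMod p) ^ 2)
      (i := i) (d := 7 * r * m) (by rw [hi]; ring) (mul_ne_zero (by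
        rw [show (128 : ZMod p) = 2 ^ 7 by norm_num]
        exact pow_ne_zero _ n2) (pow_ne_zero 2 nm))
      (by linear_combination (-49 * (m : ZMod p) ^ 2) * hr)
      (mul_ne_zero (mul_ne_zero n7 hr0) nm) hc
    exact ⟨y, by linear_combination hy⟩

/-- the determinant for one prime -/
theorem det_one (p m : ℕ) : (mat {p} m).det = nr m p := by
  have hs : Subsingleton ({p} : Finset ℕ) := by
    constructor
    rintro ⟨a, ha⟩ ⟨b, hb⟩
    rw [mem_singleton] at ha hb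
    subst ha; subst hb; rfl
  rw [Matrix.det_eq_elem_of_subsingleton _ ⟨p, mem_singleton_self p⟩]
  unfold mat
  simp

/-- the determinant for two primes -/
theorem det_two {p r : ℕ} (h : p ≠ r) (m : ℕ) {e : ZMod 2} (h1 : ns ((p : ℕ) : ZMod r) = e)
    (h2 : ns ((r : ℕ) : ZMod p) = e) :
    (mat {p, r} m).det = nr m p * nr m r + e * (nr m p + nr m r) := by
  have hp : p ∈ ({p, r} : Finset ℕ) := by simp
  have hr : r ∈ ({p, r} : Finset ℕ) := by simp
  let f : Fin 2 → ({p, r} : Finset ℕ) := ![⟨p, hp⟩, ⟨r, hr⟩]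
  have hf : Function.Bijective f := by
    constructor
    · intro a b hab
      fin_cases a <;> fin_cases b
      · rfl
      · exact absurd (congrArg Subtype.val hab) h
      · exact absurd (congrArg Subtype.val hab) h.symm
      · rfl
    · rintro ⟨a, ha⟩
      rw [mem_insert, mem_singleton] at ha
      rcases ha with rfl | rfl
      · exact ⟨0, rfl⟩
      · exact ⟨1, rfl⟩
  rw [← Matrix.det_submatrix_equiv_self (Equiv.ofBijective f hf), Matrix.det_fin_two]
  simp only [Matrix.submatrix_apply, Equiv.ofBijective_apply]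
  have e0 : f 0 = ⟨p, hp⟩ := rfl
  have e1 : f 1 = ⟨r, hr⟩ := rfl
  rw [e0, e1]
  unfold mat
  simp only [Matrix.of_apply, if_true, Subtype.mk.injEq, if_neg h, if_neg h.symm]
  have s1 : ({p, r} : Finset ℕ).erase p = {r} := by
    ext a
    simp only [mem_erase, mem_insert, mem_singleton]
    constructor
    · rintro ⟨h3, h4 | h4⟩
      · exact absurd h4 h3
      · exact h4
    · rintro rfl
      exact ⟨h.symm, Or.inr rfl⟩
  have s2 : ({p, r} : Finset ℕ).erase r = {p} := by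
    ext a
    simp only [mem_erase, mem_insert, mem_singleton]
    constructor
    · rintro ⟨h3, h4 | h4⟩
      · exact h4
      · exact absurd h4 h3
    · rintro rfl
      exact ⟨h, Or.inl rfl⟩
  rw [s1, s2, sum_singleton, sum_singleton, h1, h2]
  have key : ∀ a b e : ZMod 2, (a + e) * (b + e) - e * e = a * b + e * (a + b) := by decide
  exact key _ _ _

theorem ns_jac {p r : ℕ} [hp : Fact p.Prime] (h : ((r : ℕ) : ZMod p) ≠ 0) :
    (jacobiSym r p = 1 ∧ ns ((r : ℕ) : ZMod p) = 0) ∨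
      (jacobiSym r p = -1 ∧ ns ((r : ℕ) : ZMod p) = 1) := by
  have h0 : ((r : ℤ) : ZMod p) ≠ 0 := by exact_mod_cast h
  by_cases hs : IsSquare ((r : ℕ) : ZMod p)
  · left
    refine ⟨?_, ns_eq_zero.2 hs⟩
    rw [← jacobiSym.legendreSym.to_jacobiSym, legendreSym.eq_one_iff p h0]
    exact_mod_cast hs
  · right
    refine ⟨?_, by unfold ns; rw [if_neg hs]⟩
    rw [← jacobiSym.legendreSym.to_jacobiSym, legendreSym.eq_neg_one_iff]
    exact_mod_cast hs

variable {P T : Finset ℕ}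

theorem T_four (hT : ∀ q ∈ T, Ine q) : (∏ q ∈ T, q) % 4 = 1 := Y687.prod_mod_four hT

/-- **the sum of the symbols** -/
theorem ss_val {s : ℚ → ℤ} (hs : Symb2 s (fun q => ap E14 q)) (hP : ∀ p ∈ P, Spl p)
    (hT : ∀ q ∈ T, Ine q) (hc : P.card ≤ 2) :
    ∃ o : ℤ, ((o : ℤ) : ZMod 2) = (mat P (∏ q ∈ T, q)).det ∧
      SS s ((∏ q ∈ T, q) * ∏ i ∈ P, i) ((∏ q ∈ T, q) * ∏ i ∈ P, i) =
        2 ^ (T.card + 2 * P.card) * o := by
  have hII : ∀ q ∈ T, isII (fun q => ap E14 q) q := fun q hq =>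
    II_facts q (hT q hq).1 (hT q hq).2.1 (hT q hq).2.2
  have hTp : ∀ q ∈ T, q.Prime := fun q hq => (hT q hq).1
  obtain hc0 | hc1 | hc2 : P.card = 0 ∨ P.card = 1 ∨ P.card = 2 := by omega
  · rw [card_eq_zero] at hc0
    subst hc0
    obtain ⟨k, hk⟩ := L_inert hs.toSymb T hII
    refine ⟨2 * k + 1, ?_, ?_⟩
    · rw [Matrix.det_isEmpty]
      push_cast
      have h2 : (2 : ZMod 2) = 0 := rfl
      rw [h2]; ring
    · rw [prod_empty, mul_one, hk, card_empty, mul_zero, add_zero]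
  · rw [card_eq_one] at hc1
    obtain ⟨p, rfl⟩ := hc1
    have hp := hP p (mem_singleton_self p)
    have hpT : p ∉ T := Y687.split_notMem hp hT
    obtain ⟨x, hx⟩ := (split_sp hp).xx hTp hpT
    obtain ⟨k, hk⟩ := (split_sp hp).L hs.toSymb hII hpT hx
    refine ⟨x + 2 * k, ?_, ?_⟩
    · rw [det_one, ← par hp (T_four hT) (Y687.split_not_dvd hp hT) hx]
      refine z2_eq ⟨k, by ring⟩
    · rw [prod_insert hpT] at hk
      rw [prod_singleton, card_singleton, mul_one, mul_comm (∏ q ∈ T, q) p, hk]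
  · rw [card_eq_two] at hc2
    obtain ⟨p1, p2, hne, rfl⟩ := hc2
    have hp1 := hP p1 (by simp)
    have hp2 := hP p2 (by simp)
    haveI f1 : Fact p1.Prime := ⟨hp1.1⟩
    haveI f2 : Fact p2.Prime := ⟨hp2.1⟩
    have n1 : p1 ∉ T := Y687.split_notMem hp1 hT
    have n2 : p2 ∉ T := Y687.split_notMem hp2 hT
    have c1 : ∀ S ⊆ T, ∃ x : ℤ, ap E14 p1 - 2 * jacobiSym p1 (∏ q ∈ S, q) = 4 * x := fun S hS =>
      (split_sp hp1).xx (fun q hq => hTp q (hS hq)) (fun h => n1 (hS h))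
    have c2 : ∀ S ⊆ T, ∃ x : ℤ, ap E14 p2 - 2 * jacobiSym p2 (∏ q ∈ S, q) = 4 * x := fun S hS =>
      (split_sp hp2).xx (fun q hq => hTp q (hS hq)) (fun h => n2 (hS h))
    choose! x1 hx1 using c1
    choose! x2 hx2 using c2
    have h0 : ((p1 : ℕ) : ZMod p2) ≠ 0 := cast_ne hp2.1 p1 hp1.1 hne.symm
    have h0' : ((p2 : ℕ) : ZMod p1) ≠ 0 := cast_ne hp1.1 p2 hp2.1 hne
    have hrec : jacobiSym p2 p1 = jacobiSym p1 p2 := by
      refine jacobiSym.quadratic_reciprocity_one_mod_four ?_ ?_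
      · have := hp2.2.1; omega
      · have := hp1.2.1; exact Nat.odd_iff.2 (by omega)
    obtain ⟨ε, hε, hε1, hε2⟩ : ∃ ε : ℤ, ((jacobiSym p1 p2 = 1 ∧ ε = 0) ∨
        (jacobiSym p1 p2 = -1 ∧ ε = 1)) ∧ ns ((p1 : ℕ) : ZMod p2) = (ε : ZMod 2) ∧
        ns ((p2 : ℕ) : ZMod p1) = (ε : ZMod 2) := by
      rcases ns_jac h0 with ⟨a, b⟩ | ⟨a, b⟩
      · rcases ns_jac h0' with ⟨c, d⟩ | ⟨c, d⟩
        · exact ⟨0, Or.inl ⟨a, rfl⟩, by rw [b]; norm_num, by rw [d]; norm_num⟩
        · rw [hrec, a] at c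
          norm_num at c
      · rcases ns_jac h0' with ⟨c, d⟩ | ⟨c, d⟩
        · rw [hrec, a] at c
          norm_num at c
        · exact ⟨1, Or.inr ⟨a, rfl⟩, by rw [b]; norm_num, by rw [d]; norm_num⟩
    obtain ⟨k, hk⟩ := sum_split2 hs (split_sp hp1) (split_sp hp2) hne hε x1 x2 T hII n1 n2 hx1 hx2
    refine ⟨x1 T * x2 T + ε * (x1 T + x2 T) + 2 * k, ?_, ?_⟩
    · rw [det_two hne (∏ q ∈ T, q) hε1 hε2,
        ← par hp1 (T_four hT) (Y687.split_not_dvd hp1 hT) (hx1 T (Subset.refl T)),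
        ← par hp2 (T_four hT) (Y687.split_not_dvd hp2 hT) (hx2 T (Subset.refl T))]
      push_cast
      have h2 : (2 : ZMod 2) = 0 := rfl
      rw [h2]; ring
    · have h12 : p1 ∉ insert p2 T := by
        rw [mem_insert, not_or]
        exact ⟨hne, n1⟩
      rw [prod_insert h12, prod_insert n2] at hk
      have e : (∏ q ∈ T, q) * ∏ i ∈ ({p1, p2} : Finset ℕ), i = p1 * (p2 * ∏ q ∈ T, q) := by
        rw [prod_insert (by rw [mem_singleton]; exact hne), prod_singleton]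
        ring
      rw [e, hk, card_pair hne]

/-- the sum of the periods -/
theorem sum_II {s : ℚ → ℤ} {Op : ℝ} (hv : ∀ r : ℚ, (3 : ℝ) * (II r).re = s r * Op)
    {f : ℕ} [NeZero f] (h1 : 1 < f) (hf4 : f % 4 = 1) (ρ : DirichletCharacter ℂ f)
    (hρ : ∀ u : (ZMod f)ˣ, ρ (u : ZMod f) = (jacobiSym ((u : ZMod f).val : ℤ) f : ℂ)) :
    ∑ u : (ZMod f)ˣ, ρ (u : ZMod f) * II (((u : ZMod f).val : ℚ) / f) =
      (Op / 3 : ℂ) * ((SS s f f : ℤ) : ℂ) := by
  have hconj : ∑ u : (ZMod f)ˣ, ρ (u : ZMod f) * II (((u : ZMod f).val : ℚ) / f) =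
      ∑ u : (ZMod f)ˣ, ρ (u : ZMod f) *
        (starRingEnd ℂ) (II (((u : ZMod f).val : ℚ) / f)) := by
    refine Fintype.sum_equiv (Equiv.neg (ZMod f)ˣ) _ _ fun u => ?_
    rw [Equiv.neg_apply]
    have h4 : II (((u : ZMod f).val : ℚ) / f) =
        (starRingEnd ℂ) (II ((((-u : (ZMod f)ˣ) : ZMod f).val : ℚ) / f)) := by
      rw [val_neg_unit h1, ← II_conj]
      rw [← II_add_one (-(((f - (u : ZMod f).val : ℕ) : ℚ) / f))]
      congr 1
      have hf0 : (f : ℚ) ≠ 0 := by exact_mod_cast NeZero.ne f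
      rw [Nat.cast_sub (ZMod.val_lt (u : ZMod f)).le]
      field_simp
      ring
    have h5 : ρ ((-u : (ZMod f)ˣ) : ZMod f) = ρ (u : ZMod f) := by
      rw [hρ, hρ, val_neg_unit h1]
      congr 1
      have e1 : jacobiSym ((f - (u : ZMod f).val : ℕ) : ℤ) f =
          jacobiSym (-1 * ((u : ZMod f).val : ℤ)) f := by
        refine jacobiSym.mod_left' ?_
        rw [Nat.cast_sub (ZMod.val_lt (u : ZMod f)).le]
        rw [show (f : ℤ) - ((u : ZMod f).val : ℤ) = -1 * ((u : ZMod f).val : ℤ) + f by ring,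
          Int.add_emod_right]
      have e2 : jacobiSym (-1) f = 1 := by
        rw [jacobiSym.at_neg_one (Nat.odd_iff.2 (by omega)),
          ZMod.χ₄_nat_one_mod_four hf4]
      rw [e1, jacobiSym.mul_left, e2, one_mul]
    rw [h4, h5]
  have h6 : 2 * ∑ u : (ZMod f)ˣ, ρ (u : ZMod f) * II (((u : ZMod f).val : ℚ) / f) =
      2 * ((Op / 3 : ℂ) * ((SS s f f : ℤ) : ℂ)) := by
    rw [two_mul]
    nth_rewrite 2 [hconj]
    rw [← Finset.sum_add_distrib]
    have h7 : ∀ u : (ZMod f)ˣ, ρ (u : ZMod f) * II (((u : ZMod f).val : ℚ) / f) +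
        ρ (u : ZMod f) * (starRingEnd ℂ) (II (((u : ZMod f).val : ℚ) / f)) =
        (fun a : ℕ => (2 * (Op / 3 : ℂ)) * ((jacobiSym (a : ℤ) f : ℂ) *
          ((s ((a : ℚ) / f) : ℤ) : ℂ))) (u : ZMod f).val := by
      intro u
      rw [← mul_add, Complex.add_conj, hρ]
      push_cast
      rw [II_re hv]
      ring
    rw [Finset.sum_congr rfl fun u _ => h7 u, sum_units (fun a : ℕ => (2 * (Op / 3 : ℂ)) *
      ((jacobiSym (a : ℤ) f : ℂ) * ((s ((a : ℚ) / f) : ℤ) : ℂ)))]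
    unfold SS
    push_cast
    rw [Finset.mul_sum, Finset.mul_sum]
    refine Finset.sum_congr rfl fun a _ => ?_
    ring
  exact mul_left_cancel₀ two_ne_zero h6

/-- **the central values** -/
theorem qval {s : ℚ → ℤ} {Op : ℝ} (hs : Symb2 s (fun q => ap E14 q))
    (hv : ∀ r : ℚ, (3 : ℝ) * (II r).re = s r * Op) (hP : ∀ p ∈ P, Spl p)
    (hT : ∀ q ∈ T, Ine q) (hc : P.card ≤ 2) (f : ℕ) [NeZero f]
    (hf : f = (∏ q ∈ T, q) * ∏ i ∈ P, i) (ρ : DirichletCharacter ℂ f)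
    (hρ : ∀ u : (ZMod f)ˣ, ρ (u : ZMod f) = (jacobiSym ((u : ZMod f).val : ℤ) f : ℂ)) :
    ∃ o : ℤ, ((o : ℤ) : ZMod 2) = (mat P (∏ q ∈ T, q)).det ∧
      ∑ u : (ZMod f)ˣ, ρ (u : ZMod f) * II (((u : ZMod f).val : ℚ) / f) =
        (2 : ℂ) ^ (T.card + 2 * P.card) * o * Op / 3 := by
  have hf4 : f % 4 = 1 := by
    have h2 : (∏ i ∈ P, i) % 4 = 1 := by
      refine Finset.prod_induction _ (fun x : ℕ => x % 4 = 1) ?_ (by norm_num) ?_
      · intro a b ha hb
        rw [Nat.mul_mod, ha, hb]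
      · intro q hq
        have := (hP q hq).2.1
        omega
    rw [hf, Nat.mul_mod, T_four hT, h2]
  rcases Nat.lt_or_ge 1 f with h1 | h1
  · obtain ⟨o, ho, h⟩ := ss_val hs hP hT hc
    refine ⟨o, ho, ?_⟩
    rw [← hf] at h
    rw [sum_II hv h1 hf4 ρ hρ, h]
    push_cast
    ring
  · have hf1 : f = 1 := by
      have := NeZero.ne f
      omega
    have key : ∀ S : Finset ℕ, (∀ q ∈ S, q.Prime) → (∏ q ∈ S, q) ∣ f → S = ∅ := by
      intro S hS hd
      rcases S.eq_empty_or_nonempty with h | ⟨q, hq⟩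
      · exact h
      · exfalso
        have h2 : q ∣ f := (Finset.dvd_prod_of_mem _ hq).trans hd
        rw [hf1] at h2
        exact (hS q hq).one_lt.ne' (Nat.dvd_one.1 h2)
    have hTe : T = ∅ := key T (fun q hq => (hT q hq).1) (by rw [hf]; exact dvd_mul_right _ _)
    have hPe : P = ∅ := key P (fun q hq => (hP q hq).1) (by rw [hf]; exact dvd_mul_left _ _)
    refine ⟨s 0, ?_, ?_⟩
    · subst hPe
      rw [Matrix.det_isEmpty]
      obtain ⟨k, hk⟩ := hs.odd0
      rw [hk]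
      push_cast
      have h2 : (2 : ZMod 2) = 0 := rfl
      rw [h2]; ring
    · rw [(triv_val hv hf1 ρ).2, hTe, hPe, Finset.card_empty, mul_zero, add_zero, pow_zero, one_mul]

end Pool.Agent.W2helper41.X
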