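import Pool.Agent.Y682.XF.Fin
import Pool.Agent.W2helper41.X.Val
import Pool.Agent.W2helper41.X.Cnv

/-!
# The central values of the twists
-/

set_option autoImplicit false

open Finset NumberField NumberField.InfinitePlace IsDedekindDomain WeierstrassCurve MeasureTheory
  Filter Topology IsCyclotomicExtension.Rat H300.HW

namespace Pool.Agent.W2helper41.X

open scoped Classical

open Pool.Agent.TH841.NF.D (Sha)

open Pool.Agent.W97.MT (ap E14 II)

open Pool.Agent.Y700 (WM)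

open Pool.Agent.Y682 (NCl)

open Pool.Agent.Y682.XT Pool.Agent.Y682.XD Pool.Agent.Y682.XF

variable {P T : Finset ℕ}

theorem D_sqf (hP : ∀ p ∈ P, Spl p) (hT : ∀ q ∈ T, Ine q) :
    Squarefree ((∏ q ∈ T, q) * ∏ i ∈ P, i) := by
  have hTp : ∀ q ∈ T, q.Prime := fun q hq => (hT q hq).1
  have hPp : ∀ q ∈ P, q.Prime := fun q hq => (hP q hq).1
  rw [Nat.squarefree_mul_iff]
  refine ⟨?_, Y687.squarefree_prod hTp, Y687.squarefree_prod hPp⟩
  refine Nat.Coprime.prod_left fun q hq => Nat.Coprime.prod_right fun p hp => ?_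
  rw [Nat.coprime_primes (hTp q hq) (hPp p hp)]
  rintro rfl
  have h1 := (hP q hp).2.1
  have h2 := (hT q hq).2.1
  omega

theorem D_div (hP : ∀ p ∈ P, Spl p) (hT : ∀ q ∈ T, Ine q) {l : ℕ} (hl : l.Prime)
    (h : l ∣ (∏ q ∈ T, q) * ∏ i ∈ P, i) : l ∈ T ∨ l ∈ P := by
  rcases (hl.dvd_mul).1 h with h | h
  · exact Or.inl (Y687.dvd_prod_primes (fun q hq => (hT q hq).1) hl h)
  · exact Or.inr (Y687.dvd_prod_primes (fun q hq => (hP q hq).1) hl h)

/-- the number of the factors two in the product of the Tamagawa numbers -/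
theorem tam_sum (hP : ∀ p ∈ P, Spl p) (hT : ∀ q ∈ T, Ine q) :
    ∑ p ∈ ((∏ q ∈ T, q) * ∏ i ∈ P, i).primeFactors, (if IsSquare (-7 : ZMod p) then 2 else 1) =
      T.card + 2 * P.card := by
  have hdis : Disjoint T P := by
    rw [Finset.disjoint_left]
    intro q hq hp
    have h1 := (hP q hp).2.1
    have h2 := (hT q hq).2.1
    omega
  have hpf : ((∏ q ∈ T, q) * ∏ i ∈ P, i).primeFactors = T ∪ P := by
    ext l
    rw [mem_union]
    constructor
    · intro hl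
      exact D_div hP hT (Nat.prime_of_mem_primeFactors hl) (Nat.dvd_of_mem_primeFactors hl)
    · intro hl
      have hlp : l.Prime := by
        rcases hl with h | h
        · exact (hT l h).1
        · exact (hP l h).1
      refine Nat.mem_primeFactors.2 ⟨hlp, ?_, (D_sqf hP hT).ne_zero⟩
      rcases hl with h | h
      · exact dvd_mul_of_dvd_left (dvd_prod_of_mem _ h) _
      · exact dvd_mul_of_dvd_right (dvd_prod_of_mem _ h) _
  rw [hpf, sum_union hdis]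
  congr 1
  · rw [card_eq_sum_ones]
    refine sum_congr rfl fun p hp => ?_
    have h := hT p hp
    have hf : Fact p.Prime := ⟨h.1⟩
    have h8 := h.2.1
    rw [if_neg]
    rw [sq_seven p (by omega) (by rintro rfl; omega)]
    have := h.2.2
    omega
  · rw [mul_comm, ← smul_eq_mul, ← sum_const]
    refine sum_congr rfl fun p hp => ?_
    have h := hP p hp
    have hf : Fact p.Prime := ⟨h.1⟩
    rw [if_pos h.seven]

/-- **the central values** -/
theorem main (H : Y682.XF.Parts) (hP : ∀ p ∈ P, Spl p) (hT : ∀ q ∈ T, Ine q) (hc : P.card ≤ 2) :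
    (∀ v : HeightOneSpectrum (𝓞 ℚ), MinimalAt (WM (((∏ q ∈ T, q) * ∏ i ∈ P, i : ℕ) : ℤ)) v) ∧
    {v : HeightOneSpectrum (𝓞 ℚ) | c (WM (((∏ q ∈ T, q) * ∏ i ∈ P, i : ℕ) : ℤ)) v ≠ 1}.Finite ∧
    0 < realPeriod (WM (((∏ q ∈ T, q) * ∏ i ∈ P, i : ℕ) : ℤ)) ∧
    0 < Tam ℚ (WM (((∏ q ∈ T, q) * ∏ i ∈ P, i : ℕ) : ℤ)) ∧
    0 < Nat.card (tors ℚ (WM (((∏ q ∈ T, q) * ∏ i ∈ P, i : ℕ) : ℤ))) ∧
    ∃ (L : ℂ → ℂ) (x : ℚ), Differentiable ℂ L ∧
      (∀ s : ℂ, 3 / 2 < s.re →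
        HasProd (factor (K := ℚ) (WM (((∏ q ∈ T, q) * ∏ i ∈ P, i : ℕ) : ℤ)) s) (L s)) ∧
      L 1 * (Nat.card (tors ℚ (WM (((∏ q ∈ T, q) * ∏ i ∈ P, i : ℕ) : ℤ))) : ℂ) ^ 2 =
        x * (realPeriod (WM (((∏ q ∈ T, q) * ∏ i ∈ P, i : ℕ) : ℤ)) : ℂ) *
          (Tam ℚ (WM (((∏ q ∈ T, q) * ∏ i ∈ P, i : ℕ) : ℤ)) : ℂ) ∧
      0 ≤ padicValRat 2 x ∧
      ((x ≠ 0 ∧ padicValRat 2 x = 0) ↔ (mat P (∏ q ∈ T, q)).det ≠ 0) := by
  have hsqN := D_sqf hP hT
  have h4N := prod_four hP hT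
  have hdivN := fun (l : ℕ) (hl : l.Prime) => D_div hP hT hl
  have htam := tam_sum hP hT
  obtain ⟨d, hd⟩ : ∃ d : ℕ, d = (∏ q ∈ T, q) * ∏ i ∈ P, i := ⟨_, rfl⟩
  rw [← hd] at hsqN h4N hdivN htam ⊢
  have hd0 : d ≠ 0 := hsqN.ne_zero
  have hz1 : NeZero d := ⟨hd0⟩
  have hz2 : NeZero (3 * d) := ⟨Nat.mul_ne_zero (by norm_num) hd0⟩
  have hz3 : NeZero (3 ^ (0 + 1)) := ⟨by norm_num⟩
  set D : ℤ := (d : ℤ) with hD
  have hDn : D.natAbs = d := Int.natAbs_natCast d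
  have hDsq : Squarefree D := Int.squarefree_natCast.2 hsqN
  have hD4 : D % 4 = 1 := by omega
  have hDpos : 0 < D := by omega
  have hpd : ∀ p : ℕ, p.Prime → p ∣ d → ¬ p ∣ 14 * 3 := by
    intro p hp hpd h42
    have h1 : p % 4 = 1 ∧ p ≠ 7 := by
      rcases hdivN p hp hpd with h | h
      · have := (hT p h).2.1
        exact ⟨by omega, by rintro rfl; omega⟩
      · have := (hP p h).2.1
        exact ⟨by omega, by rintro rfl; omega⟩
    have h2 : p = 2 ∨ p = 7 ∨ p = 3 := by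
      rw [show 14 * 3 = 2 * 7 * 3 by norm_num, hp.dvd_mul, hp.dvd_mul] at h42
      rcases h42 with (h | h) | h
      · exact Or.inl ((Nat.prime_dvd_prime_iff_eq hp Nat.prime_two).1 h)
      · exact Or.inr (Or.inl ((Nat.prime_dvd_prime_iff_eq hp (by norm_num)).1 h))
      · exact Or.inr (Or.inr ((Nat.prime_dvd_prime_iff_eq hp Nat.prime_three).1 h))
    omega
  have hD14 : (D.natAbs).Coprime 14 := by
    rw [hDn]
    refine Nat.coprime_of_dvd ?_
    intro p hp hpd' hp14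
    exact hpd p hp hpd' (dvd_mul_of_dvd_left hp14 _)
  have hDiQ : ∀ p : ℕ, p.Prime → (p : ℤ) ∣ D → (Ideal.span {((p : ℕ) : 𝓞 ℚ)}).IsPrime :=
    fun p hp _ => prime_Q hp
  have hoddQ : Odd (Module.finrank ℚ ℚ) := by rw [Module.finrank_self]; exact odd_one
  obtain ⟨s, t, PP, Op, Om, hSy, g2, g3, hPP⟩ := exists_syP
  -- the cyclotomic field
  have key : ∃ (G₀ : ℂ → ℂ), Differentiable ℂ G₀ ∧
      (∀ z : ℂ, 3 / 2 < z.re → HasProd (factor (K := ℚ) (WM D) z) (G₀ z)) ∧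
      ∃ δ : DirichletCharacter ℂ d,
        (∀ u : (ZMod d)ˣ, δ (u : ZMod d) = (jacobiSym ((u : ZMod d).val : ℤ) d : ℂ)) ∧
        ∃ g : ℂ, g ^ 2 = (if 0 < D then 1 else -1) * d ∧
        g * G₀ 1 = ∑ u : (ZMod d)ˣ, δ (u : ZMod d) * II (((u : ZMod d).val : ℚ) / d) := by
    have gen : ∀ (q : ℕ) [NeZero q] [NeZero (q * d)], q = 3 → ∀ (M : Type) [Field M]
        [NumberField M] [IsCyclotomicExtension {q} ℚ M]
        (_ : Odd (Module.finrank ℚ (⊥ : IntermediateField ℚ M)))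
        (_ : (Ideal.span {((2 : ℕ) : 𝓞 (⊥ : IntermediateField ℚ M))}).IsPrime ∧
          (Ideal.span {((7 : ℕ) : 𝓞 (⊥ : IntermediateField ℚ M))}).IsPrime ∧
            Odd (Nat.card (NCl (⊥ : IntermediateField ℚ M)))),
        ∃ (G₀ : ℂ → ℂ), Differentiable ℂ G₀ ∧
      (∀ z : ℂ, 3 / 2 < z.re → HasProd (factor (K := ℚ) (WM D) z) (G₀ z)) ∧
      ∃ δ : DirichletCharacter ℂ d,
        (∀ u : (ZMod d)ˣ, δ (u : ZMod d) = (jacobiSym ((u : ZMod d).val : ℤ) d : ℂ)) ∧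
        ∃ g : ℂ, g ^ 2 = (if 0 < D then 1 else -1) * d ∧
        g * G₀ 1 = ∑ u : (ZMod d)ˣ, δ (u : ZMod d) * II (((u : ZMod d).val : ℚ) / d) := by
      intro q _ _ hq3 M _ _ _ hodd ⟨h2, h7, hN⟩
      have hq : IsPrimePow q := by
        rw [hq3]; exact Nat.prime_three.isPrimePow
      have hco : q.Coprime 14 := by rw [hq3]; norm_num
      have hypK : HypK s (fun l => ap E14 l) q M (⊥ : IntermediateField ℚ M) :=
        hypK_of H.apev hSy hq hco hodd h2 h7 hN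
      have hgen : ∀ p : ℕ, p.Prime → p ∣ d → ¬ p ∣ 14 * q ∧
          ∀ t : (ZMod q)ˣ, (t : ZMod q) = (p : ZMod q) →
            ∀ x : GG q M (⊥ : IntermediateField ℚ M),
              x ∈ Subgroup.zpowers (mkG q M (⊥ : IntermediateField ℚ M) t) := by
        intro p hp hpd'
        refine ⟨by rw [hq3]; exact hpd p hp hpd', fun t ht => ?_⟩
        exact gen_of_prime (K := (⊥ : IntermediateField ℚ M)) (L := M) Pool.Agent.Y692.XT.inert
          hp ht (prime_tr (IntermediateField.botEquiv ℚ M).symm.toRingEquiv p (prime_Q hp))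
      obtain ⟨G₀, Pr, hG₀, -, -, hE0, -, -, δ, hδj, gg, hgg, hgG⟩ :=
        ana_D (L := M) (K := (⊥ : IntermediateField ℚ M)) Pool.Agent.Y884.XT.s_lk H.nz H.lkd
          H.trd H.kd H.hecke H.prim Pool.Agent.Y405.XT.s_det Pool.Agent.Y41.XT.s_l1
          Pool.Agent.Y125.XT.s_res Pool.Agent.Y363.XT.s_units hSy hypK hN hDsq hD4 hDn hgen
      exact ⟨G₀, hG₀, hE0, δ, hδj, gg, hgg, hgG⟩
    have hodd : Odd (Module.finrank ℚ
        (⊥ : IntermediateField ℚ (CyclotomicField (3 ^ (0 + 1)) ℚ))) := by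
      rw [IntermediateField.finrank_bot]
      exact odd_one
    have hz5 : NeZero ((3 ^ (0 + 1) : ℕ) : ℚ) := ⟨by norm_num⟩
    have hcyc : IsCyclotomicExtension {3 ^ (0 + 1)} ℚ (CyclotomicField (3 ^ (0 + 1)) ℚ) :=
      CyclotomicField.isCyclotomicExtension _ _
    have h3 := three_hyp 0 (CyclotomicField (3 ^ (0 + 1)) ℚ) ⊥ hodd
    have hz4 : NeZero (3 ^ (0 + 1) * d) := ⟨Nat.mul_ne_zero (by norm_num) hd0⟩
    exact gen (3 ^ (0 + 1)) (by norm_num) (CyclotomicField (3 ^ (0 + 1)) ℚ) hodd h3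
  obtain ⟨G₀, hG₀, hE0, δ, hδj, gg, hgg, hgG⟩ := key
  -- the period
  set w : ℝ := 2 * (if 0 < D then Op else Om) / √|(D : ℝ)| with hw
  have hDR : (D : ℝ) ≠ 0 := by
    have : D ≠ 0 := by omega
    exact_mod_cast this
  have hsD : 0 < √|(D : ℝ)| := Real.sqrt_pos.2 (abs_pos.2 hDR)
  have hw0 : 0 < w := by
    rw [hw]
    refine div_pos (mul_pos two_pos ?_) hsD
    rw [if_pos hDpos]
    exact hSy.pos
  have hper : realPeriod (WM D) = w := H.perd PP Op Om hSy.pos hSy.pos' g2 g3 hPP D hD4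
  obtain ⟨hTf', hTv'⟩ := H.tamd H.tg H.t7 H.t2 H.ti H.ts D hDsq hD4 hD14 ℚ hoddQ
    (prime_Q Nat.prime_two) (prime_Q (by norm_num)) hDiQ
  rw [hDn, htam] at hTv'
  have hT0' : Tam ℚ (WM D) ≠ 0 := by
    intro h0
    rw [h0, show padicValNat 2 0 = 0 by simp] at hTv'
    omega
  obtain ⟨-, htv'⟩ := H.tord D hD4 ℚ hoddQ
  have ht0' : Nat.card (tors ℚ (WM D)) ≠ 0 := by
    intro h0
    rw [h0, show padicValNat 2 0 = 0 by simp] at htv'
    omega
  obtain ⟨o, ho, hsum⟩ := qval hSy.H hSy.re hP hT hc d hd δ hδj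
  rw [hsum] at hgG
  rw [if_pos hDpos, one_mul] at hgg
  set T₀ := Tam ℚ (WM D) with hT₀
  set t₀ := Nat.card (tors ℚ (WM D)) with ht₀
  have hD2 : √|(D : ℝ)| = √(d : ℝ) := by
    congr 1
    rw [hD, Int.cast_natCast, Nat.abs_cast]
  have hsd : ((√(d : ℝ) : ℝ) : ℂ) ^ 2 = (d : ℂ) := by
    rw [← Complex.ofReal_pow, Real.sq_sqrt (Nat.cast_nonneg _)]
    push_cast
    rfl
  obtain ⟨e, he, hge⟩ : ∃ e : ℚ, (e = 1 ∨ e = -1) ∧ gg = (e : ℂ) * ((√(d : ℝ) : ℝ) : ℂ) := by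
    rcases sq_eq_sq_iff_eq_or_eq_neg.1 (hgg.trans hsd.symm) with h3 | h3
    · exact ⟨1, Or.inl rfl, by push_cast; rw [one_mul]; exact h3⟩
    · exact ⟨-1, Or.inr rfl, by push_cast; rw [neg_one_mul]; exact h3⟩
  have hsd0 : ((√(d : ℝ) : ℝ) : ℂ) ≠ 0 := by
    rw [← hD2]
    exact_mod_cast hsD.ne'
  have hee : (e : ℂ) * e = 1 := by
    rcases he with rfl | rfl <;> norm_num
  have hwd : (w : ℂ) * ((√(d : ℝ) : ℝ) : ℂ) = 2 * Op := by
    have h8 : w * √(d : ℝ) = 2 * Op := by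
      rw [hw, if_pos hDpos, hD2, div_mul_cancel₀]
      rw [← hD2]
      exact hsD.ne'
    exact_mod_cast h8
  set k := T.card + 2 * P.card with hk
  have hGv : G₀ 1 = e * (2 ^ k * o / 6) * w := by
    have h9 : (e : ℂ) * ((√(d : ℝ) : ℝ) : ℂ) * G₀ 1 = 2 ^ k * o * Op / 3 := by
      rw [← hge]
      exact hgG
    apply mul_right_cancel₀ hsd0
    linear_combination (e : ℂ) * h9 - G₀ 1 * ((√(d : ℝ) : ℝ) : ℂ) * hee -
      (e * (2 ^ k * (o : ℂ) / 6)) * hwd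
  have hfact : Fact (Nat.Prime 2) := ⟨Nat.prime_two⟩
  have htQ : (t₀ : ℚ) ≠ 0 := by exact_mod_cast ht0'
  have hTQ : (T₀ : ℚ) ≠ 0 := by exact_mod_cast hT0'
  have he0 : e ≠ 0 := by rcases he with rfl | rfl <;> norm_num
  have hev : padicValRat 2 e = 0 := by
    rcases he with rfl | rfl
    · exact padicValRat.one
    · rw [padicValRat.neg]; exact padicValRat.one
  have h22 : padicValRat 2 (2 : ℚ) = 1 := by
    have := padicValRat.self (p := 2) (by norm_num)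
    exact_mod_cast this
  have h6 : padicValRat 2 (6 : ℚ) = 1 := by
    rw [show (6 : ℚ) = 2 * (3 : ℕ) by norm_num, padicValRat.mul two_ne_zero (by norm_num),
      h22, padicValRat.of_nat, val_odd (by decide)]
    norm_num
  have hval : ∀ hoQ : (o : ℚ) ≠ 0,
      padicValRat 2 (e * ((2 : ℚ) ^ k * o * (t₀ : ℚ) ^ 2 / (6 * T₀))) = padicValRat 2 (o : ℚ) := by
    intro hoQ
    have hne : (2 : ℚ) ^ k * o * (t₀ : ℚ) ^ 2 / (6 * T₀) ≠ 0 :=
      div_ne_zero (mul_ne_zero (mul_ne_zero (pow_ne_zero _ two_ne_zero) hoQ)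
        (pow_ne_zero _ htQ)) (mul_ne_zero (by norm_num) hTQ)
    rw [padicValRat.mul he0 hne, hev,
      padicValRat.div (mul_ne_zero (mul_ne_zero (pow_ne_zero _ two_ne_zero) hoQ)
        (pow_ne_zero _ htQ)) (mul_ne_zero (by norm_num) hTQ),
      padicValRat.mul (mul_ne_zero (pow_ne_zero _ two_ne_zero) hoQ) (pow_ne_zero _ htQ),
      padicValRat.mul (pow_ne_zero _ two_ne_zero) hoQ, padicValRat.pow, padicValRat.pow,
      padicValRat.mul (by norm_num) hTQ, h22, h6, padicValRat.of_nat, padicValRat.of_nat,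
      hTv', htv']
    push_cast
    ring
  have hoint : padicValRat 2 (o : ℚ) = padicValInt 2 o := padicValRat.of_int
  refine ⟨H.mind D hDsq hD4 hD14 ℚ hDiQ, hTf', by rw [hper]; exact hw0, Nat.pos_of_ne_zero hT0',
    Nat.pos_of_ne_zero ht0', G₀, e * ((2 : ℚ) ^ k * o * (t₀ : ℚ) ^ 2 / (6 * T₀)), hG₀, hE0,
    ?_, ?_, ?_⟩
  · rw [hGv, hper]
    push_cast
    have c5 : (T₀ : ℂ) ≠ 0 := by exact_mod_cast hT0'
    field_simp
  · by_cases ho0 : o = 0
    · rw [ho0]; simp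
    · rw [hval (by exact_mod_cast ho0), hoint]
      positivity
  · rw [← ho]
    constructor
    · rintro ⟨h1, h2⟩
      have hoQ : (o : ℚ) ≠ 0 := by
        intro h0
        apply h1
        rw [h0]; ring
      rw [hval hoQ, hoint] at h2
      have ho0 : o ≠ 0 := by exact_mod_cast hoQ
      rw [Ne, z2_even]
      intro h3
      have h4 : padicValInt 2 o = 0 := by exact_mod_cast h2
      rw [padicValInt.eq_zero_iff] at h4
      rcases h4 with h4 | h4 | h4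
      · norm_num at h4
      · exact ho0 h4
      · exact h4 (by exact_mod_cast h3)
    · intro h1
      rw [Ne, z2_even] at h1
      have ho0 : o ≠ 0 := by
        rintro rfl
        exact h1 (dvd_zero _)
      have hoQ : (o : ℚ) ≠ 0 := by exact_mod_cast ho0
      refine ⟨?_, ?_⟩
      · exact mul_ne_zero he0 (div_ne_zero (mul_ne_zero
          (mul_ne_zero (pow_ne_zero _ two_ne_zero) hoQ) (pow_ne_zero _ htQ))
            (mul_ne_zero (by norm_num) hTQ))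
      · rw [hval hoQ, hoint, padicValInt.eq_zero_of_not_dvd]
        · rfl
        · intro h3
          exact h1 (by exact_mod_cast h3)

end Pool.Agent.W2helper41.X
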