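import Pool.Agent.Y682.XF.Uniq
import Pool.Agent.Y688.XD.Hecke
import Pool.Agent.Y461.XD.Apev
import Pool.Agent.Y758.XD.NZ
import Pool.Agent.Y109.XF.LF
import Pool.Agent.Y954.XF.LKD
import Pool.Agent.Y682.XF.Trd
import Pool.Agent.Y812.XF.HtKd
import Pool.Agent.Y44.XF.Prim
import Pool.Agent.Y44.XF.Mind
import Pool.Agent.Y641.XF.Tam
import Pool.Agent.Y813.XF.TamD
import Pool.Agent.Y665.XF.Tord
import Pool.Agent.Y614.XF.Perd
import Pool.Agent.Y532.XF.Ch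
import Pool.Agent.Y686.XF.Reg
import Pool.Agent.Y514.XF.Qval
import Pool.Agent.Y31.XF.Inz
import Pool.Agent.Y697.XF.Regu
import Pool.Agent.W2helper41.X.Fin

/-!
# The known inputs
-/

set_option autoImplicit false

namespace Pool.Agent.W2helper41.X

/-- all the inputs -/
theorem parts : Pool.Agent.Y682.XF.Parts where
  hecke := Pool.Agent.Y688.XD.s_hecke
  apev := Pool.Agent.Y461.XD.s_apev
  nz := Pool.Agent.Y758.XD.s_nz
  lkd := Pool.Agent.Y954.XF.s_lkd Pool.Agent.Y109.XF.t_LF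
  trd := Pool.Agent.Y682.XF.s_trd
  kd := Pool.Agent.Y812.XF.t_KD
  prim := Pool.Agent.Y44.XF.s_prim
  mind := Pool.Agent.Y44.XF.s_mind
  tg := Pool.Agent.Y641.XF.s_tg
  t7 := Pool.Agent.Y641.XF.s_t7
  t2 := Pool.Agent.Y641.XF.s_t2
  ti := Pool.Agent.Y641.XF.s_ti
  ts := Pool.Agent.Y641.XF.s_ts
  tamd := Pool.Agent.Y813.XF.s_tamd
  tord := Pool.Agent.Y665.XF.t_TORD
  perd := Pool.Agent.Y614.XF.perd
  ht := Pool.Agent.Y812.XF.t_HT
  ch := Pool.Agent.Y532.XF.t_ch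
  reg := Pool.Agent.Y686.XF.t_REG
  qval := Pool.Agent.Y514.XF.s_qval
  inz := Pool.Agent.Y31.XF.s_inz

end Pool.Agent.W2helper41.X
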