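import Pool.Agent.W2helper41.X.Val

/-!
# One more inert prime makes the matrix nonsingular
-/

set_option autoImplicit false
set_option linter.style.haveILetI false

open Finset

namespace Pool.Agent.W2helper41.X

open scoped Classical

open Pool.Agent.W97.MT (ap E14)

/-- a change of the diagonal makes a matrix nonsingular -/
theorem exists_diag_fin : ∀ (n : ℕ) (A : Matrix (Fin n) (Fin n) (ZMod 2)),
    ∃ d : Fin n → ZMod 2, (A + Matrix.diagonal d).det ≠ 0 := by
  intro n
  induction n with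
  | zero =>
    intro A
    refine ⟨fun _ => 0, ?_⟩
    rw [Matrix.det_isEmpty]
    exact one_ne_zero
  | succ n ih =>
    intro A
    obtain ⟨d, hd⟩ := ih (A.submatrix Fin.succ Fin.succ)
    have key : ∀ x : ZMod 2, (A + Matrix.diagonal (Fin.cons x d)).det =
        (A 0 0 + x) * (A.submatrix Fin.succ Fin.succ + Matrix.diagonal d).det +
          ∑ j : Fin n, (-1) ^ ((j.succ : Fin (n + 1)) : ℕ) * A 0 j.succ *
            ((A + Matrix.diagonal (Fin.cons 0 d)).submatrix Fin.succ j.succ.succAbove).det := by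
      intro x
      rw [Matrix.det_succ_row_zero, Fin.sum_univ_succ]
      congr 1
      · rw [Fin.val_zero, pow_zero, one_mul, Matrix.add_apply, Matrix.diagonal_apply_eq,
          Fin.cons_zero]
        congr 2
        ext i j
        simp only [Matrix.submatrix_apply, Matrix.add_apply, Fin.zero_succAbove,
          Matrix.diagonal_apply, Fin.succ_inj, Fin.cons_succ]
      · refine sum_congr rfl fun j _ => ?_
        rw [Matrix.add_apply, Matrix.diagonal_apply_ne _ (Fin.succ_ne_zero j).symm, add_zero]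
        congr 2
    have h2 : ∀ a b c : ZMod 2, b ≠ 0 → ∃ x : ZMod 2, (a + x) * b + c ≠ 0 := by decide
    obtain ⟨x, hx⟩ := h2 (A 0 0) _ (∑ j : Fin n, (-1) ^ ((j.succ : Fin (n + 1)) : ℕ) * A 0 j.succ *
            ((A + Matrix.diagonal (Fin.cons 0 d)).submatrix Fin.succ j.succ.succAbove).det) hd
    exact ⟨Fin.cons x d, by rw [key]; exact hx⟩

theorem exists_diag {ι : Type} [Fintype ι] [DecidableEq ι] (A : Matrix ι ι (ZMod 2)) :
    ∃ d : ι → ZMod 2, (A + Matrix.diagonal d).det ≠ 0 := by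
  let e := Fintype.equivFin ι
  obtain ⟨d, hd⟩ := exists_diag_fin _ (A.submatrix e.symm e.symm)
  refine ⟨d ∘ e, ?_⟩
  rw [← Matrix.det_submatrix_equiv_self e.symm]
  convert hd using 2
  ext i j
  simp only [Matrix.submatrix_apply, Matrix.add_apply, Matrix.diagonal_apply, Function.comp_apply,
    EmbeddingLike.apply_eq_iff_eq, Equiv.apply_symm_apply]

/-- the change of the local symbol -/
theorem nr_mul {p : ℕ} (hp : Spl p) {m q : ℕ} (hm4 : m % 4 = 1) (hpm : ¬ p ∣ m) (hq : Ine q) :
    nr (m * q) p = nr m p + ns ((q : ℕ) : ZMod p) := by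
  have hpp := hp.1
  haveI : Fact p.Prime := ⟨hpp⟩
  haveI : Fact q.Prime := ⟨hq.1⟩
  have hp8 := hp.2.1
  have hq8 := hq.2.1
  have hne : p ≠ q := by rintro rfl; omega
  have hpq : ¬ p ∣ m * q := by
    rw [hpp.dvd_mul, not_or]
    exact ⟨hpm, fun h => hne ((Nat.prime_dvd_prime_iff_eq hpp hq.1).1 h)⟩
  have hm4' : (m * q) % 4 = 1 := by
    rw [Nat.mul_mod, hm4]
    omega
  have hm0 : NeZero m := ⟨by rintro rfl; omega⟩
  have hq0 : NeZero q := ⟨hq.1.ne_zero⟩
  have hjm : jacobiSym p m = 1 ∨ jacobiSym p m = -1 := by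
    refine jacobiSym.eq_one_or_neg_one ?_
    rw [Int.gcd_natCast_natCast]
    exact (Nat.Prime.coprime_iff_not_dvd hpp).2 hpm
  have hpT : p ∉ (∅ : Finset ℕ) := by simp
  obtain ⟨k1, k2, hk⟩ := Y687.SS_facts p hpp hp8 hp.2.2
  have hdiv : ∀ j : ℤ, (j = 1 ∨ j = -1) → ∃ x : ℤ, ap E14 p - 2 * j = 4 * x := by
    intro j hj
    rcases hj with rfl | rfl
    · exact ⟨k2, by omega⟩
    · exact ⟨k2 + 1, by omega⟩
  obtain ⟨x, hx⟩ := hdiv _ hjm
  have h1 := par hp hm4 hpm hx
  have hrec : jacobiSym p q = jacobiSym q p := by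
    refine jacobiSym.quadratic_reciprocity_one_mod_four (by omega) ?_
    exact Nat.odd_iff.2 (by omega)
  have hqp0 : ((q : ℕ) : ZMod p) ≠ 0 := by
    rw [Ne, ZMod.natCast_eq_zero_iff]
    intro h
    exact hne ((Nat.prime_dvd_prime_iff_eq hpp hq.1).1 h)
  rcases ns_jac hqp0 with ⟨a, b⟩ | ⟨a, b⟩
  · have h2 : ap E14 p - 2 * jacobiSym p (m * q) = 4 * x := by
      rw [jacobiSym.mul_right, hrec, a, mul_one, hx]
    rw [← par hp hm4' hpq h2, h1, b, add_zero]
  · have h2 : ap E14 p - 2 * jacobiSym p (m * q) = 4 * (x + jacobiSym p m) := by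
      rw [jacobiSym.mul_right, hrec, a]
      linear_combination hx
    rw [← par hp hm4' hpq h2, ← h1, b]
    push_cast
    congr 1
    rcases hjm with h | h
    · rw [h]; norm_num
    · rw [h]; rfl

variable {P T : Finset ℕ}

/-- primes with given residue symbols -/
theorem exists_res (P : Finset ℕ) (hP : ∀ p ∈ P, Spl p) (d : ℕ → ZMod 2) :
    ∃ t : ℕ, Nat.Coprime t (56 * ∏ p ∈ P, p) ∧ t ≡ 45 [MOD 56] ∧
      ∀ p ∈ P, ns ((t : ℕ) : ZMod p) = d p := by
  induction P using Finset.induction_on with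
  | empty => exact ⟨45, by norm_num, rfl, by simp⟩
  | insert p S hp ih =>
    obtain ⟨t, ht, h45, htS⟩ := ih fun q hq => hP q (mem_insert_of_mem hq)
    obtain ⟨pp, p8, p7⟩ := hP p (mem_insert_self _ _)
    haveI : Fact p.Prime := ⟨pp⟩
    obtain ⟨r, hr0, hr⟩ : ∃ r : ℕ, ((r : ℕ) : ZMod p) ≠ 0 ∧ ns ((r : ℕ) : ZMod p) = d p := by
      have hz : d p = 0 ∨ d p = 1 := by
        generalize d p = y
        revert y
        decide
      rcases hz with h | h
      · refine ⟨1, by simp, ?_⟩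
        rw [h, ns_eq_zero]
        exact ⟨1, by simp⟩
      · have hchar : ringChar (ZMod p) ≠ 2 := by
          rw [ZMod.ringChar_zmod_n]; omega
        obtain ⟨a, ha⟩ := quadraticChar_exists_neg_one hchar
        refine ⟨a.val, ?_, ?_⟩
        · rw [ZMod.natCast_zmod_val]
          rintro rfl
          rw [quadraticChar_zero] at ha
          norm_num at ha
        · rw [ZMod.natCast_zmod_val, h]
          unfold ns
          rw [if_neg]
          rwa [← quadraticChar_neg_one_iff_not_isSquare]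
    have hSp : ∀ q ∈ S, q.Prime := fun q hq => (hP q (mem_insert_of_mem hq)).1
    have hcop : Nat.Coprime (56 * ∏ q ∈ S, q) p := by
      refine Nat.Coprime.mul_left ?_ ?_
      · rw [show (56 : ℕ) = 2 ^ 3 * 7 by norm_num]
        refine Nat.Coprime.mul_left (Nat.Coprime.pow_left 3
          ((Nat.coprime_primes Nat.prime_two pp).2 (by omega)))
          ((Nat.coprime_primes (by norm_num) pp).2 (by omega))
      · refine Nat.Coprime.symm ((Nat.Prime.coprime_iff_not_dvd pp).2 fun h => hp ?_)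
        exact Y687.dvd_prod_primes hSp pp h
    obtain ⟨n, hn1, hn2⟩ := Nat.chineseRemainder hcop t r
    refine ⟨n, ?_, ?_, ?_⟩
    · rw [prod_insert hp, mul_left_comm, mul_comm]
      refine Nat.Coprime.mul_right ?_ ?_
      · rw [Nat.coprime_iff_gcd_eq_one, hn1.gcd_eq]
        exact ht
      · rw [Nat.coprime_comm, Nat.Prime.coprime_iff_not_dvd pp]
        intro h
        apply hr0
        rw [← (ZMod.natCast_eq_natCast_iff _ _ _).2 hn2]
        exact (ZMod.natCast_eq_zero_iff _ _).2 h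
    · exact (hn1.of_mul_right _).trans h45
    · intro q hq
      rcases mem_insert.1 hq with rfl | hq
      · rw [(ZMod.natCast_eq_natCast_iff _ _ _).2 hn2]
        exact hr
      · have h3 : n ≡ t [MOD q] := by
          refine (hn1.of_dvd ?_)
          exact dvd_mul_of_dvd_right (dvd_prod_of_mem _ hq) _
        rw [(ZMod.natCast_eq_natCast_iff _ _ _).2 h3]
        exact htS q hq

/-- **infinitely many inert primes make the matrix nonsingular** -/
theorem infinite_det (hP : ∀ p ∈ P, Spl p) (hT : ∀ q ∈ T, Ine q) :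
    {q : ℕ | Ine q ∧ q ∉ T ∧ (mat P (∏ r ∈ insert q T, r)).det ≠ 0}.Infinite := by
  obtain ⟨d, hd⟩ := exists_diag (mat P (∏ r ∈ T, r))
  obtain ⟨t, ht, h45, htP⟩ := exists_res P hP fun p => if h : p ∈ P then d ⟨p, h⟩ else 0
  have hN : NeZero (56 * ∏ p ∈ P, p) :=
    ⟨Nat.mul_ne_zero (by norm_num) (prod_ne_zero_iff.2 fun p hp => (hP p hp).1.ne_zero)⟩
  have hunit : IsUnit ((t : ℕ) : ZMod (56 * ∏ p ∈ P, p)) := by
    rw [ZMod.isUnit_iff_coprime]
    exact ht
  have hinf := Nat.infinite_setOfPred_prime_and_eq_mod hunit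
  refine (hinf.sdiff (T.finite_toSet)).mono ?_
  rintro q ⟨⟨hq, hqn⟩, hqS⟩
  rw [ZMod.natCast_eq_natCast_iff] at hqn
  have hq1 : q ≡ 45 [MOD 56] := (hqn.of_mul_right _).trans h45
  have hq56 : q % 56 = 45 := hq1
  have hI : Ine q := ⟨hq, by omega, by omega⟩
  have hqS' : q ∉ T := fun h => hqS (by simpa using h)
  refine ⟨hI, hqS', ?_⟩
  convert hd using 2
  ext i j
  rw [prod_insert hqS', Matrix.add_apply, Matrix.diagonal_apply]
  unfold mat
  simp only [Matrix.of_apply]
  have hi := hP i i.2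
  have hcong : q ≡ t [MOD (i : ℕ)] := by
    refine hqn.of_dvd ?_
    exact dvd_mul_of_dvd_right (dvd_prod_of_mem _ i.2) _
  by_cases h : j = i
  · subst h
    rw [if_pos rfl, if_pos rfl, if_pos rfl, mul_comm q,
      nr_mul hi (T_four hT) (Y687.split_not_dvd hi hT) hI,
      (ZMod.natCast_eq_natCast_iff _ _ _).2 hcong, htP j j.2, dif_pos j.2]
    ring
  · rw [if_neg h, if_neg h, if_neg fun h' => h h'.symm, add_zero]

end Pool.Agent.W2helper41.X
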