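import Mathlib

/-!
# Local images for `y² = m (m² + a D m + c D²)` over `ℚ_p`
-/

set_option autoImplicit false

namespace Pool.Agent.W2helper41.X

variable {p : ℕ} [hp : Fact p.Prime]

/-- the decomposition of a nonzero number -/
theorem dec (x : ℚ_[p]) (hx : x ≠ 0) : ∃ (k : ℤ) (u : ℤ_[p]ˣ), x = (p : ℚ_[p]) ^ k * ((u : ℤ_[p]) : ℚ_[p]) := by
  have hp0 : (p : ℚ_[p]) ≠ 0 := by exact_mod_cast hp.out.ne_zero
  have hn : ‖x * (p : ℚ_[p]) ^ (-x.valuation)‖ = 1 := by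
    rw [norm_mul, Padic.norm_eq_zpow_neg_valuation hx, norm_zpow, Padic.norm_p, inv_zpow', neg_neg,
      ← zpow_add₀ (by exact_mod_cast hp.out.ne_zero), neg_add_cancel, zpow_zero]
  refine ⟨x.valuation, PadicInt.mkUnits hn, ?_⟩
  rw [PadicInt.mkUnits_eq, mul_comm, mul_assoc, ← zpow_add₀ hp0, neg_add_cancel, zpow_zero, mul_one]

theorem unit_norm (u : ℤ_[p]ˣ) : ‖((u : ℤ_[p]) : ℚ_[p])‖ = 1 := PadicInt.norm_units u

theorem coe_unit_ne (u : ℤ_[p]ˣ) : ((u : ℤ_[p]) : ℚ_[p]) ≠ 0 := by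
  intro h
  have := unit_norm u
  rw [h, norm_zero] at this
  norm_num at this

/-- uniqueness of the exponent -/
theorem exp_eq {k l : ℤ} {u w : ℤ_[p]ˣ}
    (h : (p : ℚ_[p]) ^ k * ((u : ℤ_[p]) : ℚ_[p]) = (p : ℚ_[p]) ^ l * ((w : ℤ_[p]) : ℚ_[p])) :
    k = l ∧ u = w := by
  have hp0 : (p : ℚ_[p]) ≠ 0 := by exact_mod_cast hp.out.ne_zero
  have h1 := congrArg norm h
  rw [norm_mul, norm_mul, unit_norm, unit_norm, mul_one, mul_one, norm_zpow, norm_zpow,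
    Padic.norm_p] at h1
  have h2 : (1 : ℝ) < p := by exact_mod_cast hp.out.one_lt
  have hkl : k = l := by
    have h3 : ((p : ℝ)⁻¹) ^ k = ((p : ℝ)⁻¹) ^ l := h1
    rw [inv_zpow', inv_zpow'] at h3
    have := zpow_right_injective₀ (by linarith) (ne_of_gt h2) h3
    omega
  refine ⟨hkl, ?_⟩
  rw [hkl] at h
  have h4 := mul_left_cancel₀ (zpow_ne_zero l hp0) h
  exact Units.ext (Subtype.ext h4)

/-- a square with a given decomposition -/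
theorem sq_dec {y : ℚ_[p]} {k : ℤ} {w : ℤ_[p]ˣ} (h : y ^ 2 = (p : ℚ_[p]) ^ k * ((w : ℤ_[p]) : ℚ_[p])) :
    ∃ j : ℤ, k = 2 * j ∧ ∃ s : ℤ_[p]ˣ, s ^ 2 = w := by
  have hp0 : (p : ℚ_[p]) ≠ 0 := by exact_mod_cast hp.out.ne_zero
  have hy : y ≠ 0 := by
    rintro rfl
    rw [zero_pow two_ne_zero] at h
    exact mul_ne_zero (zpow_ne_zero k hp0) (coe_unit_ne w) h.symm
  obtain ⟨j, s, hs⟩ := dec y hy
  have h1 : (p : ℚ_[p]) ^ (2 * j) * (((s ^ 2 : ℤ_[p]ˣ) : ℤ_[p]) : ℚ_[p]) =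
      (p : ℚ_[p]) ^ k * ((w : ℤ_[p]) : ℚ_[p]) := by
    rw [← h, hs, mul_pow, ← zpow_natCast ((p : ℚ_[p]) ^ j), ← zpow_mul, mul_comm j]
    push_cast
    rfl
  obtain ⟨h2, h3⟩ := exp_eq h1
  exact ⟨j, h2.symm, s, h3⟩

/-- the residue of a unit -/
noncomputable def rs (u : ℤ_[p]ˣ) : ZMod p := PadicInt.toZMod (u : ℤ_[p])

theorem rs_ne (u : ℤ_[p]ˣ) : rs u ≠ 0 := by
  unfold rs
  exact (Units.map (PadicInt.toZMod (p := p)).toMonoidHom u).ne_zero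

theorem rs_mul (u w : ℤ_[p]ˣ) : rs (u * w) = rs u * rs w := by
  unfold rs
  rw [Units.val_mul, map_mul]

theorem rs_sq (u : ℤ_[p]ˣ) : IsSquare (rs (u ^ 2)) := ⟨rs u, by rw [pow_two, rs_mul]⟩

theorem isUnit_of {x : ℤ_[p]} (h : PadicInt.toZMod x ≠ 0) : IsUnit x := by
  by_contra hx
  apply h
  have : x ∈ IsLocalRing.maximalIdeal ℤ_[p] := (IsLocalRing.mem_maximalIdeal x).2 hx
  rwa [← PadicInt.ker_toZMod, RingHom.mem_ker] at this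

theorem toZMod_p : PadicInt.toZMod (p : ℤ_[p]) = 0 := by
  rw [map_natCast, ZMod.natCast_self]

/-- The local conditions: `m = p ^ k u` with `y ² = m (m² + a D m + c D²)`, `D = p D'`. -/
theorem loc_main {a c D' : ℤ} (hc : (c : ZMod p) ≠ 0) (hD : (D' : ZMod p) ≠ 0)
    {k : ℤ} {u : ℤ_[p]ˣ} {y : ℚ_[p]}
    (h : y ^ 2 = ((p : ℚ_[p]) ^ k * ((u : ℤ_[p]) : ℚ_[p])) *
      (((p : ℚ_[p]) ^ k * ((u : ℤ_[p]) : ℚ_[p])) ^ 2 +
        a * (p * D') * ((p : ℚ_[p]) ^ k * ((u : ℤ_[p]) : ℚ_[p])) + c * (p * D') ^ 2)) :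
    ((∃ j : ℤ, k = 2 * j) ∧ (IsSquare (rs u * c) ∨ IsSquare (rs u))) ∨
      (k = 1 ∧ ∃ ρ : ZMod p, ρ ^ 2 + a * ρ + c = 0 ∧ rs u = D' * ρ) := by
  have hp0 : (p : ℚ_[p]) ≠ 0 := by exact_mod_cast hp.out.ne_zero
  rcases lt_trichotomy k 1 with hk | hk | hk
  · -- `k ≤ 0`
    left
    obtain ⟨l, hl⟩ : ∃ l : ℕ, k = -(l : ℤ) := ⟨(-k).toNat, by omega⟩
    obtain ⟨w, hw⟩ : ∃ w : ℤ_[p], w = (u : ℤ_[p]) ^ 2 + a * (p ^ (l + 1) * D') * (u : ℤ_[p]) +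
        c * (p ^ (l + 1) * D') ^ 2 := ⟨_, rfl⟩
    have hwz : PadicInt.toZMod w = rs u ^ 2 := by
      rw [hw, pow_succ]
      simp only [map_add, map_mul, map_pow, toZMod_p, map_intCast]
      unfold rs
      ring
    have hwu : IsUnit w := isUnit_of (by rw [hwz]; exact pow_ne_zero 2 (rs_ne u))
    obtain ⟨w', hw'⟩ := hwu
    have h1 : y ^ 2 = (p : ℚ_[p]) ^ (3 * k) * (((u * w' : ℤ_[p]ˣ) : ℤ_[p]) : ℚ_[p]) := by
      rw [h, Units.val_mul, hw', hw]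
      push_cast
      have e1 : (p : ℚ_[p]) ^ (3 * k) = (p : ℚ_[p]) ^ k * ((p : ℚ_[p]) ^ k * (p : ℚ_[p]) ^ k) := by
        rw [← zpow_add₀ hp0, ← zpow_add₀ hp0]
        congr 1
        ring
      have e2 : (p : ℚ_[p]) ^ k * (p : ℚ_[p]) ^ (l + 1) = p := by
        rw [hl, ← zpow_natCast, ← zpow_add₀ hp0]
        have : -(l : ℤ) + ((l + 1 : ℕ) : ℤ) = 1 := by push_cast; ring
        rw [this, zpow_one]
      rw [e1]
      generalize (p : ℚ_[p]) ^ k = X at *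
      generalize (p : ℚ_[p]) ^ (l + 1) = Y at *
      rw [← e2]
      ring
    obtain ⟨j, hj, s, hs⟩ := sq_dec h1
    refine ⟨⟨j - k, by omega⟩, Or.inr ?_⟩
    have h2 := rs_sq s
    rw [hs, rs_mul] at h2
    have h3 : rs w' = rs u ^ 2 := by
      unfold rs
      rw [hw', hwz]
      rfl
    rw [h3] at h2
    obtain ⟨t, ht⟩ := h2
    refine ⟨t / rs u, ?_⟩
    have := rs_ne u
    field_simp
    linear_combination ht
  · right
    refine ⟨hk, ?_⟩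
    subst hk
    obtain ⟨w, hw⟩ : ∃ w : ℤ_[p], w = (u : ℤ_[p]) ^ 2 + a * D' * (u : ℤ_[p]) + c * D' ^ 2 :=
      ⟨_, rfl⟩
    have hw0 : PadicInt.toZMod w = 0 := by
      by_contra hne
      obtain ⟨w', hw'⟩ := isUnit_of hne
      have h1 : y ^ 2 = (p : ℚ_[p]) ^ (3 : ℤ) * (((u * w' : ℤ_[p]ˣ) : ℤ_[p]) : ℚ_[p]) := by
        rw [h, Units.val_mul, hw', hw]
        push_cast
        rw [zpow_one, show (3 : ℤ) = ((3 : ℕ) : ℤ) by norm_num, zpow_natCast]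
        ring
      obtain ⟨j, hj, -⟩ := sq_dec h1
      omega
    refine ⟨rs u / D', ?_, by field_simp⟩
    rw [hw] at hw0
    simp only [map_add, map_mul, map_pow, map_intCast] at hw0
    have h2 : rs u ^ 2 + a * D' * rs u + c * D' ^ 2 = 0 := hw0
    field_simp
    linear_combination h2
  · left
    obtain ⟨l, hl⟩ : ∃ l : ℕ, k = (l : ℤ) + 2 := ⟨(k - 2).toNat, by omega⟩
    obtain ⟨w, hw⟩ : ∃ w : ℤ_[p], w = (p ^ (l + 1) * (u : ℤ_[p])) ^ 2 +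
        a * D' * (p ^ (l + 1) * (u : ℤ_[p])) + c * D' ^ 2 := ⟨_, rfl⟩
    have hwz : PadicInt.toZMod w = c * D' ^ 2 := by
      rw [hw, pow_succ]
      simp only [map_add, map_mul, map_pow, toZMod_p, map_intCast]
      ring
    have hwu : IsUnit w := isUnit_of (by rw [hwz]; exact mul_ne_zero hc (pow_ne_zero 2 hD))
    obtain ⟨w', hw'⟩ := hwu
    have h1 : y ^ 2 = (p : ℚ_[p]) ^ (k + 2) * (((u * w' : ℤ_[p]ˣ) : ℤ_[p]) : ℚ_[p]) := by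
      rw [h, Units.val_mul, hw', hw]
      push_cast
      have e1 : (p : ℚ_[p]) ^ (k + 2) = (p : ℚ_[p]) ^ k * (p : ℚ_[p]) ^ 2 := by
        rw [zpow_add₀ hp0]
        norm_cast
      have e2 : (p : ℚ_[p]) ^ k = (p : ℚ_[p]) ^ (l + 1) * p := by
        rw [hl, ← pow_succ, ← zpow_natCast]
        congr 1
      rw [e1, e2]
      ring
    obtain ⟨j, hj, s, hs⟩ := sq_dec h1
    refine ⟨⟨j - 1, by omega⟩, Or.inl ?_⟩
    have h2 := rs_sq s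
    rw [hs, rs_mul] at h2
    have h3 : rs w' = c * D' ^ 2 := by
      unfold rs
      rw [hw', hwz]
    rw [h3] at h2
    obtain ⟨t, ht⟩ := h2
    refine ⟨t / D', ?_⟩
    field_simp
    linear_combination ht

/-- the local conditions when `p` does not divide the last coefficient -/
theorem loc_even {a c : ℤ} (hc : (c : ZMod p) ≠ 0) {k : ℤ} {u : ℤ_[p]ˣ} {y : ℚ_[p]}
    (h : y ^ 2 = ((p : ℚ_[p]) ^ k * ((u : ℤ_[p]) : ℚ_[p])) *
      (((p : ℚ_[p]) ^ k * ((u : ℤ_[p]) : ℚ_[p])) ^ 2 +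
        a * ((p : ℚ_[p]) ^ k * ((u : ℤ_[p]) : ℚ_[p])) + c)) : ∃ j : ℤ, k = 2 * j := by
  have hp0 : (p : ℚ_[p]) ≠ 0 := by exact_mod_cast hp.out.ne_zero
  rcases lt_trichotomy k 0 with hk | hk | hk
  · obtain ⟨l, hl⟩ : ∃ l : ℕ, k = -((l : ℤ) + 1) := ⟨(-k - 1).toNat, by omega⟩
    obtain ⟨w, hw⟩ : ∃ w : ℤ_[p], w = (u : ℤ_[p]) ^ 2 + a * (p ^ (l + 1)) * (u : ℤ_[p]) +
        c * (p ^ (l + 1)) ^ 2 := ⟨_, rfl⟩
    have hwz : PadicInt.toZMod w = rs u ^ 2 := by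
      rw [hw, pow_succ]
      simp only [map_add, map_mul, map_pow, toZMod_p, map_intCast]
      unfold rs
      ring
    have hwu : IsUnit w := isUnit_of (by rw [hwz]; exact pow_ne_zero 2 (rs_ne u))
    obtain ⟨w', hw'⟩ := hwu
    have h1 : y ^ 2 = (p : ℚ_[p]) ^ (3 * k) * (((u * w' : ℤ_[p]ˣ) : ℤ_[p]) : ℚ_[p]) := by
      rw [h, Units.val_mul, hw', hw]
      push_cast
      have e1 : (p : ℚ_[p]) ^ (3 * k) = (p : ℚ_[p]) ^ k * ((p : ℚ_[p]) ^ k * (p : ℚ_[p]) ^ k) := by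
        rw [← zpow_add₀ hp0, ← zpow_add₀ hp0]
        congr 1
        ring
      have e2 : (p : ℚ_[p]) ^ k * (p : ℚ_[p]) ^ (l + 1) = 1 := by
        rw [hl, ← zpow_natCast, ← zpow_add₀ hp0]
        have : -((l : ℤ) + 1) + ((l + 1 : ℕ) : ℤ) = 0 := by push_cast; ring
        rw [this, zpow_zero]
      rw [e1]
      generalize (p : ℚ_[p]) ^ k = X at *
      generalize (p : ℚ_[p]) ^ (l + 1) = Y at *
      linear_combination (-(a : ℚ_[p]) * X ^ 2 * (u : ℤ_[p]) ^ 2 -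
        (c : ℚ_[p]) * X * (u : ℤ_[p]) * (1 + X * Y)) * e2
    obtain ⟨j, hj, -⟩ := sq_dec h1
    exact ⟨j - k, by omega⟩
  · exact ⟨0, by omega⟩
  · obtain ⟨l, hl⟩ : ∃ l : ℕ, k = (l : ℤ) + 1 := ⟨(k - 1).toNat, by omega⟩
    obtain ⟨w, hw⟩ : ∃ w : ℤ_[p], w = (p ^ (l + 1) * (u : ℤ_[p])) ^ 2 +
        a * (p ^ (l + 1) * (u : ℤ_[p])) + c := ⟨_, rfl⟩
    have hwz : PadicInt.toZMod w = c := by
      rw [hw, pow_succ]
      simp only [map_add, map_mul, map_pow, toZMod_p, map_intCast]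
      ring
    obtain ⟨w', hw'⟩ := isUnit_of (by rw [hwz]; exact hc)
    have h1 : y ^ 2 = (p : ℚ_[p]) ^ k * (((u * w' : ℤ_[p]ˣ) : ℤ_[p]) : ℚ_[p]) := by
      rw [h, Units.val_mul, hw', hw]
      push_cast
      have e2 : (p : ℚ_[p]) ^ k = (p : ℚ_[p]) ^ (l + 1) := by
        rw [hl, ← zpow_natCast]
        congr 1
      rw [e2]
      ring
    obtain ⟨j, hj, -⟩ := sq_dec h1
    exact ⟨j, hj⟩

end Pool.Agent.W2helper41.X
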